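import Mathlib

set_option autoImplicit false
open Finset

namespace Pool.Agent.Lib.helper33.Bhargava

/-- The largest power of `p` dividing the nonzero integer `m`. -/
noncomputable def w (p : ℕ) (m : ℤ) : ℕ := p ^ multiplicity (p : ℤ) m

/-- `a` is a `p`-ordering of `X`: each `a k` lies in `X` and minimises the power of `p` dividing
the product of its differences with the earlier terms (the product `0` has infinite power). -/
def IsOrd (X : Set ℤ) (p : ℕ) (a : ℕ → ℤ) : Prop :=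
  (∀ k, a k ∈ X) ∧ ∀ k, ∀ x ∈ X, emultiplicity (p : ℤ) (∏ i ∈ range k, (a k - a i)) ≤
    emultiplicity (p : ℤ) (∏ i ∈ range k, (x - a i))

/-- `a p` is a `p`-ordering of `X` for every prime `p`. -/
def IsOrds (X : Set ℤ) (a : Nat.Primes → ℕ → ℤ) : Prop := ∀ p : Nat.Primes, IsOrd X p (a p)

/-- `ν_k(X,p)` computed from the `p`-ordering `a p`. -/
noncomputable def nu (a : Nat.Primes → ℕ → ℤ) (k : ℕ) (p : Nat.Primes) : ℕ :=
  w p (∏ i ∈ range k, (a p k - a p i))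

/-- The Bhargava factorial `k!_X`, the product of `ν_k(X,p)` over all primes. -/
noncomputable def fact (a : Nat.Primes → ℕ → ℤ) (k : ℕ) : ℕ := ∏ᶠ p, nu a k p

/-- `k!_X` is defined: `X` has more than `k` elements, `p`-orderings exist, and for any choice
of them only finitely many factors differ from `1`. -/
def Defined (X : Set ℤ) (k : ℕ) : Prop :=
  (k : ℕ∞) < X.encard ∧ (∃ a, IsOrds X a) ∧
    ∀ a, IsOrds X a → (Function.mulSupport (nu a k)).Finite

lemma exists_ord (X : Set ℤ) (hX : X.Nonempty) (p : ℕ) : ∃ a, IsOrd X p a := by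
  have h : ∀ (k : ℕ) (f : Fin k → ℤ), ∃ y ∈ X, ∀ x ∈ X, emultiplicity (p : ℤ) (∏ i, (y - f i)) ≤
      emultiplicity (p : ℤ) (∏ i, (x - f i)) := fun k f =>
    ⟨_, Function.argminOn_mem (fun x => emultiplicity (p : ℤ) (∏ i, (x - f i))) X hX,
      fun x hx => Function.argminOn_le (fun x => emultiplicity (p : ℤ) (∏ i, (x - f i))) X hx⟩
  choose g h1 h2 using h
  let a : ℕ → ℤ := fun k => Nat.strongRec (motive := fun _ => ℤ)
    (fun k ih => g k fun i => ih i i.2) k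
  have e : ∀ k, a k = g k fun i => a i := fun k => Nat.strongRec_eq _ _
  refine ⟨a, fun k => e k ▸ h1 _ _, fun k x hx => ?_⟩
  rw [prod_range, prod_range, e k]
  exact h2 _ _ x hx

lemma step {X : Set ℤ} {p : ℕ} (hp : p.Prime) {a : ℕ → ℤ} (ha : IsOrd X p a) {k : ℕ} {x : ℤ}
    (hx : x ∈ X) (h : ∀ i < k, ¬ (p : ℤ) ∣ x - a i) : ¬ (p : ℤ) ∣ ∏ i ∈ range k, (a k - a i) := by
  have := ha.2 k x hx
  rw [emultiplicity_eq_zero.2 ((Nat.prime_iff_prime_int.1 hp).not_dvd_finsetProd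
    fun i hi => h i (mem_range.1 hi)), nonpos_iff_eq_zero] at this
  exact emultiplicity_eq_zero.1 this

lemma nu_one {X : Set ℤ} {a : Nat.Primes → ℕ → ℤ} (ha : IsOrds X a) {k : ℕ} (p : Nat.Primes)
    (F : Finset ℤ) (hF : ↑F ⊆ X) (hk : k < (F.image fun x : ℤ => (x : ZMod p)).card) :
    nu a k p = 1 := by
  obtain ⟨r, h1, h2⟩ := exists_mem_notMem_of_card_lt_card
    (s := (range k).image fun i => (a p i : ZMod p)) (card_image_le.trans_lt (by rwa [card_range]))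
  obtain ⟨x, hx, rfl⟩ := mem_image.1 h1
  have := step p.2 (ha p) (hF hx) (k := k) fun i hi hd => h2 (mem_image.2 ⟨i, mem_range.2 hi,
    (ZMod.intCast_eq_intCast_iff_dvd_sub _ _ _).2 hd⟩)
  rw [nu, w, multiplicity_eq_zero.2 this, pow_zero]

lemma defined {X : Set ℤ} (k : ℕ) (F : Finset ℤ) (hF : ↑F ⊆ X) (hk : k < F.card) (B : ℕ)
    (hB : ∀ x ∈ F, 0 ≤ x ∧ x ≤ B) : Defined X k := by
  refine ⟨lt_of_lt_of_le (by rw [Set.encard_coe_eq_coe_finsetCard]; exact_mod_cast hk)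
    (Set.encard_le_encard hF), ?_, fun a ha => ?_⟩
  · obtain ⟨x, hx⟩ := card_pos.1 (lt_of_le_of_lt (Nat.zero_le _) hk)
    choose a ha using fun p : Nat.Primes => exists_ord X ⟨x, hF hx⟩ p
    exact ⟨a, ha⟩
  · refine ((Set.finite_Iic B).preimage (f := fun p : Nat.Primes => (p : ℕ))
      Subtype.val_injective.injOn).subset fun p hp => ?_
    by_contra hn
    have hn : (B : ℤ) < (p : ℕ) := by exact_mod_cast not_le.1 hn
    refine hp (nu_one ha p F hF ?_)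
    rwa [card_image_of_injOn fun x hx y hy e => ?_]
    have := Int.eq_zero_of_abs_lt_dvd ((ZMod.intCast_eq_intCast_iff_dvd_sub _ _ _).1 e)
      (by have := hB x hx; have := hB y hy; rw [abs_lt]; constructor <;> linarith)
    linarith

lemma dvd_nu {X : Set ℤ} {a : Nat.Primes → ℕ → ℤ} (ha : IsOrds X a) (q : Nat.Primes)
    (hX : ∀ x ∈ X, ¬ ((q : ℕ) : ℤ) ∣ x) : (q : ℕ) ∣ nu a (q - 1) q := by
  have : Fact (q : ℕ).Prime := ⟨q.2⟩
  refine dvd_pow_self _ (multiplicity_pos_of_dvd ?_).ne'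
  by_contra hn
  have h1 : ∀ j ≤ (q : ℕ) - 1, ∀ i < j, ¬ ((q : ℕ) : ℤ) ∣ a q j - a q i := fun j hj i hi hd =>
    step q.2 (ha q) ((ha q).1 (q - 1)) (k := j)
      (fun l hl hd => hn (hd.trans (dvd_prod_of_mem _ (mem_range.2 (hl.trans_le hj)))))
      (hd.trans (dvd_prod_of_mem _ (mem_range.2 hi)))
  have h2 := card_le_card_of_injOn (s := range q) (t := univ.erase (0 : ZMod q))
    (fun i => (a q i : ZMod q)) (fun i _ => mem_coe.2 (mem_erase.2 ⟨fun h => hX _ ((ha q).1 i)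
      ((ZMod.intCast_zmod_eq_zero_iff_dvd _ _).1 h), mem_univ _⟩)) fun i hi j hj e => by
      have hi := mem_range.1 (mem_coe.1 hi)
      have hj := mem_range.1 (mem_coe.1 hj)
      rcases lt_trichotomy i j with h | h | h
      · exact absurd ((ZMod.intCast_eq_intCast_iff_dvd_sub _ _ _).1 e) (h1 j (by omega) i h)
      · exact h
      · exact absurd ((ZMod.intCast_eq_intCast_iff_dvd_sub _ _ _).1 e.symm) (h1 i (by omega) j h)
  rw [card_range, card_erase_of_mem (mem_univ _), card_univ, ZMod.card] at h2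
  have := q.2.pos
  omega

theorem main {X Y : Set ℤ} (q : Nat.Primes) (hX : ∀ x ∈ X, ¬ ((q : ℕ) : ℤ) ∣ x)
    (dX : Defined X (q - 1)) (dY : Defined Y (q - 1)) (G : Finset ℤ) (hG : ↑G ⊆ Y)
    (hk : (q : ℕ) - 1 < (G.image fun x : ℤ => (x : ZMod q)).card) (c : ℕ) (hc : ¬ (q : ℕ) ∣ c)
    {a b : Nat.Primes → ℕ → ℤ} (ha : IsOrds X a) (hb : IsOrds Y b) :
    fact a (q - 1) ≠ c * fact b (q - 1) := by
  intro h
  have h1 : (q : ℕ) ∣ fact a (q - 1) :=
    (dvd_nu ha q hX).trans (finprod_mem_dvd q (dX.2.2 a ha))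
  rw [h] at h1
  have h2 := (q.2.dvd_mul.1 h1).resolve_left hc
  rw [fact, finprod_eq_prod _ (dY.2.2 b hb)] at h2
  obtain ⟨p, hp, h3⟩ := (q.2.prime.dvd_finsetProd_iff _).1 h2
  obtain rfl : q = p := Subtype.ext
    ((Nat.prime_dvd_prime_iff_eq q.2 p.2).1 (q.2.dvd_of_dvd_pow h3))
  exact (Set.Finite.mem_toFinset _).1 hp (nu_one hb q G hG hk)

/-- The set of all primes. -/
def P : Set ℤ := Nat.cast '' {p : ℕ | p.Prime}

/-- The set of twin primes. -/
def P2 : Set ℤ := Nat.cast '' {p : ℕ | p.Prime ∧ ((p - 2).Prime ∨ (p + 2).Prime)}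

/-- The primes in some triple `r, r+2, r+6` of primes. -/
def P3 : Set ℤ := Nat.cast '' {p : ℕ | ∃ r : ℕ, (r.Prime ∧ (r + 2).Prime ∧ (r + 6).Prime) ∧
  (p = r ∨ p = r + 2 ∨ p = r + 6)}

/-- The primes in some quadruple `r, r+2, r+6, r+8` of primes. -/
def P4 : Set ℤ := Nat.cast '' {p : ℕ | ∃ r : ℕ,
  (r.Prime ∧ (r + 2).Prime ∧ (r + 6).Prime ∧ (r + 8).Prime) ∧
  (p = r ∨ p = r + 2 ∨ p = r + 6 ∨ p = r + 8)}

lemma sub_image {S : Set ℕ} (l : List ℕ) (h : ∀ n ∈ l, n ∈ S) :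
    ↑((l.map (Nat.cast : ℕ → ℤ)).toFinset) ⊆ (Nat.cast '' S : Set ℤ) := fun x hx => by
  obtain ⟨n, hn, rfl⟩ := List.mem_map.1 (List.mem_toFinset.1 hx)
  exact ⟨n, h n hn, rfl⟩

lemma w_small (p : ℕ) (m : ℤ) (e : ℕ) (h1 : (p : ℤ) ^ e ∣ m)
    (h2 : ¬ (p : ℤ) ^ (e + 1) ∣ m) : w p m = p ^ e := by
  rw [w, multiplicity_eq_of_dvd_of_not_dvd h1 h2]

end Pool.Agent.Lib.helper33.Bhargava
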