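import Mathlib

set_option autoImplicit false

namespace Pool.Agent.Lib.helper33.BorgAlg

/-- the cubic whose roots give the cone Green functions -/
def P {R : Type} [CommRing R] (u w x : R) : R :=
  2 * u * x ^ 3 - (3 * u * w - 4) * x ^ 2 + (u * w ^ 2 - 3 * w + 2 * u) * x - (u * w - 2)

def dd (a b c d : ℝ) : ℝ :=
  b ^ 2 * c ^ 2 - 4 * a * c ^ 3 - 4 * b ^ 3 * d - 27 * a ^ 2 * d ^ 2 + 18 * a * b * c * d

noncomputable def dsc (E : ℝ) : ℝ :=
  dd (2 * (E - 1 / 4)) (-(3 * (E - 1 / 4) * E - 4))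
    ((E - 1 / 4) * E ^ 2 - 3 * E + 2 * (E - 1 / 4)) (-((E - 1 / 4) * E - 2))

lemma disc0 (E : ℝ) (h1 : (-11/4) ≤ E) (h2 : E ≤ (-9/8)) : dsc E < 0 := by
  obtain ⟨x, hx, e1⟩ : ∃ x, 0 ≤ x ∧ x = E - (-11/4) := ⟨_, by linarith, rfl⟩
  obtain ⟨y, hy, e2⟩ : ∃ y, 0 ≤ y ∧ y = (-9/8) - E := ⟨_, by linarith, rfl⟩
  have h : 0 ≤ (112411279360/137858491849) * x ^ 0 * y ^ 10 + (9997310099456/137858491849) * x ^ 1 * y ^ 9 + (20654686281728/137858491849) * x ^ 2 * y ^ 8 + (11148845910016/137858491849) * x ^ 3 * y ^ 7 + (346691604928/137858491849) * x ^ 4 * y ^ 6 + (5989631023040/137858491849) * x ^ 5 * y ^ 5 + (10957659926544/137858491849) * x ^ 6 * y ^ 4 + (6975048930976/137858491849) * x ^ 7 * y ^ 3 + (2375739309156/137858491849) * x ^ 8 * y ^ 2 + (550682685180/137858491849) * x ^ 9 * y ^ 1 + (76471755103/137858491849) * x ^ 10 * y ^ 0 := by positivity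
  have e : (112411279360/137858491849) * x ^ 0 * y ^ 10 + (9997310099456/137858491849) * x ^ 1 * y ^ 9 + (20654686281728/137858491849) * x ^ 2 * y ^ 8 + (11148845910016/137858491849) * x ^ 3 * y ^ 7 + (346691604928/137858491849) * x ^ 4 * y ^ 6 + (5989631023040/137858491849) * x ^ 5 * y ^ 5 + (10957659926544/137858491849) * x ^ 6 * y ^ 4 + (6975048930976/137858491849) * x ^ 7 * y ^ 3 + (2375739309156/137858491849) * x ^ 8 * y ^ 2 + (550682685180/137858491849) * x ^ 9 * y ^ 1 + (76471755103/137858491849) * x ^ 10 * y ^ 0 = - dsc E - 1 := by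
    rw [e1, e2, dsc, dd]; ring
  linarith

lemma disc1 (E : ℝ) (h1 : (-9/8) ≤ E) (h2 : E ≤ (13/8)) : dsc E < 0 := by
  obtain ⟨x, hx, e1⟩ : ∃ x, 0 ≤ x ∧ x = E - (-9/8) := ⟨_, by linarith, rfl⟩
  obtain ⟨y, hy, e2⟩ : ∃ y, 0 ≤ y ∧ y = (13/8) - E := ⟨_, by linarith, rfl⟩
  have h : 0 ≤ (76471755103/26559922791424) * x ^ 0 * y ^ 10 + (563465200465/13279961395712) * x ^ 1 * y ^ 9 + (9166463416491/26559922791424) * x ^ 2 * y ^ 8 + (6080149579147/3319990348928) * x ^ 3 * y ^ 7 + (74878171880807/13279961395712) * x ^ 4 * y ^ 6 + (53754701468755/6639980697856) * x ^ 5 * y ^ 5 + (50152908216959/13279961395712) * x ^ 6 * y ^ 4 + (3047141368827/3319990348928) * x ^ 7 * y ^ 3 + (3389675921683/26559922791424) * x ^ 8 * y ^ 2 + (46658053873/13279961395712) * x ^ 9 * y ^ 1 + (2685887255/26559922791424) * x ^ 10 * y ^ 0 := by positivity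
  have e : (76471755103/26559922791424) * x ^ 0 * y ^ 10 + (563465200465/13279961395712) * x ^ 1 * y ^ 9 + (9166463416491/26559922791424) * x ^ 2 * y ^ 8 + (6080149579147/3319990348928) * x ^ 3 * y ^ 7 + (74878171880807/13279961395712) * x ^ 4 * y ^ 6 + (53754701468755/6639980697856) * x ^ 5 * y ^ 5 + (50152908216959/13279961395712) * x ^ 6 * y ^ 4 + (3047141368827/3319990348928) * x ^ 7 * y ^ 3 + (3389675921683/26559922791424) * x ^ 8 * y ^ 2 + (46658053873/13279961395712) * x ^ 9 * y ^ 1 + (2685887255/26559922791424) * x ^ 10 * y ^ 0 = - dsc E - 1 := by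
    rw [e1, e2, dsc, dd]; ring
  linarith

lemma disc2 (E : ℝ) (h1 : (13/8) ≤ E) (h2 : E ≤ (21/8)) : dsc E < 0 := by
  obtain ⟨x, hx, e1⟩ : ∃ x, 0 ≤ x ∧ x = E - (13/8) := ⟨_, by linarith, rfl⟩
  obtain ⟨y, hy, e2⟩ : ∃ y, 0 ≤ y ∧ y = (21/8) - E := ⟨_, by linarith, rfl⟩
  have h : 0 ≤ (2685887255/1073741824) * x ^ 0 * y ^ 10 + (1346302603/536870912) * x ^ 1 * y ^ 9 + (256518388603/1073741824) * x ^ 2 * y ^ 8 + (282906070257/134217728) * x ^ 3 * y ^ 7 + (4312450468559/536870912) * x ^ 4 * y ^ 6 + (4816207213585/268435456) * x ^ 5 * y ^ 5 + (13936301593727/536870912) * x ^ 6 * y ^ 4 + (3295643945617/134217728) * x ^ 7 * y ^ 3 + (15363421286091/1073741824) * x ^ 8 * y ^ 2 + (2371360007755/536870912) * x ^ 9 * y ^ 1 + (517438173703/1073741824) * x ^ 10 * y ^ 0 := by positivity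
  have e : (2685887255/1073741824) * x ^ 0 * y ^ 10 + (1346302603/536870912) * x ^ 1 * y ^ 9 + (256518388603/1073741824) * x ^ 2 * y ^ 8 + (282906070257/134217728) * x ^ 3 * y ^ 7 + (4312450468559/536870912) * x ^ 4 * y ^ 6 + (4816207213585/268435456) * x ^ 5 * y ^ 5 + (13936301593727/536870912) * x ^ 6 * y ^ 4 + (3295643945617/134217728) * x ^ 7 * y ^ 3 + (15363421286091/1073741824) * x ^ 8 * y ^ 2 + (2371360007755/536870912) * x ^ 9 * y ^ 1 + (517438173703/1073741824) * x ^ 10 * y ^ 0 = - dsc E - 1 := by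
    rw [e1, e2, dsc, dd]; ring
  linarith

lemma disc3 (E : ℝ) (h1 : (21/8) ≤ E) (h2 : E ≤ (23/8)) : dsc E < 0 := by
  obtain ⟨x, hx, e1⟩ : ∃ x, 0 ≤ x ∧ x = E - (21/8) := ⟨_, by linarith, rfl⟩
  obtain ⟨y, hy, e2⟩ : ∃ y, 0 ≤ y ∧ y = (23/8) - E := ⟨_, by linarith, rfl⟩
  have h : 0 ≤ (517438173703/1024) * x ^ 0 * y ^ 10 + (2641148583705/512) * x ^ 1 * y ^ 9 + (24003685375251/1024) * x ^ 2 * y ^ 8 + (7971281819267/128) * x ^ 3 * y ^ 7 + (54638061199887/512) * x ^ 4 * y ^ 6 + (31375126530155/256) * x ^ 5 * y ^ 5 + (48483810412679/512) * x ^ 6 * y ^ 4 + (6126857209907/128) * x ^ 7 * y ^ 3 + (15052204230683/1024) * x ^ 8 * y ^ 2 + (1177965385273/512) * x ^ 9 * y ^ 1 + (106775286175/1024) * x ^ 10 * y ^ 0 := by positivity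
  have e : (517438173703/1024) * x ^ 0 * y ^ 10 + (2641148583705/512) * x ^ 1 * y ^ 9 + (24003685375251/1024) * x ^ 2 * y ^ 8 + (7971281819267/128) * x ^ 3 * y ^ 7 + (54638061199887/512) * x ^ 4 * y ^ 6 + (31375126530155/256) * x ^ 5 * y ^ 5 + (48483810412679/512) * x ^ 6 * y ^ 4 + (6126857209907/128) * x ^ 7 * y ^ 3 + (15052204230683/1024) * x ^ 8 * y ^ 2 + (1177965385273/512) * x ^ 9 * y ^ 1 + (106775286175/1024) * x ^ 10 * y ^ 0 = - dsc E - 1 := by
    rw [e1, e2, dsc, dd]; ring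
  linarith

lemma roots (u w : ℝ) (hu : u ≠ 0) : (∃ x : ℂ, x.im < 0 ∧ P (u : ℂ) w x = 0) ∨
    ∃ a b c : ℝ, -(3 * u * w - 4) = 2 * u * -(a + b + c) ∧
      u * w ^ 2 - 3 * w + 2 * u = 2 * u * (a * b + a * c + b * c) ∧
      -(u * w - 2) = 2 * u * -(a * b * c) := by
  let Q : Cubic ℝ := ⟨2 * u, -(3 * u * w - 4), u * w ^ 2 - 3 * w + 2 * u, -(u * w - 2)⟩
  have ha : Q.a ≠ 0 := by simpa [Q] using hu
  obtain ⟨x, y, z, h⟩ := (Cubic.splits_iff_roots_eq_three (φ := Complex.ofRealHom) ha).1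
    (IsAlgClosed.splits _)
  have h1 := Cubic.b_eq_three_roots ha h
  have h2 := Cubic.c_eq_three_roots ha h
  have h3 := Cubic.d_eq_three_roots ha h
  simp only [Q, Complex.ofRealHom_eq_coe] at h1 h2 h3
  push_cast at h1 h2 h3
  have key : ∀ t : ℂ, t.im ≠ 0 → P (u : ℂ) w t = 0 → ∃ x : ℂ, x.im < 0 ∧ P (u : ℂ) w x = 0 := by
    intro t ht hP
    rcases lt_or_gt_of_ne ht with h | h
    · exact ⟨t, h, hP⟩
    · refine ⟨(starRingEnd ℂ) t, by simpa using h, ?_⟩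
      have := congrArg (starRingEnd ℂ) hP
      simpa [P, Complex.conj_ofReal, map_ofNat] using this
  by_cases hx : x.im = 0
  · by_cases hy : y.im = 0
    · by_cases hz : z.im = 0
      · lift x to ℝ using hx
        lift y to ℝ using hy
        lift z to ℝ using hz
        refine Or.inr ⟨x, y, z, Complex.ofReal_injective ?_, Complex.ofReal_injective ?_,
          Complex.ofReal_injective ?_⟩
        · push_cast; exact h1
        · push_cast; exact h2
        · push_cast; exact h3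
      · exact Or.inl (key z hz (by
          unfold P; linear_combination z ^ 2 * h1 + z * h2 + h3))
    · exact Or.inl (key y hy (by
        unfold P; linear_combination y ^ 2 * h1 + y * h2 + h3))
  · exact Or.inl (key x hx (by
      unfold P; linear_combination x ^ 2 * h1 + x * h2 + h3))

lemma posroot (u w a b c : ℝ) (hu : 2 ≤ u) (hw : 2 < u * (w - 2))
    (h1 : -(3 * u * w - 4) = 2 * u * -(a + b + c))
    (h2 : u * w ^ 2 - 3 * w + 2 * u = 2 * u * (a * b + a * c + b * c))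
    (h3 : -(u * w - 2) = 2 * u * -(a * b * c)) : ∃ x, 0 < x ∧ x ≤ 1 ∧ P u w x = 0 := by
  have hw2 : 2 < w := by
    by_contra h
    have : u * (w - 2) ≤ 0 := mul_nonpos_of_nonneg_of_nonpos (by linarith) (by linarith)
    linarith
  have hP : ∀ t, P u w t = 2 * u * ((t - a) * (t - b) * (t - c)) := fun t => by
    unfold P; linear_combination t ^ 2 * h1 + t * h2 + h3
  have pos : ∀ t, P u w t = 0 → 0 < t := fun t ht => by
    by_contra h
    have h : 0 ≤ -t := by linarith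
    have e1 : 0 ≤ u * (-t) ^ 3 := by positivity
    have e2 : 0 ≤ (3 * u * w - 4) * (-t) ^ 2 := mul_nonneg (by linarith) (by positivity)
    have e4 : 0 ≤ w * (u * w - 3) := mul_nonneg (by linarith) (by linarith)
    have e3 : 0 ≤ (u * w ^ 2 - 3 * w + 2 * u) * (-t) := mul_nonneg (by linarith) h
    unfold P at ht
    linarith
  have ra : P u w a = 0 := by rw [hP]; ring
  have rb : P u w b = 0 := by rw [hP]; ring
  have rc : P u w c = 0 := by rw [hP]; ring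
  by_contra hn
  push Not at hn
  have ha : 1 < a := lt_of_not_ge fun h => hn a (pos a ra) h ra
  have hb : 1 < b := lt_of_not_ge fun h => hn b (pos b rb) h rb
  have hc : 1 < c := lt_of_not_ge fun h => hn c (pos c rc) h rc
  have hab := one_lt_mul_of_lt_of_le ha hb.le
  have hac := one_lt_mul_of_lt_of_le ha hc.le
  have hbc := one_lt_mul_of_lt_of_le hb hc.le
  have m1 : 0 < a * b * c - a := by
    have := mul_pos (lt_trans one_pos ha) (sub_pos.2 hbc); linarith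
  have m2 : 0 < a * b * c - b := by
    have := mul_pos (lt_trans one_pos hb) (sub_pos.2 hac); linarith
  have m3 : 0 < a * b * c - c := by
    have := mul_pos (lt_trans one_pos hc) (sub_pos.2 hab); linarith
  have p1 : 0 < P u w (a * b * c) := by rw [hP]; positivity
  have p2 : u * P u w (a * b * c) = -2 * (a * b * c) := by
    unfold P
    linear_combination (u * (w * (a * b * c) - (a * b * c) ^ 2 - 1) * (-1) + (a * b * c)) * h3
  have p3 : 0 < u * P u w (a * b * c) := by positivity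
  linarith

/-- solving the cone equations from a root of the cubic -/
lemma solve {F : Type} [Field F] (u w x : F) (hx : x ≠ 0) (h1 : w - 2 * x ≠ 0)
    (h2 : u - 2 * (w - 2 * x)⁻¹ ≠ 0) (hP : P u w x = 0) :
    x⁻¹ + x + (u - 2 * (w - 2 * x)⁻¹)⁻¹ = w := by
  have h3 : u * (w - 2 * x) - 2 ≠ 0 := by
    intro h
    apply h2
    field_simp
    linear_combination h
  have e : u - 2 * (w - 2 * x)⁻¹ = (u * (w - 2 * x) - 2) / (w - 2 * x) := by field_simp
  rw [e, inv_div]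
  unfold P at hP
  rw [← eq_sub_iff_add_eq', div_eq_iff h3]
  field_simp
  linear_combination -hP

lemma cplx (u w : ℝ) (x : ℂ) (hx : x.im < 0) (hP : P (u : ℂ) w x = 0) :
    ∃ x y r : ℂ, x.im < 0 ∧ y.im < 0 ∧ r.im < 0 ∧ x⁻¹ + x + r = w ∧ y⁻¹ + 2 * x = w ∧
      r⁻¹ + 2 * y = u := by
  have inv : ∀ z : ℂ, 0 < z.im → z ≠ 0 ∧ (z⁻¹).im < 0 := fun z hz => by
    have h0 : z ≠ 0 := fun h => by simp [h] at hz
    refine ⟨h0, ?_⟩
    rw [Complex.inv_im]
    exact div_neg_of_neg_of_pos (by linarith) (Complex.normSq_pos.2 h0)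
  obtain ⟨a1, a2⟩ := inv ((w : ℂ) - 2 * x) (by simp; linarith)
  obtain ⟨b1, b2⟩ := inv ((u : ℂ) - 2 * ((w : ℂ) - 2 * x)⁻¹) (by
    rw [Complex.sub_im, Complex.ofReal_im, two_mul ((w : ℂ) - 2 * x)⁻¹, Complex.add_im]; linarith)
  exact ⟨x, _, _, hx, a2, b2, solve _ _ _ (fun h => by simp [h] at hx) a1 b1 hP,
    by rw [inv_inv]; ring, by rw [inv_inv]; ring⟩

lemma real (u w x : ℝ) (hu : 2 ≤ u) (hw : 2 < u * (w - 2)) (h0 : 0 < x) (h1 : x ≤ 1)
    (hP : P u w x = 0) : ∃ x y r : ℝ, 0 < x ∧ 0 < y ∧ 0 < r ∧ x⁻¹ + x + r = w ∧ y⁻¹ + 2 * x = w ∧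
      r⁻¹ + 2 * y = u ∧ x ≤ x⁻¹ := by
  have hw2 : 2 < w := by
    by_contra h
    have : u * (w - 2) ≤ 0 := mul_nonpos_of_nonneg_of_nonpos (by linarith) (by linarith)
    linarith
  have a1 : 0 < w - 2 * x := by linarith
  have a2 : 0 < u - 2 * (w - 2 * x)⁻¹ := by
    have : u * (w - 2) ≤ u * (w - 2 * x) := mul_le_mul_of_nonneg_left (by linarith) (by linarith)
    rw [← div_eq_mul_inv, sub_pos, div_lt_iff₀ a1]
    linarith
  exact ⟨x, _, _, h0, inv_pos.2 a1, inv_pos.2 a2, solve _ _ _ h0.ne' a1.ne' a2.ne' hP,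
    by rw [inv_inv]; ring, by rw [inv_inv]; ring, h1.trans (one_le_inv_iff₀.2 ⟨h0, h1⟩)⟩

theorem trichotomy (E : ℝ) :
    (∃ x y r : ℂ, x.im < 0 ∧ y.im < 0 ∧ r.im < 0 ∧ x⁻¹ + x + r = E ∧ y⁻¹ + 2 * x = E ∧
      r⁻¹ + 2 * y = ((E - 1 / 4 : ℝ) : ℂ)) ∨
    ∃ σ : ℝ, (σ = 1 ∨ σ = -1) ∧ ∃ x y r : ℝ, 0 < x ∧ 0 < y ∧ 0 < r ∧ x⁻¹ + x + r = σ * E ∧
      y⁻¹ + 2 * x = σ * E ∧ r⁻¹ + 2 * y = σ * (E - 1 / 4) ∧ x ≤ x⁻¹ := by
  by_cases hu : E - 1 / 4 = 0
  · left
    have hE : E = 1 / 4 := by linarith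
    have hs : (√503 : ℝ) ^ 2 = 503 := Real.sq_sqrt (by norm_num)
    have hs' : ((√503 : ℝ) : ℂ) ^ 2 = 503 := by exact_mod_cast hs
    refine cplx _ _ ((3 - (√503 : ℝ) * Complex.I) / 32) ?_ ?_
    · have : (0 : ℝ) < √503 := Real.sqrt_pos.2 (by norm_num)
      simp
      linarith
    · rw [hu, hE]
      unfold P
      push_cast
      linear_combination (Complex.I ^ 2 / 256) * hs' + (503 / 256 : ℂ) * Complex.I_sq
  rcases roots _ E hu with ⟨x, hx, hP⟩ | ⟨a, b, c, h1, h2, h3⟩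
  · exact Or.inl (cplx _ _ x hx hP)
  right
  by_cases t1 : 23 / 8 ≤ E
  · have k1 : 2 ≤ E - 1 / 4 := by linarith
    have k2 : 2 < (E - 1 / 4) * (E - 2) := by nlinarith
    obtain ⟨x, x0, x1, hP⟩ := posroot _ _ a b c k1 k2 h1 h2 h3
    exact ⟨1, Or.inl rfl, by simpa only [one_mul] using real _ _ x k1 k2 x0 x1 hP⟩
  by_cases t2 : E ≤ -11 / 4
  · have k1 : 2 ≤ -(E - 1 / 4) := by linarith
    have k2 : 2 < -(E - 1 / 4) * (-E - 2) := by nlinarith
    obtain ⟨x, x0, x1, hP⟩ := posroot _ _ (-a) (-b) (-c) k1 k2 (by linear_combination h1)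
      (by linear_combination -h2) (by linear_combination h3)
    exact ⟨-1, Or.inr rfl, by simpa only [neg_one_mul] using real _ _ x k1 k2 x0 x1 hP⟩
  exfalso
  have hd : dsc E = (2 * (E - 1 / 4)) ^ 4 * ((a - b) * (a - c) * (b - c)) ^ 2 := by
    rw [dsc, h1, h2, h3, dd]; ring
  have h0 : 0 ≤ dsc E := by rw [hd]; positivity
  rcases le_total E (-9 / 8) with s1 | s1
  · linarith [disc0 E (by linarith) s1]
  rcases le_total E (13 / 8) with s2 | s2
  · linarith [disc1 E s1 s2]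
  rcases le_total E (21 / 8) with s3 | s3
  · linarith [disc2 E s2 s3]
  · linarith [disc3 E s3 (by linarith)]

end Pool.Agent.Lib.helper33.BorgAlg
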