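import Mathlib

set_option autoImplicit false
open Finset

namespace Pool.Agent.Lib.helper33.BorgTree

abbrev K := Fin 4
abbrev J := Fin 3
def step (k : K) (j : J) : K := ![![1, 2, 3], ![0, 3, 2], ![3, 0, 1], ![2, 1, 0]] k j
abbrev D := K × J
def rev (d : D) : D := (step d.1 d.2, d.2)

lemma step_step : ∀ k j, step (step k j) j = k := by decide
lemma step_ne : ∀ k j, step k j ≠ k := by decide
lemma step_inj : ∀ k i j, step k i = step k j → i = j := by decide

def SS : Set (List D) := {l | (∀ d ∈ l.head?, d.1 = 1) ∧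
  ∀ (i : ℕ) (d e : D), l[i]? = some d → l[i+1]? = some e → (e.1 = (rev d).1 ∧ e ≠ rev d)}

def en (l : List D) : K := (l.getLast?.map (fun d => (rev d).1)).getD 1
def pa (l : List D) : Option J := l.getLast?.map Prod.snd

lemma mem_iff (l : List D) : l ∈ SS ↔ (∀ d ∈ l.head?, d.1 = 1) ∧
    l.IsChain (fun d e => e.1 = (rev d).1 ∧ e ≠ rev d) := by
  rw [List.isChain_iff_getElem]
  refine and_congr_right fun _ => ⟨fun h i hi => h i _ _ (List.getElem?_eq_getElem _)
    (List.getElem?_eq_getElem _), fun h i d e hd he => ?_⟩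
  obtain ⟨h1, rfl⟩ := List.getElem?_eq_some_iff.1 hd
  obtain ⟨h2, rfl⟩ := List.getElem?_eq_some_iff.1 he
  exact h i h2

lemma mem_concat (l : List D) (d : D) :
    l ++ [d] ∈ SS ↔ l ∈ SS ∧ d.1 = en l ∧ pa l ≠ some d.2 := by
  rw [mem_iff, mem_iff, List.isChain_append]
  rcases List.eq_nil_or_concat' l with rfl | ⟨l, a, rfl⟩
  · simp [en, pa]
  · have : (l ++ [a] ++ [d]).head? = (l ++ [a]).head? := by cases l <;> rfl
    rw [this]
    have e : (d.1 = (rev a).1 ∧ d ≠ rev a) ↔ (d.1 = (rev a).1 ∧ ¬ a.2 = d.2) :=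
      and_congr_right fun h => not_congr ⟨fun h' => by rw [h']; rfl,
        fun h' => Prod.ext h h'.symm⟩
    simp only [en, pa, List.getLast?_concat, Option.map_some, Option.getD_some,
      List.isChain_singleton, Option.mem_def, Option.some.injEq, forall_eq', List.head?_cons,
      true_and, e, and_assoc, ne_eq]

def root : SS := ⟨[], by simp [mem_iff]⟩
def lab (x : SS) : K := en x.1
def par (x : SS) : Option J := pa x.1
def lev (x : SS) : ℕ := x.1.length

lemma drop_mem (x : SS) : x.1.dropLast ∈ SS := by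
  obtain ⟨l, hl⟩ := x
  rcases List.eq_nil_or_concat' l with rfl | ⟨l, a, rfl⟩
  · exact hl
  · simpa using ((mem_concat _ _).1 hl).1

def m (j : J) (x : SS) : SS :=
  if h : par x = some j then ⟨x.1.dropLast, drop_mem x⟩
  else ⟨x.1 ++ [(lab x, j)], (mem_concat _ _).2 ⟨x.2, rfl, h⟩⟩

lemma m_down {j : J} {x : SS} (h : par x ≠ some j) : (m j x).1 = x.1 ++ [(lab x, j)] := by
  rw [m, dif_neg h]

lemma m_up {j : J} {x : SS} (h : par x = some j) : (m j x).1 = x.1.dropLast := by
  rw [m, dif_pos h]

lemma par_down {j : J} {x : SS} (h : par x ≠ some j) : par (m j x) = some j := by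
  rw [par, m_down h]; simp [pa]

lemma lab_down {j : J} {x : SS} (h : par x ≠ some j) : lab (m j x) = step (lab x) j := by
  rw [lab, m_down h]; simp [en, rev]

lemma lev_down {j : J} {x : SS} (h : par x ≠ some j) : lev (m j x) = lev x + 1 := by
  rw [lev, m_down h]; simp [lev]

lemma mm_down {j : J} {x : SS} (h : par x ≠ some j) : m j (m j x) = x :=
  Subtype.ext (by rw [m_up (par_down h), m_down h]; simp)

lemma cases_on (x : SS) : x = root ∨ ∃ y j, par y ≠ some j ∧ x = m j y := by
  obtain ⟨l, hl⟩ := x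
  rcases List.eq_nil_or_concat' l with rfl | ⟨l, a, rfl⟩
  · exact Or.inl rfl
  · obtain ⟨h1, h2, h3⟩ := (mem_concat _ _).1 hl
    refine Or.inr ⟨⟨l, h1⟩, a.2, h3, Subtype.ext ?_⟩
    rw [m_down (x := ⟨l, h1⟩) h3, lab, ← h2]

lemma par_root : par root = none := rfl
lemma lab_root : lab root = 1 := rfl
lemma lev_root : lev root = 0 := rfl

lemma up {j : J} {x : SS} (h : par x = some j) : par (m j x) ≠ some j ∧ m j (m j x) = x := by
  rcases cases_on x with rfl | ⟨y, i, hy, rfl⟩
  · simp [par_root] at h
  · rw [par_down hy] at h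
    obtain rfl : i = j := by simpa using h
    rw [mm_down hy]
    exact ⟨hy, rfl⟩

lemma mm (j : J) (x : SS) : m j (m j x) = x := by
  by_cases h : par x = some j
  · exact (up h).2
  · exact mm_down h

lemma lab_m (j : J) (x : SS) : lab (m j x) = step (lab x) j := by
  by_cases h : par x = some j
  · have := lab_down (up h).1
    rw [mm] at this
    rw [this, step_step]
  · exact lab_down h

lemma lev_up {j : J} {x : SS} (h : par x = some j) : lev x = lev (m j x) + 1 := by
  have := lev_down (up h).1
  rwa [mm] at this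

lemma ind (P : SS → Prop) (h0 : P root) (h : ∀ x j, par x ≠ some j → P x → P (m j x)) (x : SS) :
    P x := by
  induction hn : lev x generalizing x with
  | zero =>
    rcases cases_on x with rfl | ⟨y, i, hy, rfl⟩
    · exact h0
    · rw [lev_down hy] at hn; omega
  | succ n ih =>
    rcases cases_on x with rfl | ⟨y, i, hy, rfl⟩
    · exact h0
    · rw [lev_down hy] at hn
      exact h _ _ hy (ih y (by omega))

lemma exists_rec {X : Type} (x0 : X) (F : D → X → X) : ∃ g : SS → X, g root = x0 ∧
    ∀ x j, par x ≠ some j → g (m j x) = F (lab x, j) (g x) :=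
  ⟨fun x => x.1.foldl (fun a d => F d a) x0, rfl, fun x j h => by simp [m_down h]⟩

def L : ℕ → Finset SS
  | 0 => {root}
  | n + 1 => ((L n ×ˢ univ).filter fun p : SS × J => par p.1 ≠ some p.2).image fun p => m p.2 p.1

lemma mem_L (n : ℕ) (x : SS) : x ∈ L n ↔ lev x = n := by
  induction n generalizing x with
  | zero =>
    simp only [L, mem_singleton]
    refine ⟨fun h => h ▸ rfl, fun h => ?_⟩
    rcases cases_on x with rfl | ⟨y, i, hy, rfl⟩
    · rfl
    · rw [lev_down hy] at h; omega
  | succ n ih =>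
    simp only [L, mem_image, mem_filter, mem_product, mem_univ, and_true, ih, Prod.exists]
    constructor
    · rintro ⟨y, i, ⟨h1, h2⟩, rfl⟩
      rw [lev_down h2, h1]
    · intro h
      rcases cases_on x with rfl | ⟨y, i, hy, rfl⟩
      · simp [lev_root] at h
      · rw [lev_down hy] at h
        exact ⟨y, i, ⟨by omega, hy⟩, rfl⟩

lemma sum_L (n : ℕ) (F : SS → ℝ) : ∑ w ∈ L (n + 1), F w =
    ∑ v ∈ L n, ∑ j, if par v = some j then 0 else F (m j v) := by
  rw [L, sum_image, sum_filter, sum_product]
  · simp only [ite_not]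
  · rintro ⟨x, i⟩ h1 ⟨y, j⟩ h2 h
    simp only [coe_filter, Set.mem_ofPred_eq] at h1 h2 h
    have := par_down h1.2
    rw [h, par_down h2.2] at this
    obtain rfl : j = i := by simpa using this
    have := congrArg (m j) h
    rw [mm, mm] at this
    rw [this]

/-- maps commuting with all moves -/
lemma exists_equi (w : SS) : ∃ g : SS → SS, g root = w ∧ ∀ j x, g (m j x) = m j (g x) := by
  obtain ⟨g, h0, h⟩ := exists_rec w (fun d a => m d.2 a)
  refine ⟨g, h0, fun j x => ?_⟩
  by_cases hp : par x = some j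
  · have := h _ _ (up hp).1
    rw [mm] at this
    rw [this, mm]
  · exact h _ _ hp

lemma equi_ext {g g' : SS → SS} (h : ∀ j x, g (m j x) = m j (g x))
    (h' : ∀ j x, g' (m j x) = m j (g' x)) (v : SS) (hv : g v = g' v) : g = g' := by
  have : g root = g' root := by
    revert hv
    refine ind (fun v => g v = g' v → g root = g' root) id (fun x j _ ih e => ih ?_) v
    have := congrArg (m j) e
    rwa [h, h', mm, mm] at this
  exact funext (ind _ this fun x j _ e => by rw [h, h', e])

lemma exists_equiv (w : SS) : ∃ g : SS ≃ SS, g root = w ∧ ∀ j x, g (m j x) = m j (g x) := by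
  refine ind (fun w => ∃ g : SS ≃ SS, g root = w ∧ ∀ j x, g (m j x) = m j (g x))
    ⟨Equiv.refl _, rfl, fun _ _ => rfl⟩ (fun x j _ ⟨g, h0, h⟩ => ?_) w
  obtain ⟨s, s0, hs⟩ := exists_equi (m j root)
  have : s ∘ s = id := equi_ext (fun i y => by simp [hs]) (fun _ _ => rfl) root (by
    simp [s0, hs, mm])
  have inv : Function.Involutive s := fun y => congrFun this y
  exact ⟨inv.toPerm.trans g, by simp [s0, h, h0], fun i y => by simp [hs, h]⟩

def T : SimpleGraph SS where
  Adj x y := ∃ j, y = m j x
  symm := ⟨fun x y ⟨j, h⟩ => ⟨j, by rw [h, mm]⟩⟩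
  loopless := ⟨fun x ⟨j, h⟩ => step_ne (lab x) j (by rw [← lab_m, ← h])⟩

lemma m_inj (x : SS) : Function.Injective fun j => m j x := fun i j h =>
  step_inj (lab x) i j (by rw [← lab_m, ← lab_m]; exact congrArg lab h)

noncomputable def nb (x : SS) : J ≃ T.neighborSet x :=
  Equiv.ofBijective (fun j => ⟨m j x, j, rfl⟩)
    ⟨fun _ _ h => m_inj x (congrArg Subtype.val h), fun ⟨_, j, h⟩ => ⟨j, Subtype.ext h.symm⟩⟩

lemma bridge {j : J} {v : SS} (h : par v ≠ some j) : T.IsBridge s(m j v, v) := by
  rw [SimpleGraph.isBridge_iff, SimpleGraph.reachable_iff_reflTransGen]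
  intro hr
  have key : ∀ y, Relation.ReflTransGen (T.deleteEdges {s(m j v, v)}).Adj (m j v) y →
      (m j v).1 <+: y.1 := fun y hy => by
    induction hy with
    | refl => exact List.prefix_rfl
    | @tail b c _ hbc ih =>
      rw [SimpleGraph.deleteEdges_adj] at hbc
      obtain ⟨⟨i, rfl⟩, hne⟩ := hbc
      by_cases hp : par b = some i
      · have e := m_down (up hp).1
        rw [mm] at e
        rw [e, List.prefix_concat_iff] at ih
        refine ih.resolve_left fun h' => hne ?_
        rw [← e] at h'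
        obtain rfl : m j v = b := Subtype.ext h'
        rw [par_down h] at hp
        obtain rfl : j = i := by simpa using hp
        simp [mm]
      · rw [m_down hp]
        exact ih.trans (List.prefix_append _ _)
  have := (key v hr).length_le
  have e := lev_down h
  unfold lev at e
  omega

lemma isTree : T.IsTree := by
  refine ⟨?_, ?_⟩
  · rw [SimpleGraph.connected_iff_exists_forall_reachable]
    exact ⟨root, ind _ (SimpleGraph.Reachable.refl _) fun x j _ h =>
      h.trans (SimpleGraph.Adj.reachable ⟨j, rfl⟩)⟩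
  · rw [SimpleGraph.isAcyclic_iff_forall_adj_isBridge]
    rintro v w ⟨j, rfl⟩
    by_cases hp : par v = some j
    · have := bridge (up hp).1
      rwa [mm] at this
    · rw [Sym2.eq_swap]
      exact bridge hp

end Pool.Agent.Lib.helper33.BorgTree
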