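import Mathlib
import Pool.Agent.Lib.helper33.BorgAlg
import Pool.Agent.Lib.helper33.BorgTree

set_option autoImplicit false
open Finset
open scoped InnerProductSpace

namespace Pool.Agent.Lib.helper33.BorgSpec
open Pool.Agent.Lib.helper33.BorgTree

noncomputable abbrev H2 := lp (fun _ : SS => ℂ) 2

noncomputable def b (k : K) : ℝ := if k = 0 then 1 / 4 else 0

lemma b_le (k : K) : |b k| ≤ 1 := by unfold b; split_ifs <;> norm_num [abs_le]

lemma hs (f : H2) : HasSum (fun v => ‖f v‖ ^ 2) (‖f‖ ^ 2) := by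
  simpa using lp.hasSum_norm (p := 2) (by norm_num) f

def mp (j : J) : SS ≃ SS := Function.Involutive.toPerm (m j) (mm j)

lemma op (φ : SS ≃ SS) (c : SS → ℂ) (hc : ∀ v, ‖c v‖ ≤ 1) :
    ∃ U : H2 →L[ℂ] H2, ∀ f v, U f v = c v * f (φ v) := by
  have h1 : ∀ (f : H2) v, ‖c v * f (φ v)‖ ^ 2 ≤ ‖f (φ v)‖ ^ 2 := fun f v => by
    rw [norm_mul]
    exact pow_le_pow_left₀ (by positivity) (mul_le_of_le_one_left (norm_nonneg _) (hc v)) 2
  have h2 : ∀ f : H2, HasSum (fun v => ‖f (φ v)‖ ^ 2) (‖f‖ ^ 2) := fun f =>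
    φ.hasSum_iff.2 (hs f)
  have h3 : ∀ f : H2, Summable fun v => ‖c v * f (φ v)‖ ^ 2 := fun f =>
    (h2 f).summable.of_nonneg_of_le (fun _ => by positivity) (h1 f)
  let A : H2 →ₗ[ℂ] H2 :=
    { toFun := fun f => ⟨fun v => c v * f (φ v), memℓp_gen (by simpa using h3 f)⟩
      map_add' := fun f g => lp.ext (funext fun v => by
        change c v * (f + g) (φ v) = c v * f (φ v) + c v * g (φ v)
        rw [lp.coeFn_add, Pi.add_apply, mul_add])
      map_smul' := fun a f => lp.ext (funext fun v => by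
        change c v * (a • f) (φ v) = a * (c v * f (φ v))
        rw [lp.coeFn_smul, Pi.smul_apply, smul_eq_mul]; ring) }
  refine ⟨A.mkContinuous 1 fun f => ?_, fun _ _ => rfl⟩
  rw [one_mul]
  exact le_of_sq_le_sq (hasSum_le (h1 f) (hs (A f)) (h2 f)) (norm_nonneg _)

def IsH (H : H2 →L[ℂ] H2) : Prop :=
  ∀ f v, H f v = (b (lab v) : ℂ) * f v + ∑ j, f (m j v)

lemma exists_H : ∃ H, IsH H := by
  choose U hU using fun j => op (mp j) 1 (by simp)
  obtain ⟨M, hM⟩ := op (Equiv.refl _) (fun v => (b (lab v) : ℂ)) fun v => by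
    simpa using b_le _
  refine ⟨M + ∑ j, U j, fun f v => ?_⟩
  rw [add_apply, lp.coeFn_add, Pi.add_apply, hM,
    _root_.sum_apply, lp.coeFn_sum, Finset.sum_apply]
  simp [hU, mp]

lemma form {H : H2 →L[ℂ] H2} (hH : IsH H) (f : H2) : ∃ (A : J → ℂ) (B : ℝ),
    (∀ j, HasSum (fun v => ⟪f (m j v), f v⟫_ℂ) (A j)) ∧
    HasSum (fun v => b (lab v) * ‖f v‖ ^ 2) B ∧ ⟪H f, f⟫_ℂ = B + ∑ j, A j := by
  choose U hU using fun j => op (mp j) 1 (by simp)
  have hA : ∀ j, HasSum (fun v => ⟪f (m j v), f v⟫_ℂ) ⟪U j f, f⟫_ℂ := fun j => by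
    have := lp.hasSum_inner (𝕜 := ℂ) (U j f) f
    simp only [hU, Pi.one_apply, one_mul] at this
    exact this
  have hB : Summable fun v => b (lab v) * ‖f v‖ ^ 2 :=
    Summable.of_norm_bounded (hs f).summable fun v => by
      rw [norm_mul, Real.norm_eq_abs, Real.norm_of_nonneg (by positivity)]
      exact mul_le_of_le_one_left (by positivity) (b_le _)
  refine ⟨_, _, hA, hB.hasSum, (lp.hasSum_inner (𝕜 := ℂ) (H f) f).unique ?_⟩
  have := (Complex.hasSum_ofReal.2 hB.hasSum).add (hasSum_sum fun j (_ : j ∈ univ) => hA j)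
  have e : (fun v => ⟪H f v, f v⟫_ℂ) = fun v => ((b (lab v) * ‖f v‖ ^ 2 : ℝ) : ℂ) +
      ∑ j, ⟪f (m j v), f v⟫_ℂ := funext fun v => by
    rw [hH, inner_add_left, sum_inner, ← smul_eq_mul, inner_smul_left, inner_self_eq_norm_sq_to_K,
      Complex.conj_ofReal]
    push_cast
    rfl
  rw [e]
  exact this

lemma im_zero {H : H2 →L[ℂ] H2} (hH : IsH H) (f : H2) : (⟪H f, f⟫_ℂ).im = 0 := by
  obtain ⟨A, B, hA, -, e⟩ := form hH f
  have : ∀ j, (A j).im = 0 := fun j => by
    have h1 : HasSum (fun v => ⟪f (m j (m j v)), f (m j v)⟫_ℂ) (A j) :=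
      (mp j).hasSum_iff.2 (hA j)
    have h2 := Complex.hasSum_conj'.2 h1
    simp only [mm, inner_conj_symm] at h2
    exact Complex.conj_eq_iff_im.1 (h2.unique (hA j))
  rw [e]
  simp [this]

lemma upper {H : H2 →L[ℂ] H2} (hH : IsH H) (σ E : ℝ) (hσ : σ = 1 ∨ σ = -1) (ρ : J → SS → ℝ)
    (h0 : ∀ j v, 0 < ρ j v) (h1 : ∀ j v, ρ j v * ρ j (m j v) = 1)
    (h2 : ∀ v, σ * b (lab v) + ∑ j, ρ j v ≤ E) (f : H2) : σ * (⟪H f, f⟫_ℂ).re ≤ E * ‖f‖ ^ 2 := by
  obtain ⟨A, B, hA, hB, e⟩ := form hH f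
  have hb : ∀ v, -1 ≤ σ * b (lab v) := fun v => by
    have := abs_le.1 (b_le (lab v))
    rcases hσ with rfl | rfl <;> linarith [this.1, this.2]
  have s1 : ∀ j, Summable fun v => ρ j v * ‖f v‖ ^ 2 := fun j =>
    ((hs f).summable.mul_left (E + 1)).of_nonneg_of_le
      (fun v => mul_nonneg (h0 j v).le (by positivity)) fun v => by
        have := single_le_sum (f := fun j => ρ j v) (fun j _ => (h0 j v).le) (mem_univ j)
        exact mul_le_mul_of_nonneg_right (by linarith [hb v, h2 v]) (by positivity)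
  have s2 : ∀ j, σ * (A j).re ≤ ∑' v, ρ j v * ‖f v‖ ^ 2 := fun j => by
    have a1 := (Complex.hasSum_re (hA j)).mul_left σ
    have a2 : HasSum (fun v => ρ j (m j v) * ‖f (m j v)‖ ^ 2) (∑' v, ρ j v * ‖f v‖ ^ 2) :=
      (mp j).hasSum_iff.2 (s1 j).hasSum
    have a3 := hasSum_le (fun v => ?_) (a1.mul_left 2) ((s1 j).hasSum.add a2)
    · linarith
    have b1 : σ * (⟪f (m j v), f v⟫_ℂ).re ≤ ‖f (m j v)‖ * ‖f v‖ := by
      have := abs_le.1 ((Complex.abs_re_le_norm _).trans (norm_inner_le_norm (𝕜 := ℂ)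
        (f (m j v)) (f v)))
      rcases hσ with rfl | rfl <;> linarith [this.1, this.2]
    have b2 := mul_nonneg (h0 j (m j v)).le (sq_nonneg (ρ j v * ‖f v‖ - ‖f (m j v)‖))
    have b3 : ρ j (m j v) * (ρ j v * ‖f v‖ - ‖f (m j v)‖) ^ 2 = ρ j v * ‖f v‖ ^ 2 +
        ρ j (m j v) * ‖f (m j v)‖ ^ 2 - 2 * (‖f (m j v)‖ * ‖f v‖) := by
      linear_combination (ρ j v * ‖f v‖ ^ 2 - 2 * ‖f (m j v)‖ * ‖f v‖) * h1 j v
    linarith
  have s3 := hasSum_le (fun v => ?_)
    ((hB.mul_left σ).add (hasSum_sum fun j (_ : j ∈ univ) => (s1 j).hasSum)) ((hs f).mul_left E)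
  · rw [e, Complex.add_re, Complex.ofReal_re, Complex.re_sum, mul_add, mul_sum]
    linarith [sum_le_sum fun j (_ : j ∈ univ) => s2 j]
  · rw [← sum_mul, ← mul_assoc, ← add_mul]
    exact mul_le_mul_of_nonneg_right (h2 v) (by positivity)

lemma notMem {H : H2 →L[ℂ] H2} (z : ℂ) (c : ℝ) (hc : 0 < c)
    (h : ∀ f : H2, ‖f‖ ^ 2 * c ≤ ‖(starRingEnd ℂ) z * (‖f‖ ^ 2 : ℝ) - ⟪H f, f⟫_ℂ‖) :
    z ∉ spectrum ℂ H := by
  rw [spectrum.notMem_iff]
  refine ContinuousLinearMap.isUnit_of_forall_le_norm_inner_map _ (c := ⟨c, hc.le⟩) hc fun f => ?_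
  rw [Algebra.algebraMap_eq_smul_one, sub_apply, smul_apply, one_apply_eq_self, inner_sub_left,
    inner_smul_left, inner_self_eq_norm_sq_to_K]
  exact_mod_cast h f

lemma spec_real {H : H2 →L[ℂ] H2} (hH : IsH H) {z : ℂ} (hz : z ∈ spectrum ℂ H) : z.im = 0 := by
  by_contra h
  refine notMem z |z.im| (abs_pos.2 h) (fun f => le_trans (le_of_eq ?_)
    (Complex.abs_im_le_norm _)) hz
  rw [Complex.sub_im, im_zero hH, Complex.im_mul_ofReal, Complex.conj_im, sub_zero, abs_mul,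
    abs_neg, abs_of_nonneg (sq_nonneg ‖f‖), mul_comm]

lemma spec_le {H : H2 →L[ℂ] H2} (σ E : ℝ) (hσ : σ = 1 ∨ σ = -1)
    (h : ∀ f : H2, σ * (⟪H f, f⟫_ℂ).re ≤ E * ‖f‖ ^ 2) {t : ℝ} (ht : (t : ℂ) ∈ spectrum ℂ H) :
    σ * t ≤ E := by
  by_contra hn
  refine notMem t (σ * t - E) (by linarith) (fun f => le_trans ?_ (Complex.abs_re_le_norm _)) ht
  rw [Complex.sub_re, Complex.re_mul_ofReal, Complex.conj_re, Complex.ofReal_re]
  have := h f
  rcases hσ with rfl | rfl
  · exact le_trans (by linarith) (le_abs_self _)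
  · exact le_trans (by linarith) (neg_le_abs _)

def rho {F : Type} [Field F] (γ : K → J → F) (j : J) (v : SS) : F :=
  if par v = some j then (γ (lab v) j)⁻¹ else γ (step (lab v) j) j

lemma rho_mul {F : Type} [Field F] (γ : K → J → F) (h : ∀ k j, γ k j ≠ 0) (j : J) (v : SS) :
    rho γ j v * rho γ j (m j v) = 1 := by
  unfold rho
  by_cases hp : par v = some j
  · rw [if_pos hp, if_neg (up hp).1, lab_m, step_step, inv_mul_cancel₀ (h _ _)]
  · rw [if_neg hp, if_pos (par_down hp), lab_m, mul_inv_cancel₀ (h _ _)]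

lemma par_some {n : ℕ} {v : SS} (h : lev v = n + 1) : ∃ j, par v = some j := by
  rcases cases_on v with rfl | ⟨y, i, hy, rfl⟩
  · simp [lev_root] at h
  · exact ⟨i, par_down hy⟩

lemma sum_rho {F : Type} [Field F] (γ : K → J → F) {v : SS} {j : J} (h : par v = some j) :
    ∑ i, rho γ i v = ∑ i, if i = j then (γ (lab v) j)⁻¹ else γ (step (lab v) i) i :=
  sum_congr rfl fun i _ => by
    unfold rho
    by_cases e : i = j
    · rw [e, if_pos h, if_pos rfl]
    · rw [if_neg e, if_neg (by rw [h]; simpa using Ne.symm e)]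

lemma weyl {H : H2 →L[ℂ] H2} (hH : IsH H) (E : ℝ) (γ : K → J → ℂ) (hγ : ∀ k j, (γ k j).im < 0)
    (he : ∀ k j, (∑ i, if i = j then (γ k j)⁻¹ else γ (step k i) i) + b k = E) :
    (E : ℂ) ∈ spectrum ℂ H := by
  classical
  have g0 : ∀ k j, γ k j ≠ 0 := fun k j h => by simpa [h] using hγ k j
  obtain ⟨f, f0, hf⟩ := exists_rec (1 : ℂ) fun d a => γ (step d.1 d.2) d.2 * a
  have fm : ∀ j v, f (m j v) = rho γ j v * f v := fun j v => by
    unfold rho
    by_cases hp : par v = some j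
    · have := hf _ _ (up hp).1
      rw [mm, lab_m, step_step] at this
      rw [if_pos hp, this, inv_mul_cancel_left₀ (g0 _ _)]
    · rw [if_neg hp, hf _ _ hp]
  let t : K → J → ℝ := fun k j => ((γ k j)⁻¹).im
  have tn : ∀ k j, t k j * ‖γ k j‖ ^ 2 = -(γ k j).im := fun k j => by
    simp only [t]
    rw [Complex.inv_im, ← Complex.normSq_eq_norm_sq,
      div_mul_cancel₀ _ (Complex.normSq_pos.2 (g0 k j)).ne']
  have tp : ∀ k j, 0 < t k j := fun k j => by
    have := tn k j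
    by_contra hn
    have := mul_nonpos_of_nonpos_of_nonneg (not_lt.1 hn) (sq_nonneg ‖γ k j‖)
    linarith [hγ k j]
  let w : SS → ℝ := fun v => t (lab v) ((par v).getD 0) * ‖f v‖ ^ 2
  have wm : ∀ j v, par v ≠ some j → w (m j v) = -(γ (step (lab v) j) j).im * ‖f v‖ ^ 2 :=
    fun j v hp => by
      simp only [w]
      rw [par_down hp, lab_m, hf _ _ hp, norm_mul, mul_pow, ← mul_assoc, Option.getD_some, tn]
  have W : ∀ n, ∑ v ∈ L (n + 2), w v = ∑ v ∈ L (n + 1), w v := fun n => by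
    rw [sum_L]
    refine sum_congr rfl fun v hv => ?_
    obtain ⟨j, hj⟩ := par_some ((mem_L _ _).1 hv)
    have e := congrArg Complex.im (he (lab v) j)
    rw [Complex.add_im, Complex.ofReal_im, Complex.ofReal_im, add_zero, Complex.im_sum] at e
    have e2 : ∀ i, (if par v = some i then 0 else w (m i v)) = (if i = j then w v else 0) -
        (if i = j then (γ (lab v) j)⁻¹ else γ (step (lab v) i) i).im * ‖f v‖ ^ 2 := fun i => by
      by_cases h : i = j
      · rw [h, if_pos hj, if_pos rfl, if_pos rfl]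
        simp only [w, hj, Option.getD_some, t, sub_self]
      · have hp : par v ≠ some i := by rw [hj]; simpa using Ne.symm h
        rw [if_neg hp, if_neg h, if_neg h, wm _ _ hp]
        ring
    rw [sum_congr rfl fun i _ => e2 i, sum_sub_distrib, ← sum_mul, e]
    simp
  obtain ⟨c, hc, W1⟩ : ∃ c, 0 < c ∧ ∀ n, ∑ v ∈ L (n + 1), w v = c := by
    refine ⟨_, ?_, fun n => Nat.rec rfl (fun n ih => (W n).trans ih) n⟩
    rw [sum_L]
    simp only [L, sum_singleton, par_root, reduceCtorEq, if_false]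
    refine sum_pos (fun j _ => ?_) univ_nonempty
    rw [wm _ _ (by simp [par_root]), f0]
    simpa using hγ _ _
  obtain ⟨R, hR⟩ : ∃ R, ∀ p : K × J, t p.1 p.2 + (t p.1 p.2)⁻¹ + ‖γ p.1 p.2‖ +
    ‖(γ p.1 p.2)⁻¹‖ ≤ R := (Finite.bddAbove_range _).imp fun R h p => h ⟨p, rfl⟩
  have R1 : ∀ k j, t k j ≤ R ∧ (t k j)⁻¹ ≤ R ∧ ‖γ k j‖ ≤ R ∧ ‖(γ k j)⁻¹‖ ≤ R := fun k j => by
    have := hR (k, j)
    have := tp k j
    have := inv_pos.2 (tp k j)
    have := norm_nonneg (γ k j)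
    have := norm_nonneg (γ k j)⁻¹
    refine ⟨?_, ?_, ?_, ?_⟩ <;> linarith
  have R0 : 0 < R := (tp 0 0).trans_le (R1 0 0).1
  have Rr : ∀ j v, ‖rho γ j v‖ ≤ R := fun j v => by
    unfold rho
    split_ifs
    exacts [(R1 _ _).2.2.2, (R1 _ _).2.2.1]
  let a : ℕ → ℝ := fun n => ∑ v ∈ L n, ‖f v‖ ^ 2
  have a1 : ∀ n, c ≤ R * a (n + 1) := fun n => by
    rw [← W1 n, mul_sum]
    exact sum_le_sum fun v _ => mul_le_mul_of_nonneg_right (R1 _ _).1 (by positivity)
  have a2 : ∀ n, a (n + 1) ≤ R * c := fun n => by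
    rw [← W1 n, mul_sum]
    refine sum_le_sum fun v _ => ?_
    simp only [w]
    rw [← mul_assoc]
    refine le_mul_of_one_le_left (by positivity) ?_
    rw [← inv_mul_cancel₀ (tp (lab v) ((par v).getD 0)).ne']
    exact mul_le_mul_of_nonneg_right (R1 _ _).2.1 (tp _ _).le
  have a0 : a 0 = 1 := by simp [a, L, f0]
  by_contra hn
  obtain ⟨u, hu⟩ := spectrum.notMem_iff.1 hn
  obtain ⟨C, hC⟩ : ∃ C : ℝ, ∀ g : H2, ‖g‖ ≤ C * ‖(u : H2 →L[ℂ] H2) g‖ :=
    ⟨‖((u⁻¹ : (H2 →L[ℂ] H2)ˣ) : H2 →L[ℂ] H2)‖, fun g => by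
      refine le_trans (le_of_eq ?_) (ContinuousLinearMap.le_opNorm _ _)
      exact congrArg (fun A : H2 →L[ℂ] H2 => ‖A g‖) u.inv_mul.symm⟩
  have key : ∀ N : ℕ, (N + 1) * c ≤ R * (C ^ 2 * ((|E| + 1 + 3 * R) ^ 2 * (1 + 2 * (R * c)))) := by
    intro N
    let B := (range (N + 2)).biUnion L
    let g : H2 := ∑ v ∈ B, lp.single 2 v (f v)
    have gv : ∀ v, g v = if lev v ≤ N + 1 then f v else 0 := fun v => by
      simp only [g, lp.coeFn_single, lp.coeFn_sum, Finset.sum_apply, Finset.sum_pi_single]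
      simp [B, mem_L, Nat.lt_succ_iff]
    have gn : ‖g‖ ^ 2 = ∑ n ∈ range (N + 2), a n := by
      have := lp.norm_sum_single (p := 2) (E := fun _ : SS => ℂ) (by norm_num) f B
      simp only [ENNReal.toReal_ofNat, Real.rpow_ofNat] at this
      rw [this, sum_biUnion]
      intro i _ j _ hij
      exact disjoint_left.2 fun v h1 h2 => hij (((mem_L _ _).1 h1).symm.trans ((mem_L _ _).1 h2))
    have g1 : (N + 1) * c ≤ R * ‖g‖ ^ 2 := by
      rw [gn, sum_range_succ', mul_add, mul_sum]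
      have := sum_le_sum fun n (_ : n ∈ range (N + 1)) => a1 n
      rw [sum_const, card_range, nsmul_eq_mul] at this
      push_cast at this
      rw [a0]
      linarith
    have ug : ∀ v, (u : H2 →L[ℂ] H2) g v = (E - b (lab v)) * g v - ∑ j, g (m j v) := fun v => by
      rw [hu, Algebra.algebraMap_eq_smul_one, sub_apply, smul_apply, one_apply_eq_self,
        lp.coeFn_sub, Pi.sub_apply, lp.coeFn_smul, Pi.smul_apply, hH, smul_eq_mul]
      ring
    have gl : ∀ v, ‖g v‖ ≤ ‖f v‖ := fun v => by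
      rw [gv]; split_ifs <;> simp
    have u1 : ∀ v, ‖(u : H2 →L[ℂ] H2) g v‖ ≤ (|E| + 1 + 3 * R) * ‖f v‖ := fun v => by
      rw [ug]
      have c1 : ‖((E : ℂ) - b (lab v)) * g v‖ ≤ (|E| + 1) * ‖f v‖ := by
        rw [norm_mul]
        refine mul_le_mul ((norm_sub_le _ _).trans ?_) (gl v) (norm_nonneg _) (by positivity)
        simpa using b_le _
      have c2 : ‖∑ j, g (m j v)‖ ≤ ∑ _j : J, R * ‖f v‖ := norm_sum_le_of_le _ fun j _ =>
        (gl _).trans (by
          rw [fm, norm_mul]; exact mul_le_mul_of_nonneg_right (Rr _ _) (norm_nonneg _))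
      simp only [sum_const, card_univ, Fintype.card_fin, nsmul_eq_mul, Nat.cast_ofNat] at c2
      linarith [norm_sub_le (((E : ℂ) - b (lab v)) * g v) (∑ j, g (m j v))]
    have lv : ∀ j v, lev (m j v) ≤ lev v + 1 ∧ lev v ≤ lev (m j v) + 1 := fun j v => by
      by_cases hp : par v = some j
      · have := lev_up hp; omega
      · have := lev_down hp; omega
    have u2 : ∀ v ∉ L 0 ∪ L (N + 1) ∪ L (N + 2), (u : H2 →L[ℂ] H2) g v = 0 := fun v hv => by
      simp only [mem_union, mem_L] at hv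
      rw [ug]
      by_cases h : lev v ≤ N
      · obtain ⟨j, hj⟩ := par_some (v := v) (n := lev v - 1) (by omega)
        rw [gv, if_pos (by omega), sum_congr rfl fun i _ => (gv (m i v)).trans
          ((if_pos (by have := lv i v; omega)).trans (fm i v)), ← sum_mul, sum_rho γ hj,
          ← he (lab v) j]
        ring
      · rw [gv, if_neg (by omega), sum_congr rfl fun i _ => (gv (m i v)).trans
          (if_neg (by have := lv i v; omega))]
        simp
    have u3 : ‖(u : H2 →L[ℂ] H2) g‖ ^ 2 ≤ (|E| + 1 + 3 * R) ^ 2 * (1 + 2 * (R * c)) := by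
      rw [(hs _).unique (hasSum_sum_of_ne_finset_zero (s := L 0 ∪ L (N + 1) ∪ L (N + 2))
        fun v hv => by rw [u2 v hv]; simp)]
      refine (sum_le_sum (g := fun v => (|E| + 1 + 3 * R) ^ 2 * ‖f v‖ ^ 2) fun v _ => ?_).trans ?_
      · rw [← mul_pow]
        exact pow_le_pow_left₀ (norm_nonneg _) (u1 v) 2
      · rw [← mul_sum]
        refine mul_le_mul_of_nonneg_left ?_ (by positivity)
        have d : ∀ s t : Finset SS, ∑ v ∈ s ∪ t, ‖f v‖ ^ 2 ≤ ∑ v ∈ s, ‖f v‖ ^ 2 +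
            ∑ v ∈ t, ‖f v‖ ^ 2 := fun s t => by
          rw [← sum_union_inter]
          exact le_add_of_nonneg_right (by positivity)
        linarith [a2 N, a2 (N + 1), a0, d (L 0 ∪ L (N + 1)) (L (N + 2)), d (L 0) (L (N + 1))]
    have u4 := pow_le_pow_left₀ (norm_nonneg _) (hC g) 2
    rw [mul_pow] at u4
    refine g1.trans (mul_le_mul_of_nonneg_left (u4.trans ?_) R0.le)
    exact mul_le_mul_of_nonneg_left u3 (by positivity)
  obtain ⟨N, hN⟩ := exists_nat_gt
    (R * (C ^ 2 * ((|E| + 1 + 3 * R) ^ 2 * (1 + 2 * (R * c)))) / c)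
  rw [div_lt_iff₀ hc] at hN
  linarith [key N]

def gam {F : Type} (x y r : F) (k : K) (j : J) : F :=
  if k = 0 then r else if step k j = 0 then y else x

lemma gam_sum {F : Type} [Field F] (x y r : F) (k : K) (j : J) :
    (∑ i, if i = j then (gam x y r k j)⁻¹ else gam x y r (step k i) i) =
      if k = 0 then r⁻¹ + 2 * y else if step k j = 0 then y⁻¹ + 2 * x else x⁻¹ + x + r := by
  fin_cases k <;> fin_cases j <;> simp [Fin.sum_univ_three, gam, step] <;> ring

theorem preconnected {H : H2 →L[ℂ] H2} (hH : IsH H) : IsPreconnected (spectrum ℂ H) := by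
  have e : spectrum ℂ H = Complex.ofReal '' {t : ℝ | (t : ℂ) ∈ spectrum ℂ H} := by
    refine Set.Subset.antisymm (fun z hz => ?_) (by rintro _ ⟨t, ht, rfl⟩; exact ht)
    have := spec_real hH hz
    lift z to ℝ using this
    exact ⟨z, hz, rfl⟩
  rw [e]
  refine (Set.OrdConnected.isPreconnected ⟨fun s hs t ht E hE => ?_⟩).image _
    Complex.continuous_ofReal.continuousOn
  rcases BorgAlg.trichotomy E with ⟨x, y, r, h1, h2, h3, e1, e2, e3⟩ |
    ⟨σ, hσ, x, y, r, h1, h2, h3, e1, e2, e3, h4⟩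
  · refine weyl hH E (gam x y r) (fun k j => by unfold gam; split_ifs <;> assumption) fun k j => ?_
    rw [gam_sum, b]
    split_ifs
    · rw [e3]; push_cast; ring
    · simpa using e2
    · simpa using e1
  · have gp : ∀ k j, 0 < gam x y r k j := fun k j => by unfold gam; split_ifs <;> assumption
    have := upper hH σ (σ * E) hσ (rho (gam x y r)) (fun j v => by
      unfold rho; split_ifs; exacts [inv_pos.2 (gp _ _), gp _ _])
      (rho_mul _ fun k j => (gp k j).ne') fun v => by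
        rcases cases_on v with rfl | ⟨z, i, hz, rfl⟩
        · simp [rho, par_root, lab_root, Fin.sum_univ_three, gam, step, b]
          linarith
        · rw [sum_rho _ (par_down hz), gam_sum, b]
          split_ifs <;> linarith
    rcases hσ with rfl | rfl
    · have := spec_le 1 _ (Or.inl rfl) this ht
      rwa [show E = t by linarith [hE.2]]
    · have := spec_le (-1) _ (Or.inr rfl) this hs
      rwa [show E = s by linarith [hE.1]]

end Pool.Agent.Lib.helper33.BorgSpec
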