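import Mathlib

/-!
Vanishing sums of the numbers `cos (π r / M)` over sets of `r` in `[1, M - 1]`.
-/

open Finset Polynomial

namespace Pool.Agent.Lib.helper33.CosSum

/-- The number `cos (π r / M)`. -/
noncomputable def cs (M r : ℕ) : ℝ := Real.cos (Real.pi * r / M)

/-- Some `m`-subset of `[1, M - 1]` has vanishing cosine sum. -/
def Van (M m : ℕ) : Prop := ∃ S : Finset ℕ, S ⊆ Ico 1 M ∧ S.card = m ∧ ∑ r ∈ S, cs M r = 0

theorem cs_refl (M r : ℕ) (hM : 0 < M) (hr : r ≤ M) : cs M (M - r) = - cs M r := by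
  unfold cs
  have hM' : (M : ℝ) ≠ 0 := by positivity
  rw [Nat.cast_sub hr]
  have : Real.pi * ((M : ℝ) - r) / M = Real.pi - Real.pi * r / M := by field_simp
  rw [this, Real.cos_pi_sub]

theorem cs_refl2 (M r : ℕ) (hM : 0 < M) (hr : r ≤ 2 * M) : cs M (2 * M - r) = cs M r := by
  unfold cs
  have hM' : (M : ℝ) ≠ 0 := by positivity
  rw [Nat.cast_sub hr]
  have : Real.pi * (((2 * M : ℕ) : ℝ) - r) / M = 2 * Real.pi - Real.pi * r / M := by
    push_cast; field_simp
  rw [this, Real.cos_two_pi_sub]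

theorem sum_symm (M : ℕ) (hM : 0 < M) (S : Finset ℕ) (hS : ∀ r ∈ S, r ≤ M ∧ M - r ∈ S) :
    ∑ r ∈ S, cs M r = 0 := by
  have h1 : ∑ r ∈ S, cs M r = ∑ r ∈ S, cs M (M - r) := by
    refine sum_nbij' (fun r => M - r) (fun r => M - r) (fun r hr => (hS r hr).2)
      (fun r hr => (hS r hr).2) ?_ ?_ ?_
    · intro r hr; have := (hS r hr).1; omega
    · intro r hr; have := (hS r hr).1; omega
    · intro r hr; have := (hS r hr).1
      congr 1; omega
  have h2 : ∑ r ∈ S, cs M (M - r) = - ∑ r ∈ S, cs M r := by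
    rw [← sum_neg_distrib]
    exact sum_congr rfl (fun r hr => cs_refl M r hM (hS r hr).1)
  linarith

theorem van_even_left (m n : ℕ) (hm : Even m) : Van (m + n + 1) m := by
  obtain ⟨k, rfl⟩ := hm
  refine ⟨Ico 1 (k + 1) ∪ Ico (k + n + 1) (k + k + n + 1), ?_, ?_, ?_⟩
  · intro r hr
    simp only [mem_union, mem_Ico] at hr ⊢; omega
  · rw [card_union_of_disjoint]
    · simp only [Nat.card_Ico]; omega
    · rw [disjoint_left]; intro r h1 h2
      simp only [mem_Ico] at h1 h2; omega
  · apply sum_symm _ (by omega)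
    intro r hr
    simp only [mem_union, mem_Ico] at hr ⊢; omega

theorem van_even_right (m n : ℕ) (hn : Even n) : Van (m + n + 1) m := by
  obtain ⟨k, rfl⟩ := hn
  refine ⟨Ico (k + 1) (m + k + 1), ?_, ?_, ?_⟩
  · intro r hr
    simp only [mem_Ico] at hr ⊢; omega
  · simp only [Nat.card_Ico]; omega
  · apply sum_symm _ (by omega)
    intro r hr
    simp only [mem_Ico] at hr ⊢; omega

theorem polygon (p q : ℕ) (hp : 1 < p) (hq : 0 < q) :
    ∑ k ∈ range p, cs (p * q) (1 + 2 * q * k) = 0 := by
  have hω := (Complex.isPrimitiveRoot_exp p (by omega)).geom_sum_eq_zero hp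
  have hp' : (p : ℂ) ≠ 0 := by exact_mod_cast (by omega : p ≠ 0)
  have hq' : (q : ℂ) ≠ 0 := by exact_mod_cast (by omega : q ≠ 0)
  have h : ∑ k ∈ range p, Complex.exp (((Real.pi * ((1 + 2 * q * k : ℕ) : ℝ) / ((p * q : ℕ) : ℝ) : ℝ) : ℂ)
      * Complex.I) = 0 := by
    have : ∀ k ∈ range p, Complex.exp (((Real.pi * ((1 + 2 * q * k : ℕ) : ℝ) /
        ((p * q : ℕ) : ℝ) : ℝ) : ℂ) * Complex.I) =
        Complex.exp (Real.pi * Complex.I / (p * q)) *
          Complex.exp (2 * Real.pi * Complex.I / p) ^ k := by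
      intro k _
      rw [← Complex.exp_nat_mul, ← Complex.exp_add]
      congr 1
      push_cast
      field_simp
    rw [sum_congr rfl this, ← mul_sum, hω, mul_zero]
  have h2 := congrArg Complex.re h
  rw [Complex.re_sum] at h2
  simp only [Complex.exp_ofReal_mul_I_re, Complex.zero_re] at h2
  exact h2

theorem van_big (m n : ℕ) (hm : Odd m) (hn : Odd n) (h : (m + n + 1).minFac ≤ min m n) :
    Van (m + n + 1) m := by
  set M := m + n + 1 with hM
  set p := M.minFac with hpdef
  have hm1 := hm.pos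
  have hn1 := hn.pos
  have hpp : p.Prime := Nat.minFac_prime (by omega)
  obtain ⟨q, hq⟩ : p ∣ M := Nat.minFac_dvd M
  have hModd : Odd M := by
    obtain ⟨a, ha⟩ := hm; obtain ⟨b, hb⟩ := hn
    exact ⟨a + b + 1, by omega⟩
  have hpm : p ≤ m := le_trans h (min_le_left _ _)
  have hpn : p ≤ n := le_trans h (min_le_right _ _)
  have hpodd : Odd p := (Nat.odd_mul.mp (hq ▸ hModd)).1
  have hq0 : 0 < q := Nat.pos_of_ne_zero (by rintro rfl; omega)
  have hq1 : q ≠ 1 := by rintro rfl; omega
  have hp1 := hpp.one_lt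
  let fold : ℕ → ℕ := fun k => if 1 + 2 * q * k < M then 1 + 2 * q * k else 2 * M - (1 + 2 * q * k)
  have hlt : ∀ k ∈ range p, 1 + 2 * q * k < 2 * M := by
    intro k hk
    have hk' := mem_range.mp hk
    have : q * (k + 1) ≤ q * p := Nat.mul_le_mul_left _ hk'
    have e : M = q * p := by rw [hq, mul_comm]
    nlinarith
  have hne : ∀ k, 1 + 2 * q * k ≠ M := by
    intro k hk
    have h1 : q ∣ 1 + 2 * q * k := by rw [hk, hq]; exact Dvd.intro_left _ rfl
    have h2 : q ∣ 2 * q * k := ⟨2 * k, by ring⟩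
    exact hq1 (Nat.dvd_one.mp ((Nat.dvd_add_left h2).mp h1))
  have hinj : Set.InjOn fold (range p : Set ℕ) := by
    intro a ha b hb hab
    have ha' := hlt a ha
    have hb' := hlt b hb
    have key : 1 + 2 * q * a + (1 + 2 * q * b) ≠ 2 * M := by
      intro hk
      have h1 : q ∣ 1 + q * (a + b) := by
        have : 1 + q * (a + b) = M := by nlinarith
        rw [this, hq]; exact Dvd.intro_left _ rfl
      have h2 : q ∣ q * (a + b) := Dvd.intro _ rfl
      exact hq1 (Nat.dvd_one.mp ((Nat.dvd_add_left h2).mp h1))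
    have : 2 * q * a = 2 * q * b := by
      simp only [fold] at hab
      split_ifs at hab <;> omega
    exact Nat.eq_of_mul_eq_mul_left (by omega) this
  let T := (range p).image fold
  have hTc : T.card = p := by rw [card_image_of_injOn hinj, card_range]
  have hTs : ∑ r ∈ T, cs M r = 0 := by
    rw [sum_image hinj, ← polygon p q hp1 hq0, ← hq]
    refine sum_congr rfl (fun k hk => ?_)
    simp only [fold]
    split_ifs
    · rfl
    · exact cs_refl2 M _ (by omega) (hlt k hk).le
  let O := (range ((m + n) / 2)).image (fun i => 2 * i + 1)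
  have hOmem : ∀ r, r ∈ O ↔ r % 2 = 1 ∧ r < M := by
    intro r
    obtain ⟨a, ha⟩ := hModd
    simp only [O, mem_image, mem_range]
    constructor
    · rintro ⟨i, hi, rfl⟩; omega
    · rintro ⟨h1, h2⟩; exact ⟨r / 2, by omega, by omega⟩
  have hOc : O.card = (m + n) / 2 := by
    rw [card_image_of_injective _ (fun a b hab => by simpa using hab), card_range]
  have hTO : T ⊆ O := by
    intro r hr
    obtain ⟨k, hk, rfl⟩ := mem_image.mp hr
    have h1 := hlt k hk
    have h2 := hne k
    have h3 : 2 * q * k = 2 * (q * k) := by ring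
    rw [hOmem]
    simp only [fold]
    split_ifs <;> omega
  obtain ⟨U, hU, hUc⟩ : ∃ U ⊆ O \ T, U.card = (m - p) / 2 := by
    apply exists_subset_card_eq
    rw [card_sdiff_of_subset hTO, hOc, hTc]; omega
  have hUO : ∀ r ∈ U, r % 2 = 1 ∧ r < M := fun r hr => (hOmem r).mp (mem_sdiff.mp (hU hr)).1
  let U' := U.image (fun r => M - r)
  have hU'c : U'.card = U.card := by
    apply card_image_of_injOn
    intro a ha b hb hab
    have := hUO a ha; have := hUO b hb
    simp only at hab; omega
  have hU' : ∀ r ∈ U', r % 2 = 0 ∧ 1 ≤ r ∧ r < M := by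
    intro r hr
    obtain ⟨a, ha, rfl⟩ := mem_image.mp hr
    obtain ⟨c, hc⟩ := hModd
    have := hUO a ha; omega
  have hd1 : Disjoint U U' := by
    rw [disjoint_left]; intro r h1 h2
    have := hUO r h1; have := hU' r h2; omega
  have hd2 : Disjoint T (U ∪ U') := by
    rw [disjoint_left]; intro r h1 h2
    rcases mem_union.mp h2 with h2 | h2
    · exact (mem_sdiff.mp (hU h2)).2 h1
    · have := (hOmem r).mp (hTO h1); have := hU' r h2; omega
  refine ⟨T ∪ (U ∪ U'), ?_, ?_, ?_⟩
  · intro r hr
    rw [mem_Ico]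
    rcases mem_union.mp hr with h1 | h1
    · have := (hOmem r).mp (hTO h1); omega
    · rcases mem_union.mp h1 with h2 | h2
      · have := hUO r h2; omega
      · have := hU' r h2; omega
  · rw [card_union_of_disjoint hd2, card_union_of_disjoint hd1, hU'c, hUc, hTc]
    obtain ⟨a, ha⟩ := hm; obtain ⟨b, hb⟩ := hpodd; omega
  · rw [sum_union hd2, hTs, zero_add]
    apply sum_symm _ (by omega)
    intro r hr
    rcases mem_union.mp hr with h2 | h2
    · exact ⟨(hUO r h2).2.le, mem_union_right _ (mem_image_of_mem _ h2)⟩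
    · obtain ⟨a, ha, rfl⟩ := mem_image.mp h2
      have := hUO a ha
      refine ⟨by omega, mem_union_left _ ?_⟩
      have e : M - (M - a) = a := by omega
      rw [e]; exact ha

theorem cyclo_dvd (M : ℕ) (hM : Odd M) (S : Finset ℕ) (hS : S ⊆ Ico 1 M)
    (h0 : ∑ r ∈ S, cs M r = 0) :
    cyclotomic M ℤ ∣ ∑ r ∈ S, (C ((-1) ^ r) * (X ^ r + X ^ (M - r)) : ℤ[X]) := by
  obtain ⟨a, ha⟩ := hM
  have hM0 : M ≠ 0 := by omega
  have hcop : (a + 1).Coprime M := by
    rw [Nat.coprime_iff_gcd_eq_one]
    have h1 : Nat.gcd (a + 1) M ∣ 2 * (a + 1) := Dvd.dvd.mul_left (Nat.gcd_dvd_left _ _) _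
    have h2 : Nat.gcd (a + 1) M ∣ M := Nat.gcd_dvd_right _ _
    have e : 2 * (a + 1) = M + 1 := by omega
    rw [e] at h1
    exact Nat.dvd_one.mp ((Nat.dvd_add_right h2).mp h1)
  have hω := Complex.isPrimitiveRoot_exp_of_coprime (a + 1) M hM0 hcop
  set ω := Complex.exp (2 * Real.pi * Complex.I * (((a + 1 : ℕ) : ℂ) / M)) with hωdef
  rw [cyclotomic_eq_minpoly hω (by omega)]
  apply minpoly.isIntegrallyClosed_dvd (hω.isIntegral (by omega))
  have hMc : (M : ℂ) ≠ 0 := by exact_mod_cast hM0
  set ζ := Complex.exp (Real.pi * Complex.I / M) with hζ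
  have hωζ : ω = - ζ := by
    rw [hωdef, hζ]
    have : 2 * Real.pi * Complex.I * (((a + 1 : ℕ) : ℂ) / M) =
        Real.pi * Complex.I / M + Real.pi * Complex.I := by
      have e : (M : ℂ) = 2 * a + 1 := by rw [ha]; push_cast; ring
      field_simp
      rw [e]; push_cast; ring
    rw [this, Complex.exp_add, Complex.exp_pi_mul_I]; ring
  have hterm : ∀ r ∈ S, aeval ω (C ((-1) ^ r) * (X ^ r + X ^ (M - r)) : ℤ[X]) =
      2 * (cs M r : ℂ) := by
    intro r hr
    have hr' := mem_Ico.mp (hS hr)
    have hω1 : ω ^ (M - r) * ω ^ r = 1 := by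
      rw [← pow_add, Nat.sub_add_cancel hr'.2.le, hω.pow_eq_one]
    have e1 : (-1 : ℂ) ^ r * ω ^ r = Complex.exp ((Real.pi * r / M : ℝ) * Complex.I) := by
      rw [← mul_pow, hωζ, neg_one_mul, neg_neg, hζ, ← Complex.exp_nat_mul]
      congr 1; push_cast; ring
    have e2 : (-1 : ℂ) ^ r * ω ^ (M - r) = Complex.exp (-(Real.pi * r / M : ℝ) * Complex.I) := by
      have hx : Complex.exp ((Real.pi * r / M : ℝ) * Complex.I) ≠ 0 := Complex.exp_ne_zero _
      apply mul_right_cancel₀ hx
      rw [← Complex.exp_add, ← e1]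
      have : (-1 : ℂ) ^ r * (-1) ^ r = 1 := by rw [← mul_pow]; simp
      rw [neg_mul, neg_add_cancel, Complex.exp_zero]
      linear_combination (ω ^ (M - r) * ω ^ r) * this + hω1
    simp only [map_mul, map_add, map_pow, aeval_X, map_neg, map_one]
    rw [mul_add, e1, e2, cs, Complex.ofReal_cos, Complex.two_cos]
  rw [map_sum, sum_congr rfl hterm, ← mul_sum, ← Complex.ofReal_sum, h0]
  simp

theorem not_van (m n : ℕ) (hm : Odd m) (hn : Odd n) (h : min m n < (m + n + 1).minFac) :
    ¬ Van (m + n + 1) m := by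
  classical
  rintro ⟨S, hS, hSc, h0⟩
  set M := m + n + 1 with hM
  set p := M.minFac with hpdef
  have hModd : Odd M := by
    obtain ⟨a, ha⟩ := hm; obtain ⟨b, hb⟩ := hn
    exact ⟨a + b + 1, by omega⟩
  have hdvd := cyclo_dvd M hModd S hS h0
  let K := AlgebraicClosure (ZMod 2)
  have h2 : (2 : K) = 0 := by
    have := CharP.cast_eq_zero K 2
    exact_mod_cast this
  have hMK : (M : K) ≠ 0 := by
    obtain ⟨a, ha⟩ := hModd
    rw [ha, Nat.cast_add, Nat.cast_mul, Nat.cast_ofNat, h2]; simp
  have : NeZero (M : K) := ⟨hMK⟩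
  obtain ⟨η, hη⟩ : ∃ η : K, IsPrimitiveRoot η M := by
    obtain ⟨η, hη⟩ := IsAlgClosed.exists_root (cyclotomic M K) (by
      rw [degree_cyclotomic]
      have := Nat.totient_pos.mpr (show 0 < M by omega)
      exact_mod_cast this.ne')
    exact ⟨η, isRoot_cyclotomic_iff.mp hη⟩
  have hneg : (-1 : K) = 1 := by linear_combination -h2
  have hF : ∀ e : ℕ, e.Coprime M ∨ e = M →
      ∑ r ∈ S, ((η ^ e) ^ r + (η ^ e) ^ (M - r)) = 0 := by
    intro e he
    rcases he with he | he
    · have hp := hη.pow_of_coprime e he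
      obtain ⟨g, hg⟩ := hdvd
      have h1 := congrArg (aeval (η ^ e)) hg
      have h3 : aeval (η ^ e) (cyclotomic M ℤ) = 0 := by
        rw [aeval_def, ← eval_map, map_cyclotomic]
        exact isRoot_cyclotomic_iff.mpr hp
      rw [map_mul, h3, zero_mul, map_sum] at h1
      rw [← h1]
      refine sum_congr rfl (fun r _ => ?_)
      simp only [map_mul, map_add, map_pow, aeval_X, map_neg, map_one, hneg, one_pow,
        one_mul]
    · rw [he, hη.pow_eq_one]
      refine sum_eq_zero (fun r _ => ?_)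
      simp only [one_pow]; linear_combination h2
  let S' := S.image (fun r => M - r)
  have hinjS : Set.InjOn (fun r => M - r) (S : Set ℕ) := by
    intro a ha b hb hab
    have := mem_Ico.mp (hS ha); have := mem_Ico.mp (hS hb)
    simp only at hab; omega
  have hS'c : S'.card = m := by rw [card_image_of_injOn hinjS, hSc]
  have hS' : S' ⊆ Ico 1 M := by
    intro r hr
    obtain ⟨a, ha, rfl⟩ := mem_image.mp hr
    have := mem_Ico.mp (hS ha); rw [mem_Ico]; omega
  let T := (S \ S') ∪ (S' \ S)
  have hT : T ⊆ Ico 1 M := by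
    intro r hr
    rcases mem_union.mp hr with h1 | h1
    · exact hS (mem_sdiff.mp h1).1
    · exact hS' (mem_sdiff.mp h1).1
  have hdis : Disjoint (S \ S') (S' \ S) := disjoint_sdiff_sdiff
  have hG : ∀ x : K, ∑ r ∈ T, x ^ r = ∑ r ∈ S, (x ^ r + x ^ (M - r)) := by
    intro x
    rw [sum_add_distrib, ← sum_image (f := fun r => x ^ r) hinjS, sum_union hdis]
    have e1 := sum_sdiff (f := fun r => x ^ r) (inter_subset_left (s₁ := S) (s₂ := S'))
    have e2 := sum_sdiff (f := fun r => x ^ r) (inter_subset_right (s₁ := S) (s₂ := S'))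
    rw [sdiff_inter_self_left] at e1
    rw [sdiff_inter_self_right] at e2
    rw [← e1, ← e2]
    linear_combination (-∑ r ∈ S ∩ S', x ^ r) * h2
  have hTc : T.card ≤ 2 * min m n := by
    have a1 : (S \ S').card ≤ m := hSc ▸ card_le_card sdiff_subset
    have a2 : (S' \ S).card ≤ m := hS'c ▸ card_le_card sdiff_subset
    have a3 : (S \ S').card ≤ n := by
      have := card_le_card (sdiff_subset_sdiff hS (Subset.refl S'))
      rw [card_sdiff_of_subset hS', Nat.card_Ico, hS'c] at this; omega
    have a4 : (S' \ S).card ≤ n := by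
      have := card_le_card (sdiff_subset_sdiff hS' (Subset.refl S))
      rw [card_sdiff_of_subset hS, Nat.card_Ico, hSc] at this; omega
    rw [card_union_of_disjoint hdis]; omega
  have hTne : T.Nonempty := by
    rw [nonempty_iff_ne_empty]
    intro hTe
    have hsub : S' ⊆ S := by
      intro r hr
      by_contra hc
      have : r ∈ T := mem_union_right _ (mem_sdiff.mpr ⟨hr, hc⟩)
      rw [hTe] at this; simp at this
    have hsum : ∑ _r ∈ S, (1 : ZMod 2) = 0 := by
      refine sum_involution (fun r _ => M - r) (fun _ _ => by decide) ?_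
        (fun r hr => hsub (mem_image_of_mem _ hr)) ?_
      · intro r hr _
        have := mem_Ico.mp (hS hr)
        obtain ⟨a, ha⟩ := hModd
        omega
      · intro r hr
        have := mem_Ico.mp (hS hr)
        omega
    rw [sum_const, hSc] at hsum
    obtain ⟨a, ha⟩ := hm
    rw [ha] at hsum
    have : ((2 * a + 1) • (1 : ZMod 2)) = 1 := by
      rw [nsmul_eq_mul, mul_one]; push_cast
      have : (2 : ZMod 2) = 0 := by decide
      rw [this]; simp
    rw [this] at hsum
    exact absurd hsum (by decide)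
  have hpM : p ≤ M := Nat.minFac_le (by omega)
  let f : Fin T.card → ℕ := fun i => (T.equivFin.symm i : ℕ)
  have hfT : ∀ i, f i ∈ T := fun i => (T.equivFin.symm i).2
  have hfi : Function.Injective (fun i => η ^ f i) := by
    intro i j hij
    have := hη.pow_inj (mem_Ico.mp (hT (hfT i))).2 (mem_Ico.mp (hT (hfT j))).2 hij
    exact T.equivFin.symm.injective (Subtype.ext this)
  have hz := Matrix.eq_zero_of_forall_pow_sum_mul_pow_eq_zero
    (v := fun i => (η ^ f i) ^ (M - (p - 1))) hfi (by
      intro i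
      have hi : (i : ℕ) < 2 * min m n := lt_of_lt_of_le i.2 hTc
      have hcop : (M - (p - 1) + i).Coprime M ∨ M - (p - 1) + i = M := by
        rcases lt_trichotomy (i : ℕ) (p - 1) with h1 | h1 | h1
        · left
          have e : M - (p - 1) + i = M - (p - 1 - i) := by omega
          rw [e, Nat.coprime_self_sub_left (by omega)]
          exact (Nat.coprime_of_lt_minFac (by omega) (by omega)).symm
        · right; omega
        · left
          have e : M - (p - 1) + i = M + (i - (p - 1)) := by omega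
          rw [e, Nat.coprime_self_add_left]
          exact (Nat.coprime_of_lt_minFac (by omega) (by omega)).symm
      have h3 := hF _ hcop
      rw [← hG] at h3
      rw [← h3, ← sum_coe_sort T, ← T.equivFin.symm.sum_comp]
      refine sum_congr rfl (fun j _ => ?_)
      simp only [f]
      rw [← pow_add, ← pow_mul, ← pow_mul, mul_comm])
  obtain ⟨t, ht⟩ := hTne
  have := congrFun hz (T.equivFin ⟨t, ht⟩)
  simp only [Pi.zero_apply] at this
  exact pow_ne_zero _ (pow_ne_zero _ (hη.ne_zero (by omega))) this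

theorem not_van_iff (m n : ℕ) :
    ¬ Van (m + n + 1) m ↔ Odd m ∧ Odd n ∧ min m n < (m + n + 1).minFac := by
  constructor
  · intro h
    have hm : Odd m := by
      by_contra hc; exact h (van_even_left m n (Nat.not_odd_iff_even.mp hc))
    have hn : Odd n := by
      by_contra hc; exact h (van_even_right m n (Nat.not_odd_iff_even.mp hc))
    refine ⟨hm, hn, ?_⟩
    by_contra hc; exact h (van_big m n hm hn (not_lt.mp hc))
  · rintro ⟨hm, hn, h⟩; exact not_van m n hm hn h

end Pool.Agent.Lib.helper33.CosSum
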