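import Mathlib

/-!
Phase coexistence for dominating sets.  A clique `A ⊕ B`, two leaves at each vertex of `A`, and
`m` vertices of degree two, each joined to one vertex of `A` and one vertex of `B`.
A first moment bound over the choice of these neighbours.
-/

set_option linter.unusedSectionVars false

open Finset

namespace Pool.Agent.Lib.helper33.DomPoly

open Classical

section gen

variable {K O : Type} [Fintype K] [Fintype O]

theorem sum_split (f : Finset (K ⊕ O) → ℝ) :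
    ∑ S, f S = ∑ P : Finset K, ∑ Q : Finset O, f (P.disjSum Q) := by
  rw [← Fintype.sum_prod_type']
  exact (Fintype.sum_equiv Finset.sumEquiv.toEquiv.symm _ _ (fun _ => rfl)).symm

theorem sum_cover (h : O → Prop) [DecidablePred h]
    [∀ Q : Finset O, Decidable (∀ o, o ∈ Q ∨ h o)] (x : ℝ) :
    ∑ Q : Finset O, (if ∀ o, o ∈ Q ∨ h o then x ^ Q.card else 0) =
      ∏ o, (x + if h o then 1 else 0) := by
  rw [Fintype.prod_add]
  refine sum_congr rfl fun Q _ => ?_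
  rw [prod_const, Finset.prod_boole]
  have : (∀ o, o ∈ Q ∨ h o) ↔ ∀ o ∈ Qᶜ, h o := by
    simp only [mem_compl]
    exact forall_congr' fun o => by tauto
  simp only [this]
  split_ifs <;> simp

end gen

variable {α β m : ℕ}

abbrev V (α β m : ℕ) := (Fin α ⊕ Fin β) ⊕ ((Fin α × Fin 2) ⊕ Fin m)

def hit (φ : Fin m → Fin α × Fin β) (PA : Finset (Fin α)) (PB : Finset (Fin β)) :
    (Fin α × Fin 2) ⊕ Fin m → Prop
  | Sum.inl p => p.1 ∈ PA
  | Sum.inr c => (φ c).1 ∈ PA ∨ (φ c).2 ∈ PB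

def Out (φ : Fin m → Fin α × Fin β) (S : Finset (V α β m)) : Prop :=
  ∀ o, Sum.inr o ∈ S ∨ hit φ S.toLeft.toLeft S.toLeft.toRight o

noncomputable def Z (φ : Fin m → Fin α × Fin β) (x : ℝ)
    (R : Finset (Fin α) → Finset (Fin β) → Prop) : ℝ :=
  ∑ S : Finset (V α β m), if Out φ S ∧ R S.toLeft.toLeft S.toLeft.toRight then x ^ S.card else 0

noncomputable def cl (φ : Fin m → Fin α × Fin β) (x : ℝ) (PA : Finset (Fin α))
    (PB : Finset (Fin β)) : ℝ :=
  ∏ c, (x + if (φ c).1 ∈ PA ∨ (φ c).2 ∈ PB then 1 else 0)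

theorem leaf (x : ℝ) (PA : Finset (Fin α)) :
    ∏ p : Fin α × Fin 2, (x + if p.1 ∈ PA then 1 else 0) =
      ((1 + x) ^ 2) ^ PA.card * (x ^ 2) ^ (α - PA.card) := by
  rw [Fintype.prod_prod_type]
  have : ∀ a : Fin α, ∏ _i : Fin 2, (x + if a ∈ PA then 1 else 0) =
      if a ∈ PA then (1 + x) ^ 2 else x ^ 2 := by
    intro a
    split_ifs <;> simp [add_comm]
  simp only [this]
  rw [prod_ite, prod_const, prod_const]
  congr 2
  · simp
  · have : univ.filter (fun a => a ∉ PA) = PAᶜ := by ext; simp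
    rw [this, card_compl, Fintype.card_fin]

theorem Z_eq (φ : Fin m → Fin α × Fin β) (x : ℝ) (R : Finset (Fin α) → Finset (Fin β) → Prop) :
    Z φ x R = ∑ PA, ∑ PB, if R PA PB then
      (x * (1 + x) ^ 2) ^ PA.card * (x ^ 2) ^ (α - PA.card) * x ^ PB.card * cl φ x PA PB
      else 0 := by
  rw [Z, sum_split, sum_split]
  refine sum_congr rfl fun PA _ => sum_congr rfl fun PB _ => ?_
  simp only [Out, toLeft_disjSum, toRight_disjSum, inr_mem_disjSum, card_disjSum]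
  by_cases hR : R PA PB
  · simp only [hR, and_true, if_true]
    have : ∀ Q : Finset ((Fin α × Fin 2) ⊕ Fin m),
        (if ∀ o, o ∈ Q ∨ hit φ PA PB o then x ^ (PA.card + PB.card + Q.card) else 0) =
        x ^ (PA.card + PB.card) * (if ∀ o, o ∈ Q ∨ hit φ PA PB o then x ^ Q.card else 0) := by
      intro Q
      split_ifs
      · rw [pow_add]
      · simp
    simp only [this]
    rw [← mul_sum, sum_cover, Fintype.prod_sum_type]
    have e1 := leaf x PA
    have e2 : ∏ p : Fin α × Fin 2, (x + if hit φ PA PB (Sum.inl p) then 1 else 0) =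
        ∏ p : Fin α × Fin 2, (x + if p.1 ∈ PA then 1 else 0) :=
      prod_congr rfl fun p _ => by simp [hit]
    have e3 : ∏ c : Fin m, (x + if hit φ PA PB (Sum.inr c) then 1 else 0) = cl φ x PA PB :=
      prod_congr rfl fun p _ => by simp [hit]
    rw [e2, e3, e1, mul_pow, pow_add]
    ring
  · simp [hR]

theorem sum_cl (x : ℝ) (PA : Finset (Fin α)) (PB : Finset (Fin β)) :
    ∑ φ : Fin m → Fin α × Fin β, cl φ x PA PB =
      ((α * β : ℝ) * (1 + x) - ((α - PA.card : ℕ) : ℝ) * ((β - PB.card : ℕ) : ℝ)) ^ m := by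
  have h := Finset.prod_univ_sum (fun _ : Fin m => (univ : Finset (Fin α × Fin β)))
    (fun _ (p : Fin α × Fin β) => x + if p.1 ∈ PA ∨ p.2 ∈ PB then 1 else 0)
  rw [Fintype.piFinset_univ] at h
  unfold cl
  rw [← h, prod_const, card_univ, Fintype.card_fin]
  congr 1
  have e : ∀ p : Fin α × Fin β, (x + if p.1 ∈ PA ∨ p.2 ∈ PB then 1 else 0) =
      (1 + x) - (if p ∈ PAᶜ ×ˢ PBᶜ then 1 else 0) := by
    intro p
    simp only [mem_product, mem_compl]
    by_cases h1 : p.1 ∈ PA <;> by_cases h2 : p.2 ∈ PB <;> simp [h1, h2, add_comm]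
  simp only [e]
  rw [sum_sub_distrib, sum_const, card_univ, Fintype.card_prod, Fintype.card_fin,
    Fintype.card_fin, sum_boole, filter_mem_eq_inter, univ_inter, card_product, card_compl,
    card_compl, Fintype.card_fin, Fintype.card_fin]
  simp
  ring

theorem sum_cl_le {x y : ℝ} (hx : 0 ≤ x) (hxy : (1 + x) * y ≤ 1) (hα : 0 < α) (hβ : 0 < β)
    (PA : Finset (Fin α)) (PB : Finset (Fin β)) :
    ∑ φ : Fin m → Fin α × Fin β, cl φ x PA PB ≤ (α * β : ℝ) ^ m * (1 + x) ^ m *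
      Real.exp (-(m * y / (α * β) * ((α - PA.card : ℕ) : ℝ))) ^ (β - PB.card) := by
  rw [sum_cl]
  set k : ℝ := ((α - PA.card : ℕ) : ℝ) with hk
  set l : ℝ := ((β - PB.card : ℕ) : ℝ) with hl
  have hα' : (0 : ℝ) < α := by exact_mod_cast hα
  have hβ' : (0 : ℝ) < β := by exact_mod_cast hβ
  have k0 : 0 ≤ k := Nat.cast_nonneg _
  have l0 : 0 ≤ l := Nat.cast_nonneg _
  have k1 : k ≤ α := by rw [hk]; exact_mod_cast Nat.sub_le _ _
  have l1 : l ≤ β := by rw [hl]; exact_mod_cast Nat.sub_le _ _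
  have hkl : k * l ≤ α * β := mul_le_mul k1 l1 l0 hα'.le
  have hp : (0 : ℝ) < α * β := mul_pos hα' hβ'
  have h1 : 0 ≤ (α * β : ℝ) * (1 + x) - k * l := by nlinarith
  have h2 : (α * β : ℝ) * (1 + x) - k * l ≤
      (α * β : ℝ) * (1 + x) * Real.exp (-(y * (k * l) / (α * β))) := by
    have e1 := Real.add_one_le_exp (-(y * (k * l) / (α * β)))
    have e2 : (α * β : ℝ) * (1 + x) * (-(y * (k * l) / (α * β)) + 1) =
        (α * β : ℝ) * (1 + x) - (1 + x) * y * (k * l) := by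
      field_simp
      ring
    have e3 : (1 + x) * y * (k * l) ≤ k * l := by
      have := mul_le_mul_of_nonneg_right hxy (mul_nonneg k0 l0)
      linarith
    have e4 := mul_le_mul_of_nonneg_left e1 (mul_nonneg hp.le (by linarith : (0 : ℝ) ≤ 1 + x))
    linarith
  refine (pow_le_pow_left₀ h1 h2 m).trans (le_of_eq ?_)
  rw [mul_pow, mul_pow, ← Real.exp_nat_mul, ← Real.exp_nat_mul]
  congr 2
  rw [← hl]
  field_simp

theorem sum_Z_le {x y : ℝ} (hx : 0 ≤ x) (hxy : (1 + x) * y ≤ 1) (hα : 0 < α) (hβ : 0 < β)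
    (R : Finset (Fin α) → Prop) :
    ∑ φ : Fin m → Fin α × Fin β, Z φ x (fun PA _ => R PA) ≤ (α * β : ℝ) ^ m * (1 + x) ^ m *
      ∑ PA, if R PA then (x * (1 + x) ^ 2) ^ PA.card * (x ^ 2) ^ (α - PA.card) *
        (x + Real.exp (-(m * y / (α * β) * ((α - PA.card : ℕ) : ℝ)))) ^ β else 0 := by
  simp only [Z_eq]
  rw [sum_comm, mul_sum]
  refine sum_le_sum fun PA _ => ?_
  by_cases hR : R PA
  · simp only [hR, if_true]
    rw [sum_comm]
    have := Fintype.sum_pow_mul_eq_add_pow (Fin β) x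
      (Real.exp (-(m * y / (α * β) * ((α - PA.card : ℕ) : ℝ))))
    rw [Fintype.card_fin] at this
    rw [← this, mul_sum, mul_sum]
    refine sum_le_sum fun PB _ => ?_
    rw [← mul_sum]
    have h := mul_le_mul_of_nonneg_left (sum_cl_le (m := m) hx hxy hα hβ PA PB)
      (show 0 ≤ (x * (1 + x) ^ 2) ^ PA.card * (x ^ 2) ^ (α - PA.card) * x ^ PB.card by positivity)
    refine h.trans (le_of_eq ?_)
    ring
  · simp [hR]

theorem region1 {x y E c : ℝ} {k k0 : ℕ} (hx : 0 ≤ x) (hy : 0 ≤ y) (hxy : (1 + x) * y ≤ 1)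
    (hk0 : 0 < k0) (hk : k ≤ k0) (hE1 : E ≤ 1) (h1 : Real.exp (-(c * k0)) ≤ E)
    (h2 : Real.exp (-(β * y * (1 - E) / k0)) ≤ E) :
    (x + Real.exp (-(c * k))) ^ β ≤ (1 + x) ^ β * E ^ k := by
  have hk0' : (0 : ℝ) < k0 := by exact_mod_cast hk0
  have hk' : (k : ℝ) ≤ k0 := by exact_mod_cast hk
  set t : ℝ := k / k0 with ht
  have t0 : 0 ≤ t := by positivity
  have t1 : t ≤ 1 := (div_le_one hk0').2 hk'
  have hc := convexOn_exp.2 (Set.mem_univ 0) (Set.mem_univ (-(c * k0))) (sub_nonneg.2 t1) t0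
    (by ring)
  have e : (1 - t) • (0 : ℝ) + t • (-(c * k0)) = -(c * k) := by
    simp only [smul_eq_mul, ht]
    field_simp
    ring
  rw [e, Real.exp_zero, smul_eq_mul, smul_eq_mul] at hc
  have a1 : Real.exp (-(c * k)) ≤ 1 - t * (1 - E) := by nlinarith
  have a2 := Real.add_one_le_exp (-(y * (t * (1 - E))))
  have a3 : 0 ≤ t * (1 - E) := mul_nonneg t0 (by linarith)
  have a4 : x + Real.exp (-(c * k)) ≤ (1 + x) * Real.exp (-(y * (t * (1 - E)))) := by
    have b1 := mul_le_mul_of_nonneg_left a2 (by linarith : (0 : ℝ) ≤ 1 + x)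
    have b2 := mul_le_mul_of_nonneg_right hxy a3
    nlinarith
  refine (pow_le_pow_left₀ (by positivity) a4 β).trans ?_
  rw [mul_pow]
  refine mul_le_mul_of_nonneg_left ?_ (by positivity)
  refine le_trans (le_of_eq ?_) (pow_le_pow_left₀ (Real.exp_pos _).le h2 k)
  rw [← Real.exp_nat_mul, ← Real.exp_nat_mul]
  congr 1
  rw [ht]
  field_simp

theorem bound1 {x y E : ℝ} {k0 : ℕ} (hx : 0 ≤ x) (hy : 0 ≤ y) (hxy : (1 + x) * y ≤ 1)
    (hα : 0 < α) (hβ : 0 < β) (hk0 : 0 < k0) (hE0 : 0 ≤ E) (hE1 : E ≤ 1)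
    (h1 : Real.exp (-(m * y / (α * β) * k0)) ≤ E)
    (h2 : Real.exp (-(β * y * (1 - E) / k0)) ≤ E) :
    ∑ φ : Fin m → Fin α × Fin β, Z φ x (fun PA _ => α - PA.card ≤ k0) ≤
      (α * β : ℝ) ^ m * ((1 + x) ^ m * (1 + x) ^ β * (x * (1 + x) ^ 2 + x ^ 2 * E) ^ α) := by
  refine (sum_Z_le hx hxy hα hβ _).trans ?_
  have := Fintype.sum_pow_mul_eq_add_pow (Fin α) (x * (1 + x) ^ 2) (x ^ 2 * E)
  rw [Fintype.card_fin] at this
  rw [← this, mul_assoc, mul_assoc, mul_sum _ _ ((1 + x) ^ β)]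
  refine mul_le_mul_of_nonneg_left (mul_le_mul_of_nonneg_left (sum_le_sum fun PA _ => ?_)
    (by positivity)) (by positivity)
  split_ifs with h
  · have := mul_le_mul_of_nonneg_left (region1 (β := β) hx hy hxy hk0 h hE1 h1 h2)
      (show 0 ≤ (x * (1 + x) ^ 2) ^ PA.card * (x ^ 2) ^ (α - PA.card) by positivity)
    refine this.trans (le_of_eq ?_)
    rw [mul_pow (x ^ 2)]
    ring
  · positivity

theorem bound2 {x y E : ℝ} {k0 : ℕ} (hx : 0 ≤ x) (hy : 0 ≤ y) (hxy : (1 + x) * y ≤ 1)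
    (hα : 0 < α) (hβ : 0 < β) (hE0 : 0 ≤ E)
    (h1 : Real.exp (-(m * y / (α * β) * k0)) ≤ E) :
    ∑ φ : Fin m → Fin α × Fin β, Z φ x (fun PA _ => ¬ α - PA.card ≤ k0) ≤
      (α * β : ℝ) ^ m * ((1 + x) ^ m * (x + E) ^ β * (x * (1 + x) ^ 2 + x ^ 2) ^ α) := by
  refine (sum_Z_le hx hxy hα hβ _).trans ?_
  have := Fintype.sum_pow_mul_eq_add_pow (Fin α) (x * (1 + x) ^ 2) (x ^ 2)
  rw [Fintype.card_fin] at this
  rw [← this, mul_assoc, mul_assoc, mul_sum _ _ ((x + E) ^ β)]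
  refine mul_le_mul_of_nonneg_left (mul_le_mul_of_nonneg_left (sum_le_sum fun PA _ => ?_)
    (by positivity)) (by positivity)
  split_ifs with h
  · positivity
  · have hk : (k0 : ℝ) ≤ ((α - PA.card : ℕ) : ℝ) := by exact_mod_cast (not_le.1 h).le
    have h3 : Real.exp (-(m * y / (α * β) * ((α - PA.card : ℕ) : ℝ))) ≤ E := by
      refine le_trans (Real.exp_le_exp.2 (neg_le_neg ?_)) h1
      exact mul_le_mul_of_nonneg_left hk (by positivity)
    have h4 := pow_le_pow_left₀ (by positivity) (add_le_add_right h3 x) β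
    have := mul_le_mul_of_nonneg_left h4
      (show 0 ≤ (x * (1 + x) ^ 2) ^ PA.card * (x ^ 2) ^ (α - PA.card) by positivity)
    refine this.trans (le_of_eq ?_)
    ring

theorem pure1 (φ : Fin m → Fin α × Fin β) (x : ℝ) : Z φ x (fun PA _ => PA = univ) =
    (1 + x) ^ m * (1 + x) ^ β * (x * (1 + x) ^ 2) ^ α := by
  rw [Z_eq, sum_comm]
  simp only [sum_ite_eq', mem_univ, if_true, cl, true_or, card_univ, Fintype.card_fin,
    Nat.sub_self, pow_zero, mul_one, prod_const]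
  have := Fintype.sum_pow_mul_eq_add_pow (Fin β) x 1
  simp only [one_pow, mul_one, Fintype.card_fin] at this
  rw [← sum_mul, ← mul_sum, this]
  ring

theorem pure2 (φ : Fin m → Fin α × Fin β) (x : ℝ) : Z φ x (fun _ PB => PB = univ) =
    (1 + x) ^ m * x ^ β * (x * (1 + x) ^ 2 + x ^ 2) ^ α := by
  rw [Z_eq]
  simp only [sum_ite_eq', mem_univ, if_true, cl, or_true, card_univ, Fintype.card_fin,
    prod_const]
  have := Fintype.sum_pow_mul_eq_add_pow (Fin α) (x * (1 + x) ^ 2) (x ^ 2)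
  rw [Fintype.card_fin] at this
  rw [← sum_mul, ← sum_mul, this]
  ring

def nb (φ : Fin m → Fin α × Fin β) : (Fin α × Fin 2) ⊕ Fin m → Fin α ⊕ Fin β → Prop
  | Sum.inl p, u => u = Sum.inl p.1
  | Sum.inr c, u => u = Sum.inl (φ c).1 ∨ u = Sum.inr (φ c).2

def G (φ : Fin m → Fin α × Fin β) : SimpleGraph (V α β m) where
  Adj
    | Sum.inl u, Sum.inl v => u ≠ v
    | Sum.inl u, Sum.inr o => nb φ o u
    | Sum.inr o, Sum.inl u => nb φ o u
    | Sum.inr _, Sum.inr _ => False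
  symm := ⟨by rintro (u | u) (v | v) h <;> first | exact h | exact h.symm⟩
  loopless := ⟨by rintro (u | u) h <;> first | exact h | exact h rfl⟩

def Dom (φ : Fin m → Fin α × Fin β) (S : Finset (V α β m)) : Prop :=
  ∀ v, v ∈ S ∨ ∃ u ∈ S, (G φ).Adj v u

theorem hit_iff (φ : Fin m → Fin α × Fin β) (S : Finset (V α β m)) (o) :
    hit φ S.toLeft.toLeft S.toLeft.toRight o ↔ ∃ u ∈ S, (G φ).Adj (Sum.inr o) u := by
  constructor
  · intro h
    rcases o with p | c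
    · exact ⟨Sum.inl (Sum.inl p.1), by simpa [hit] using h, rfl⟩
    · rcases h with h | h
      · exact ⟨Sum.inl (Sum.inl (φ c).1), by simpa using h, Or.inl rfl⟩
      · exact ⟨Sum.inl (Sum.inr (φ c).2), by simpa using h, Or.inr rfl⟩
  · rintro ⟨u | u, hu, h⟩
    · rcases o with p | c
      · have h' : u = Sum.inl p.1 := h
        subst h'
        simpa [hit] using hu
      · rcases h with rfl | rfl
        · exact Or.inl (by simpa using hu)
        · exact Or.inr (by simpa using hu)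
    · exact h.elim

theorem out_of_dom (φ : Fin m → Fin α × Fin β) (S : Finset (V α β m)) (h : Dom φ S) :
    Out φ S := fun o => (h (Sum.inr o)).imp id (hit_iff φ S o).2

theorem dom_of_out (φ : Fin m → Fin α × Fin β) (S : Finset (V α β m)) (h : Out φ S)
    (u : Fin α ⊕ Fin β) (hu : Sum.inl u ∈ S) : Dom φ S := by
  rintro (v | o)
  · by_cases e : v = u
    · left; rwa [e]
    · right; exact ⟨_, hu, e⟩
  · exact (h o).imp id (hit_iff φ S o).1

noncomputable def d (φ : Fin m → Fin α × Fin β) (i : ℕ) : ℝ :=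
  ∑ S : Finset (V α β m), if S.card = i ∧ Dom φ S then 1 else 0

theorem d_nonneg (φ : Fin m → Fin α × Fin β) (i : ℕ) : 0 ≤ d φ i :=
  sum_nonneg fun _ _ => by split_ifs <;> norm_num

theorem d_le (φ : Fin m → Fin α × Fin β) {x1 x2 : ℝ} (h1 : 0 < x1) (h2 : 0 < x2) (j : ℕ)
    (R : Finset (Fin α) → Prop) :
    d φ j ≤ Z φ x1 (fun PA _ => R PA) / x1 ^ j + Z φ x2 (fun PA _ => ¬ R PA) / x2 ^ j := by
  rw [d, Z, Z, sum_div, sum_div, ← sum_add_distrib]
  refine sum_le_sum fun S _ => ?_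
  by_cases h : S.card = j ∧ Dom φ S
  · have ho := out_of_dom φ S h.2
    have p1 : x1 ^ j ≠ 0 := by positivity
    have p2 : x2 ^ j ≠ 0 := by positivity
    by_cases hR : R S.toLeft.toLeft <;> simp [h, ho, hR, p1, p2]
  · rw [if_neg h]
    split_ifs <;> positivity

theorem sum_d (φ : Fin m → Fin α × Fin β) (I : Finset ℕ) :
    ∑ i ∈ I, d φ i = ∑ S : Finset (V α β m), if S.card ∈ I ∧ Dom φ S then 1 else 0 := by
  simp only [d]
  rw [sum_comm]
  refine sum_congr rfl fun S _ => ?_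
  by_cases h : Dom φ S
  · simp [h]
  · simp [h]

theorem low (φ : Fin m → Fin α × Fin β) (hα : 0 < α) {x : ℝ} (hx : 1 ≤ x) (j : ℕ) :
    Z φ 1 (fun PA _ => PA = univ) ≤
      ∑ i ∈ range j, d φ i + Z φ x (fun PA _ => PA = univ) / x ^ j := by
  rw [sum_d, Z, Z, sum_div, ← sum_add_distrib]
  refine sum_le_sum fun S _ => ?_
  by_cases h : Out φ S ∧ S.toLeft.toLeft = univ
  · have hd := dom_of_out φ S h.1 (Sum.inl ⟨0, hα⟩) (by
      have : (⟨0, hα⟩ : Fin α) ∈ S.toLeft.toLeft := by rw [h.2]; exact mem_univ _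
      simpa using this)
    have px : 0 < x ^ j := by positivity
    simp only [h, and_self, if_true, one_pow, hd, and_true, mem_range]
    split_ifs with hj
    · have : 0 ≤ x ^ S.card / x ^ j := by positivity
      linarith
    · rw [zero_add, le_div_iff₀ px, one_mul]
      exact pow_le_pow_right₀ hx (not_lt.1 hj)
  · simp only [h, if_false, zero_div, add_zero]
    split_ifs <;> norm_num

theorem high (φ : Fin m → Fin α × Fin β) (hβ : 0 < β) {x : ℝ} (hx0 : 0 < x) (hx : x ≤ 1) (j : ℕ) :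
    Z φ 1 (fun _ PB => PB = univ) ≤ ∑ i ∈ Ioc j (Fintype.card (V α β m)), d φ i +
      Z φ x (fun _ PB => PB = univ) / x ^ j := by
  rw [sum_d, Z, Z, sum_div, ← sum_add_distrib]
  refine sum_le_sum fun S _ => ?_
  by_cases h : Out φ S ∧ S.toLeft.toRight = univ
  · have hd := dom_of_out φ S h.1 (Sum.inr ⟨0, hβ⟩) (by
      have : (⟨0, hβ⟩ : Fin β) ∈ S.toLeft.toRight := by rw [h.2]; exact mem_univ _
      simpa using this)
    have px : 0 < x ^ j := by positivity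
    simp only [h, and_self, if_true, one_pow, hd, and_true, mem_Ioc, card_le_univ]
    split_ifs with hj
    · have : 0 ≤ x ^ S.card / x ^ j := by positivity
      linarith
    · rw [zero_add, le_div_iff₀ px, one_mul]
      exact pow_le_pow_of_le_one hx0.le hx (not_lt.1 hj)
  · simp only [h, if_false, zero_div, add_zero]
    split_ifs <;> norm_num

theorem abstract {x1 x2 y E U1 U2 W : ℝ} {k0 j : ℕ} (h1 : 1 ≤ x1) (h2 : 0 < x2) (h2' : x2 ≤ 1)
    (hy : 0 ≤ y) (hxy : (1 + x1) * y ≤ 1) (hα : 0 < α) (hβ : 0 < β) (hk0 : 0 < k0)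
    (hE0 : 0 ≤ E) (hE1 : E ≤ 1) (e1 : Real.exp (-(m * y / (α * β) * k0)) ≤ E)
    (e2 : Real.exp (-(β * y * (1 - E) / k0)) ≤ E)
    (u1 : (1 + x1) ^ m * (1 + x1) ^ β * (x1 * (1 + x1) ^ 2 + x1 ^ 2 * E) ^ α / x1 ^ j ≤ U1)
    (u2 : (1 + x2) ^ m * (x2 + E) ^ β * (x2 * (1 + x2) ^ 2 + x2 ^ 2) ^ α / x2 ^ j ≤ U2)
    (w1 : W ≤ 2 ^ m * 2 ^ β * 4 ^ α) (w2 : W ≤ 2 ^ m * 5 ^ α) :
    ∃ φ : Fin m → Fin α × Fin β, d φ j ≤ U1 + U2 ∧ W - U1 ≤ ∑ i ∈ range j, d φ i ∧
      W - U2 ≤ ∑ i ∈ Ioc j (Fintype.card (V α β m)), d φ i := by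
  have hx1 : 0 < x1 := by linarith
  have b1 := bound1 (m := m) hx1.le hy hxy hα hβ hk0 hE0 hE1 e1 e2
  have b2 := bound2 (m := m) (x := x2) h2.le hy (by nlinarith) hα hβ hE0 e1
  have : Nonempty (Fin α × Fin β) := ⟨(⟨0, hα⟩, ⟨0, hβ⟩)⟩
  have hex : ∃ φ ∈ (univ : Finset (Fin m → Fin α × Fin β)), d φ j ≤ U1 + U2 := by
    apply exists_le_of_sum_le univ_nonempty
    refine (sum_le_sum fun φ _ => d_le φ hx1 h2 j (fun PA => α - PA.card ≤ k0)).trans ?_
    rw [sum_add_distrib, ← sum_div, ← sum_div, sum_const, card_univ, Fintype.card_fun,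
      Fintype.card_prod, Fintype.card_fin, Fintype.card_fin, Fintype.card_fin, nsmul_eq_mul]
    push_cast
    have c1 := div_le_div_of_nonneg_right b1 (pow_pos hx1 j).le
    have c2 := div_le_div_of_nonneg_right b2 (pow_pos h2 j).le
    rw [mul_div_assoc] at c1 c2
    have p : (0 : ℝ) ≤ (α * β : ℝ) ^ m := by positivity
    have c3 := mul_le_mul_of_nonneg_left u1 p
    have c4 := mul_le_mul_of_nonneg_left u2 p
    linarith
  obtain ⟨φ, -, hφ⟩ := hex
  refine ⟨φ, hφ, ?_, ?_⟩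
  · have := low φ hα h1 j
    rw [pure1, pure1] at this
    have c : (1 + x1) ^ m * (1 + x1) ^ β * (x1 * (1 + x1) ^ 2) ^ α / x1 ^ j ≤ U1 := by
      refine le_trans ?_ u1
      gcongr
      have : 0 ≤ x1 ^ 2 * E := by positivity
      linarith
    norm_num at this
    linarith
  · have := high φ hβ h2 h2' j
    rw [pure2, pure2] at this
    have c : (1 + x2) ^ m * x2 ^ β * (x2 * (1 + x2) ^ 2 + x2 ^ 2) ^ α / x2 ^ j ≤ U2 := by
      refine le_trans ?_ u2
      gcongr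
      linarith
    generalize Fintype.card (V α β m) = N at this ⊢
    norm_num at this
    linarith

theorem num1 (μ a b jj : ℕ)
    (h : 4001 ^ (μ + b) * (2001 * 4001 ^ 2 * 75 + 2001 ^ 2) ^ a * 2000 ^ jj <
      2 ^ μ * 5 ^ a * (2000 ^ (μ + b) * (2000 ^ 3 * 75) ^ a * 2001 ^ jj)) :
    (1 + 2001 / 2000 : ℝ) ^ μ * (1 + 2001 / 2000) ^ b *
      (2001 / 2000 * (1 + 2001 / 2000) ^ 2 + (2001 / 2000) ^ 2 * (1 / 150000)) ^ a /
        (2001 / 2000) ^ jj < 2 ^ μ * 5 ^ a := by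
  have e1 : (1 + 2001 / 2000 : ℝ) = 4001 / 2000 := by norm_num
  have e2 : (2001 / 2000 * (4001 / 2000) ^ 2 + (2001 / 2000) ^ 2 * (1 / 150000) : ℝ) =
      (2001 * 4001 ^ 2 * 75 + 2001 ^ 2) / (2000 ^ 3 * 75) := by norm_num
  have h' : (4001 ^ (μ + b) * (2001 * 4001 ^ 2 * 75 + 2001 ^ 2) ^ a * 2000 ^ jj : ℝ) <
      2 ^ μ * 5 ^ a * (2000 ^ (μ + b) * (2000 ^ 3 * 75) ^ a * 2001 ^ jj) := by exact_mod_cast h
  rw [e1, e2, ← pow_add, div_pow, div_pow, div_pow, div_mul_div_comm, div_div_div_eq,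
    div_lt_iff₀ (by positivity)]
  exact h'

theorem num2 (μ a b jj : ℕ)
    (h : 3999 ^ μ * (1999 * 75 + 1) ^ b * (1999 * 3999 ^ 2 + 1999 ^ 2 * 2000) ^ a * 2000 ^ jj <
      2 ^ μ * 5 ^ a * (2000 ^ μ * 150000 ^ b * (2000 ^ 3) ^ a * 1999 ^ jj)) :
    (1 + 1999 / 2000 : ℝ) ^ μ * (1999 / 2000 + 1 / 150000) ^ b *
      (1999 / 2000 * (1 + 1999 / 2000) ^ 2 + (1999 / 2000) ^ 2) ^ a /
        (1999 / 2000) ^ jj < 2 ^ μ * 5 ^ a := by
  have e1 : (1 + 1999 / 2000 : ℝ) = 3999 / 2000 := by norm_num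
  have e2 : (1999 / 2000 * (3999 / 2000) ^ 2 + (1999 / 2000) ^ 2 : ℝ) =
      (1999 * 3999 ^ 2 + 1999 ^ 2 * 2000) / 2000 ^ 3 := by norm_num
  have e3 : (1999 / 2000 + 1 / 150000 : ℝ) = (1999 * 75 + 1) / 150000 := by norm_num
  have h' : (3999 ^ μ * (1999 * 75 + 1) ^ b * (1999 * 3999 ^ 2 + 1999 ^ 2 * 2000) ^ a *
      2000 ^ jj : ℝ) < 2 ^ μ * 5 ^ a * (2000 ^ μ * 150000 ^ b * (2000 ^ 3) ^ a * 1999 ^ jj) := by
    exact_mod_cast h
  rw [e1, e2, e3, div_pow, div_pow, div_pow, div_pow, div_mul_div_comm, div_mul_div_comm,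
    div_div_div_eq, div_lt_iff₀ (by positivity)]
  exact h'

theorem exp12 {t : ℝ} (ht : 12 ≤ t) : Real.exp (-t) ≤ 1 / 150000 := by
  have h1 : (2.7 : ℝ) ≤ Real.exp 1 := by linarith [Real.exp_one_gt_d9]
  have h2 : (150000 : ℝ) ≤ Real.exp t := by
    refine le_trans ?_ (Real.exp_le_exp.2 ht)
    have := pow_le_pow_left₀ (by norm_num) h1 12
    rw [← Real.exp_nat_mul] at this
    norm_num at this ⊢
    linarith
  rw [Real.exp_neg, one_div]
  exact inv_anti₀ (by norm_num) h2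

theorem blocks (μ a b jj κ : ℕ) (ha : 0 < a) (hb : 0 < b) (hκ : 0 < κ)
    (t1 : (12 : ℝ) ≤ μ * (49 / 100) / (a * b) * κ)
    (t2 : (12 : ℝ) ≤ b * (49 / 100) * (1 - 1 / 150000) / κ)
    (n1 : 4001 ^ (μ + b) * (2001 * 4001 ^ 2 * 75 + 2001 ^ 2) ^ a * 2000 ^ jj <
      2 ^ μ * 5 ^ a * (2000 ^ (μ + b) * (2000 ^ 3 * 75) ^ a * 2001 ^ jj))
    (n2 : 3999 ^ μ * (1999 * 75 + 1) ^ b * (1999 * 3999 ^ 2 + 1999 ^ 2 * 2000) ^ a * 2000 ^ jj <
      2 ^ μ * 5 ^ a * (2000 ^ μ * 150000 ^ b * (2000 ^ 3) ^ a * 1999 ^ jj))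
    (n3 : 5 ^ a ≤ 2 ^ b * 4 ^ a) (L : ℕ) :
    ∃ (n : ℕ) (φ : Fin (μ * n) → Fin (a * n) × Fin (b * n)) (U W : ℝ), 0 < n ∧
      (L * n + 1) * U < W ∧ d φ (jj * n) ≤ U ∧ W - U ≤ ∑ i ∈ range (jj * n), d φ i ∧
      W - U ≤ ∑ i ∈ Ioc (jj * n) (Fintype.card (V (a * n) (b * n) (μ * n))), d φ i := by
  have m1 := num1 μ a b jj n1
  have m2 := num2 μ a b jj n2
  set u1 := (1 + 2001 / 2000 : ℝ) ^ μ * (1 + 2001 / 2000) ^ b *
      (2001 / 2000 * (1 + 2001 / 2000) ^ 2 + (2001 / 2000) ^ 2 * (1 / 150000)) ^ a /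
        (2001 / 2000) ^ jj with hu1
  set u2 := (1 + 1999 / 2000 : ℝ) ^ μ * (1999 / 2000 + 1 / 150000) ^ b *
      (1999 / 2000 * (1 + 1999 / 2000) ^ 2 + (1999 / 2000) ^ 2) ^ a /
        (1999 / 2000) ^ jj with hu2
  set w : ℝ := 2 ^ μ * 5 ^ a with hw
  have p1 : 0 ≤ u1 := by positivity
  have p2 : 0 ≤ u2 := by positivity
  have pw : 0 < w := by positivity
  have hθ0 : 0 ≤ max u1 u2 / w := by positivity
  have hθ1 : max u1 u2 / w < 1 := (div_lt_one pw).2 (max_lt m1 m2)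
  have lim := (tendsto_self_mul_const_pow_of_lt_one hθ0 hθ1).const_mul (2 * (L + 1) : ℝ)
  rw [mul_zero] at lim
  obtain ⟨n, hn, hn1⟩ := ((lim.eventually (gt_mem_nhds one_pos)).and
    (Filter.eventually_ge_atTop 1)).exists
  have hn' : (1 : ℝ) ≤ n := by exact_mod_cast hn1
  have ha' : (0 : ℝ) < a := by exact_mod_cast ha
  have hb' : (0 : ℝ) < b := by exact_mod_cast hb
  have hκ' : (0 : ℝ) < κ := by exact_mod_cast hκ
  obtain ⟨φ, c1, c2, c3⟩ := abstract (α := a * n) (β := b * n) (m := μ * n) (x1 := 2001 / 2000)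
    (x2 := 1999 / 2000) (y := 49 / 100) (E := 1 / 150000) (U1 := u1 ^ n) (U2 := u2 ^ n)
    (W := w ^ n) (k0 := κ * n) (j := jj * n) (by norm_num) (by norm_num) (by norm_num)
    (by norm_num) (by norm_num) (Nat.mul_pos ha hn1) (Nat.mul_pos hb hn1) (Nat.mul_pos hκ hn1)
    (by norm_num) (by norm_num)
    (exp12 (t1.trans (le_of_eq (by push_cast; field_simp))))
    (exp12 (t2.trans (le_of_eq (by push_cast; field_simp))))
    (le_of_eq (by rw [hu1, div_pow _ _ n, mul_pow _ _ n, mul_pow _ _ n, pow_mul, pow_mul, pow_mul,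
      pow_mul]))
    (le_of_eq (by rw [hu2, div_pow _ _ n, mul_pow _ _ n, mul_pow _ _ n, pow_mul, pow_mul, pow_mul,
      pow_mul]))
    (by
      rw [pow_mul, pow_mul, pow_mul, ← mul_pow, ← mul_pow]
      refine pow_le_pow_left₀ pw.le ?_ n
      have : (5 ^ a : ℝ) ≤ 2 ^ b * 4 ^ a := by exact_mod_cast n3
      rw [hw, mul_assoc]
      exact mul_le_mul_of_nonneg_left this (by positivity))
    (le_of_eq (by rw [hw, mul_pow, pow_mul, pow_mul]))
  have q1 : 0 ≤ u1 ^ n := by positivity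
  have q2 : 0 ≤ u2 ^ n := by positivity
  refine ⟨n, φ, u1 ^ n + u2 ^ n, w ^ n, hn1, ?_, c1, by linarith, by linarith⟩
  have r1 : u1 ^ n ≤ (max u1 u2) ^ n := pow_le_pow_left₀ p1 (le_max_left _ _) n
  have r2 : u2 ^ n ≤ (max u1 u2) ^ n := pow_le_pow_left₀ p2 (le_max_right _ _) n
  rw [div_pow, ← mul_assoc, ← mul_div_assoc, div_lt_one (by positivity)] at hn
  refine lt_of_le_of_lt ?_ hn
  have r3 : (L * n + 1 : ℝ) ≤ (L + 1) * n := by linarith
  calc (L * n + 1 : ℝ) * (u1 ^ n + u2 ^ n) ≤ ((L + 1) * n) * (2 * (max u1 u2) ^ n) :=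
        mul_le_mul r3 (by linarith) (by positivity) (by positivity)
    _ = _ := by ring

theorem main (L : ℕ) :
    ∃ (n : ℕ) (φ : Fin (407662 * n) → Fin (643 * n) × Fin (207 * n)) (U W : ℝ), 0 < n ∧
      (L * n + 1) * U < W ∧ d φ (205272 * n) ≤ U ∧ W - U ≤ ∑ i ∈ range (205272 * n), d φ i ∧
      W - U ≤ ∑ i ∈ Ioc (205272 * n) (Fintype.card (V (643 * n) (207 * n) (407662 * n))), d φ i :=
  blocks 407662 643 207 205272 8 (by norm_num) (by norm_num) (by norm_num) (by norm_num)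
    (by norm_num) (by decide +kernel) (by decide +kernel) (by decide +kernel) L

theorem d_eq (φ : Fin m → Fin α × Fin β) (i : ℕ) :
    (({S : Finset (V α β m) | S.card = i ∧ ∀ v, v ∈ S ∨ ∃ u ∈ S, (G φ).Adj v u}.ncard : ℕ) : ℝ) =
      d φ i := by
  rw [d, sum_boole, ← Set.ncard_coe_finset]
  congr 2
  ext S
  simp [Dom]

end Pool.Agent.Lib.helper33.DomPoly
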