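import Mathlib

/-!
The group `L ⋊ C₂`, where `L` is the lattice of points `(p, q)` with `p + q` even and the
generator `t` of `C₂` swaps the coordinates, generated by `c = (2,0)`, `d = (1,1)`, `e = (1,-1)`,
their inverses and `t`.  An element is stored as `c ^ i d ^ j t ^ s`, so `p = 2 i + j`, `q = j`.
-/

set_option linter.unusedSimpArgs false
set_option linter.unnecessarySeqFocus false

namespace Pool.Agent.Lib.helper33.EclGroup

@[ext] structure K where
  i : ℤ
  j : ℤ
  s : Bool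
deriving DecidableEq

instance : Mul K := ⟨fun a b => ⟨a.i + (if a.s then -b.i else b.i),
  a.j + (if a.s then b.j + 2 * b.i else b.j), xor a.s b.s⟩⟩

instance : One K := ⟨⟨0, 0, false⟩⟩

instance : Inv K := ⟨fun a => if a.s then ⟨a.i, -a.j - 2 * a.i, true⟩ else ⟨-a.i, -a.j, false⟩⟩

theorem mul_def (a b : K) : a * b = ⟨a.i + (if a.s then -b.i else b.i),
  a.j + (if a.s then b.j + 2 * b.i else b.j), xor a.s b.s⟩ := rfl

theorem one_def : (1 : K) = ⟨0, 0, false⟩ := rfl

theorem inv_def (a : K) :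
    a⁻¹ = if a.s then ⟨a.i, -a.j - 2 * a.i, true⟩ else ⟨-a.i, -a.j, false⟩ := rfl

instance : Group K := Group.ofLeftAxioms
  (by
    rintro ⟨a, b, s⟩ ⟨c, d, t⟩ ⟨e, f, u⟩
    cases s <;> cases t <;> cases u <;> simp [mul_def] <;> omega)
  (by rintro ⟨a, b, s⟩; simp [mul_def, one_def])
  (by rintro ⟨a, b, s⟩; cases s <;> simp [mul_def, one_def, inv_def] <;> omega)

def len (g : K) : ℕ :=
  if g.s then ((2 * g.i + g.j).natAbs + g.j.natAbs) / 2 + 1
  else if g.j.natAbs ≤ (2 * g.i + g.j).natAbs then ((2 * g.i + g.j).natAbs + g.j.natAbs) / 2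
  else min g.j.natAbs (((2 * g.i + g.j).natAbs + g.j.natAbs) / 2 + 2)

def X : Finset K := {⟨1, 0, false⟩, ⟨-1, 0, false⟩, ⟨0, 1, false⟩, ⟨0, -1, false⟩, ⟨1, -1, false⟩,
  ⟨-1, 1, false⟩, ⟨0, 0, true⟩}

def rank (g : K) : ℕ :=
  if g.s then 6 else if g.j = 0 then (if g.i = 1 then 0 else 1) else
    if g.i = 0 then (if g.j = 1 then 2 else 3) else if g.i = 1 then 4 else 5

abbrev Lt := {x // x ∈ X}

def r (a b : Lt) : Prop := rank a.1 < rank b.1

theorem rank_inj : ∀ a b : Lt, rank a.1 = rank b.1 → a = b := by decide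

instance : IsStrictTotalOrder Lt r where
  trichotomous a b h1 h2 := rank_inj a b (by unfold r at h1 h2; omega)
  irrefl a := lt_irrefl _
  trans a b c := lt_trans

theorem letter_cases (x : Lt) : x.1 = ⟨1, 0, false⟩ ∨ x.1 = ⟨-1, 0, false⟩ ∨
    x.1 = ⟨0, 1, false⟩ ∨ x.1 = ⟨0, -1, false⟩ ∨ x.1 = ⟨1, -1, false⟩ ∨
    x.1 = ⟨-1, 1, false⟩ ∨ x.1 = ⟨0, 0, true⟩ := by
  have := x.2
  simpa only [X, Finset.mem_insert, Finset.mem_singleton] using this

theorem X_inv : ∀ x ∈ X, x⁻¹ ∈ X := by decide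

theorem len_one : len 1 = 0 := by decide

theorem len_lip (x : Lt) (g : K) : len (x.1 * g) ≤ len g + 1 := by
  obtain ⟨i, j, s⟩ := g
  rcases letter_cases x with h | h | h | h | h | h | h <;> rw [h] <;> cases s <;>
    simp only [len, mul_def, Bool.false_eq_true, if_false, if_true, Bool.xor_false,
      Bool.xor_true, Bool.not_false, Bool.not_true, Bool.false_xor, Bool.true_xor] <;>
    (try split_ifs) <;> omega

abbrev val (w : List Lt) : K := (w.map Subtype.val).prod

theorem val_cons (x : Lt) (w : List Lt) : val (x :: w) = x.1 * val w := by simp [val]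

theorem val_append (u w : List Lt) : val (u ++ w) = val u * val w := by simp [val]

theorem len_val (w : List Lt) : len (val w) ≤ w.length := by
  induction w with
  | nil => exact len_one.le
  | cons x w ih => rw [val_cons]; exact (len_lip x _).trans (by simpa using ih)

def Good : List Lt → Prop
  | [] => True
  | x :: w => Good w ∧ len (x.1 * val w) = w.length + 1 ∧
      ∀ y : Lt, rank y.1 < rank x.1 → w.length < len (y.1⁻¹ * (x.1 * val w))

theorem good_min : ∀ w, Good w → ∀ w', val w' = val w →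
    w.length < w'.length ∨ (w.length = w'.length ∧ (w = w' ∨ List.Lex r w w')) := by
  intro w
  induction w with
  | nil =>
    intro _ w' _
    cases w' with
    | nil => simp
    | cons y w' => simp
  | cons x w ih =>
    rintro ⟨h1, h2, h3⟩ w' hw
    have hl := len_val w'
    rw [hw, val_cons, h2] at hl
    rcases hl.lt_or_eq with hl | hl
    · left; simpa using hl
    · right
      refine ⟨by simpa using hl, ?_⟩
      cases w' with
      | nil => simp at hl
      | cons y w' =>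
        rw [val_cons, val_cons] at hw
        have hl' : w.length = w'.length := by simpa using hl
        rcases lt_trichotomy (rank y.1) (rank x.1) with h | h | h
        · have := h3 y h
          rw [← hw, inv_mul_cancel_left] at this
          have := len_val w'
          omega
        · have e := rank_inj _ _ h
          subst e
          rcases ih h1 w' (mul_left_cancel hw) with h | ⟨-, h | h⟩
          · omega
          · left; rw [h]
          · right; exact List.Lex.cons h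
        · right; exact List.Lex.rel h

def tbl : List (List (Fin 16)) :=
  [[1, 9, 2, 10, 5, 13, 8], [1, 15, 2, 15, 4, 15, 6], [15, 15, 3, 15, 15, 15, 6],
    [15, 15, 3, 15, 15, 15, 15], [15, 15, 15, 15, 4, 15, 15], [15, 15, 15, 15, 4, 15, 7],
    [6, 15, 15, 15, 15, 15, 15], [15, 15, 15, 15, 15, 15, 15], [6, 14, 15, 15, 15, 15, 15],
    [15, 9, 15, 10, 15, 12, 14], [15, 15, 15, 11, 15, 15, 14], [15, 15, 15, 11, 15, 15, 15],
    [15, 15, 15, 15, 15, 12, 15], [15, 15, 15, 15, 15, 12, 7], [15, 14, 15, 15, 15, 15, 15],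
    [15, 15, 15, 15, 15, 15, 15]]

def δ (st : Fin 16) (k : ℕ) : Fin 16 := (tbl.getD st.1 []).getD k 15

def Iv (n : ℕ) (p q : ℤ) (s : Bool) : Prop :=
  match n, s with
  | 0, false => q.natAbs ≤ p.natAbs
  | 0, true => (0 ≤ p ∧ 0 ≤ q) ∨ (p ≤ 0 ∧ q ≤ 0) ∨ (p = 1 ∧ q = -1) ∨ (p = -1 ∧ q = 1)
  | 1, false => q ≤ p ∧ -q ≤ p
  | 1, true => 0 ≤ p ∧ 0 ≤ q
  | 2, false => p = q ∧ 0 ≤ q
  | 2, true => p = 0 ∧ 0 ≤ q
  | 3, false => p = q ∧ 0 ≤ q
  | 4, false => p = -q ∧ 0 ≤ p
  | 5, false => p = -q ∧ 0 ≤ p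
  | 5, true => p = 0 ∧ q = 0
  | 6, false => q = 0 ∧ 0 ≤ p
  | 7, false => p = 0 ∧ q = 0
  | 8, false => q = 0
  | 9, false => p ≤ q ∧ p ≤ -q
  | 9, true => p ≤ 0 ∧ q ≤ 0
  | 10, false => p = q ∧ q ≤ 0
  | 10, true => p = 0 ∧ q ≤ 0
  | 11, false => p = q ∧ q ≤ 0
  | 12, false => p = -q ∧ p ≤ 0
  | 13, false => p = -q ∧ p ≤ 0
  | 13, true => p = 0 ∧ q = 0
  | 14, false => q = 0 ∧ p ≤ 0
  | _, _ => False

def Inv (st : Fin 16) (g : K) : Prop := Iv st.1 (2 * g.i + g.j) g.j g.s

theorem stepA (st : Fin 16) (x : Lt) (g : K) (h : Inv (δ st (rank x.1)) g) :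
    Inv st (x.1 * g) := by
  obtain ⟨i, j, s⟩ := g
  rcases letter_cases x with e | e | e | e | e | e | e <;> rw [e] at h ⊢ <;> cases s <;>
    fin_cases st <;> simp [Inv, Iv, δ, tbl, rank, mul_def] at h ⊢ <;> omega

theorem stepL (st : Fin 16) (x : Lt) (g : K) (h : Inv (δ st (rank x.1)) g) :
    len (x.1 * g) = len g + 1 := by
  obtain ⟨i, j, s⟩ := g
  rcases letter_cases x with e | e | e | e | e | e | e <;> rw [e] at h ⊢ <;> cases s <;>
    fin_cases st <;> simp [Inv, Iv, δ, tbl, rank] at h <;>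
    simp only [len, mul_def, Bool.false_eq_true, if_false, if_true, Bool.xor_false,
      Bool.xor_true, Bool.not_false, Bool.not_true, Bool.false_xor, Bool.true_xor] <;>
    (try split_ifs) <;> omega

theorem stepM (st : Fin 16) (x y : Lt) (g : K) (h : Inv (δ st (rank x.1)) g)
    (hxy : rank y.1 < rank x.1) : len g < len (y.1⁻¹ * (x.1 * g)) := by
  obtain ⟨i, j, s⟩ := g
  rcases letter_cases x with e | e | e | e | e | e | e <;> rw [e] at h hxy ⊢ <;> cases s <;>
    fin_cases st <;> simp [Inv, Iv, δ, tbl, rank] at h <;>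
    rcases letter_cases y with e' | e' | e' | e' | e' | e' | e' <;> rw [e'] at hxy ⊢ <;>
    simp [rank] at hxy <;>
    simp only [len, mul_def, inv_def, Bool.false_eq_true, if_false, if_true, Bool.xor_false,
      Bool.xor_true, Bool.not_false, Bool.not_true, Bool.false_xor, Bool.true_xor] <;>
    (try split_ifs) <;> omega

def lc : Lt := ⟨⟨1, 0, false⟩, by decide⟩
def lC : Lt := ⟨⟨-1, 0, false⟩, by decide⟩
def ld : Lt := ⟨⟨0, 1, false⟩, by decide⟩
def lD : Lt := ⟨⟨0, -1, false⟩, by decide⟩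
def le : Lt := ⟨⟨1, -1, false⟩, by decide⟩
def lE : Lt := ⟨⟨-1, 1, false⟩, by decide⟩
def lt : Lt := ⟨⟨0, 0, true⟩, by decide⟩

theorem stepB (st : Fin 16) (g : K) (h : Inv st g) :
    g = 1 ∨ ∃ x : Lt, Inv (δ st (rank x.1)) (x.1⁻¹ * g) := by
  suffices H : g = 1 ∨ Inv (δ st 0) (lc.1⁻¹ * g) ∨ Inv (δ st 1) (lC.1⁻¹ * g) ∨
      Inv (δ st 2) (ld.1⁻¹ * g) ∨ Inv (δ st 3) (lD.1⁻¹ * g) ∨ Inv (δ st 4) (le.1⁻¹ * g) ∨
      Inv (δ st 5) (lE.1⁻¹ * g) ∨ Inv (δ st 6) (lt.1⁻¹ * g) by
    rcases H with H | H | H | H | H | H | H | H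
    · exact Or.inl H
    · exact Or.inr ⟨lc, H⟩
    · exact Or.inr ⟨lC, H⟩
    · exact Or.inr ⟨ld, H⟩
    · exact Or.inr ⟨lD, H⟩
    · exact Or.inr ⟨le, H⟩
    · exact Or.inr ⟨lE, H⟩
    · exact Or.inr ⟨lt, H⟩
  obtain ⟨i, j, s⟩ := g
  cases s <;> fin_cases st <;>
    simp [Inv, Iv, δ, tbl, mul_def, inv_def, one_def, lc, lC, ld, lD, le, lE, lt] at h ⊢ <;> omega

def M : DFA Lt (Fin 16) where
  step st x := δ st (rank x.1)
  start := 0
  accept := {st | st ≠ 15}

theorem inv_one' : ∀ st : Fin 16, st ≠ 15 → Inv st 1 := by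
  intro st h
  fin_cases st <;> simp [Inv, Iv, one_def] at h ⊢

theorem not_inv (g : K) : ¬ Inv 15 g := by
  obtain ⟨i, j, s⟩ := g
  cases s <;> simp [Inv, Iv]

theorem acc_sound : ∀ (w : List Lt) (st : Fin 16), M.evalFrom st w ∈ M.accept →
    Good w ∧ Inv st (val w) ∧ len (val w) = w.length := by
  intro w
  induction w with
  | nil => intro st h; exact ⟨trivial, inv_one' st h, len_one⟩
  | cons x w ih =>
    intro st h
    obtain ⟨h1, h2, h3⟩ := ih _ (show M.evalFrom (δ st (rank x.1)) w ∈ M.accept from h)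
    have hL := stepL st x _ h2
    rw [val_cons]
    refine ⟨⟨h1, by rw [hL, h3], fun y hy => ?_⟩, stepA st x _ h2, by rw [hL, h3]; rfl⟩
    rw [← h3]
    exact stepM st x y _ h2 hy

theorem acc_complete : ∀ (n : ℕ) (st : Fin 16) (g : K), len g = n → Inv st g →
    ∃ w, M.evalFrom st w ∈ M.accept ∧ val w = g := by
  intro n
  induction n using Nat.strong_induction_on with
  | _ n ih =>
    intro st g hn h
    rcases stepB st g h with rfl | ⟨x, hx⟩
    · exact ⟨[], fun e => not_inv 1 (by rw [← show st = 15 from e]; exact h), rfl⟩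
    · have hL := stepL st x _ hx
      rw [mul_inv_cancel_left] at hL
      obtain ⟨w, h1, h2⟩ := ih _ (by omega) _ _ rfl hx
      exact ⟨x :: w, h1, by rw [val_cons, h2, mul_inv_cancel_left]⟩

theorem conjA (g g' : K) (h : Inv 0 g) (hc : IsConj g g') : len g ≤ len g' := by
  obtain ⟨⟨a, b, u⟩, rfl⟩ := isConj_iff.1 hc
  obtain ⟨i, j, s⟩ := g
  cases s <;> cases u <;> simp [Inv, Iv] at h <;>
    simp only [len, mul_def, inv_def, Bool.false_eq_true, if_false, if_true, Bool.xor_false,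
      Bool.xor_true, Bool.not_false, Bool.not_true, Bool.false_xor, Bool.true_xor] <;>
    (try split_ifs) <;> omega

theorem conjB (g : K) : Inv 0 g ∨ ∃ g', IsConj g g' ∧ Inv 0 g' ∧ len g' < len g := by
  by_cases h : Inv 0 g
  · exact Or.inl h
  right
  obtain ⟨i, j, s⟩ := g
  cases s
  · refine ⟨_, isConj_iff.2 ⟨⟨0, 0, true⟩, rfl⟩, ?_, ?_⟩
    · simp [Inv, Iv, mul_def, inv_def] at h ⊢
      omega
    · simp [Inv, Iv] at h
      simp only [len, mul_def, inv_def, Bool.false_eq_true, if_false, if_true, Bool.xor_false,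
        Bool.xor_true, Bool.not_false, Bool.not_true, Bool.false_xor, Bool.true_xor]
      split_ifs <;> omega
  · by_cases hs : 0 ≤ i + j
    · refine ⟨_, isConj_iff.2 ⟨⟨-((2 * i + j) / 2), 0, false⟩, rfl⟩, ?_, ?_⟩
      · simp [Inv, Iv, mul_def, inv_def] at h ⊢
        omega
      · simp [Inv, Iv] at h
        simp only [len, mul_def, inv_def, Bool.false_eq_true, if_false, if_true, Bool.xor_false,
          Bool.xor_true, Bool.not_false, Bool.not_true, Bool.false_xor, Bool.true_xor]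
        omega
    · refine ⟨_, isConj_iff.2 ⟨⟨-((2 * i + j + 1) / 2), 0, false⟩, rfl⟩, ?_, ?_⟩
      · simp [Inv, Iv, mul_def, inv_def] at h ⊢
        omega
      · simp [Inv, Iv] at h
        simp only [len, mul_def, inv_def, Bool.false_eq_true, if_false, if_true, Bool.xor_false,
          Bool.xor_true, Bool.not_false, Bool.not_true, Bool.false_xor, Bool.true_xor]
        omega

theorem regular (w : List Lt) : w ∈ M.accepts ↔
    ((∀ w' : List Lt, val w' = val w → w.length < w'.length ∨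
        (w.length = w'.length ∧ (w = w' ∨ List.Lex r w w'))) ∧
      ∀ w' : List Lt, IsConj (val w) (val w') → w.length ≤ w'.length) := by
  constructor
  · intro h
    obtain ⟨h1, h2, h3⟩ := acc_sound w 0 h
    exact ⟨good_min w h1, fun w' hc => by
      rw [← h3]; exact (conjA _ _ h2 hc).trans (len_val w')⟩
  · rintro ⟨h1, h2⟩
    rcases conjB (val w) with h | ⟨g', c1, c2, c3⟩
    · obtain ⟨w', a1, a2⟩ := acc_complete _ 0 _ rfl h
      have b1 := good_min w' (acc_sound w' 0 a1).1 w a2.symm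
      have b2 := h1 w' a2
      rcases b1 with b1 | ⟨b1, rfl | b1'⟩
      · rcases b2 with b2 | b2 <;> omega
      · exact a1
      · rcases b2 with b2 | ⟨-, rfl | b2⟩
        · omega
        · exact a1
        · exact absurd b2 (asymm b1')
    · obtain ⟨w', a1, a2⟩ := acc_complete _ 0 _ rfl c2
      have := h2 w' (by rw [a2]; exact c1)
      have h3 := (acc_sound w' 0 a1).2.2
      have := len_val w
      rw [a2] at h3
      omega

theorem X_gen : Subgroup.closure ((X : Finset K) : Set K) = ⊤ := by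
  have hval : ∀ w : List Lt, val w ∈ Subgroup.closure ((X : Finset K) : Set K) := by
    intro w
    induction w with
    | nil => exact Subgroup.one_mem _
    | cons x w ih => rw [val_cons]; exact Subgroup.mul_mem _ (Subgroup.subset_closure x.2) ih
  have hinv : ∀ g, Inv 0 g → g ∈ Subgroup.closure ((X : Finset K) : Set K) := by
    intro g h
    obtain ⟨w, -, rfl⟩ := acc_complete _ 0 _ rfl h
    exact hval w
  rw [eq_top_iff]
  rintro ⟨i, j, s⟩ -
  have e : (⟨i, j, s⟩ : K) = ⟨i, 0, false⟩ * (⟨0, j, false⟩ * ⟨0, 0, s⟩) := by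
    simp [mul_def]
  rw [e]
  refine Subgroup.mul_mem _ (hinv _ ?_) (Subgroup.mul_mem _ (hinv _ ?_) (hinv _ ?_))
  · simp [Inv, Iv]
  · simp [Inv, Iv]
  · cases s <;> simp [Inv, Iv]

end Pool.Agent.Lib.helper33.EclGroup
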