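import Mathlib

set_option autoImplicit false
open Filter Topology MeasureTheory Set
open scoped ENNReal NNReal

namespace Pool.Agent.Lib.helper33.Loeb

noncomputable abbrev UF : Filter ℕ := (hyperfilter ℕ : Ultrafilter ℕ)

lemma UF_le : UF ≤ atTop := Nat.hyperfilter_le_atTop

def UP (Ω : ℕ → Type) : Type := ∀ n, Ω n

variable {Ω : ℕ → Type}

def int (A : ∀ n, Set (Ω n)) : Set (UP Ω) := {x | ∀ᶠ n in UF, x n ∈ A n}

def II (m : ∀ n, MeasurableSpace (Ω n)) : Set (Set (UP Ω)) :=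
  {S | ∃ A : ∀ n, Set (Ω n), (∀ n, MeasurableSet[m n] (A n)) ∧ S = int A}

lemma int_empty : int (fun n => (∅ : Set (Ω n))) = ∅ := by simp [int, (inferInstance : UF.NeBot).ne]
lemma int_univ : int (fun n => (univ : Set (Ω n))) = univ := by simp [int]
lemma int_union (A B : ∀ n, Set (Ω n)) : int (fun n => A n ∪ B n) = int A ∪ int B :=
  Set.ext fun _ => Ultrafilter.eventually_or
lemma int_inter (A B : ∀ n, Set (Ω n)) : int (fun n => A n ∩ B n) = int A ∩ int B :=
  Set.ext fun _ => eventually_and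
lemma int_diff (A B : ∀ n, Set (Ω n)) : int (fun n => A n \ B n) = int A \ int B :=
  Set.ext fun _ => eventually_and.trans (and_congr_right fun _ => Ultrafilter.eventually_not)

lemma ring (m : ∀ n, MeasurableSpace (Ω n)) : IsSetRing (II m) where
  empty_mem := ⟨fun _ => ∅, fun _ => MeasurableSet.empty, int_empty.symm⟩
  union_mem := by
    rintro _ _ ⟨A, hA, rfl⟩ ⟨B, hB, rfl⟩
    exact ⟨_, fun n => (hA n).union (hB n), (int_union A B).symm⟩
  sdiff_mem := by
    rintro _ _ ⟨A, hA, rfl⟩ ⟨B, hB, rfl⟩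
    exact ⟨_, fun n => (hA n).diff (hB n), (int_diff A B).symm⟩

lemma pi (m : ∀ n, MeasurableSpace (Ω n)) : IsPiSystem (II m) :=
  fun _ hs _ ht _ => (ring m).inter_mem hs ht

lemma univ_mem (m : ∀ n, MeasurableSpace (Ω n)) : univ ∈ II m :=
  ⟨fun _ => univ, fun _ => MeasurableSet.univ, int_univ.symm⟩

lemma eq_empty [∀ n, Nonempty (Ω n)] {A : ∀ n, Set (Ω n)} (h : int A = ∅) :
    ∀ᶠ n in UF, A n = ∅ := by
  classical
  by_contra hn
  have hn := Ultrafilter.eventually_not.2 hn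
  have : (fun n => if h : (A n).Nonempty then h.choose else Classical.arbitrary _) ∈ int A := by
    filter_upwards [hn] with n hn
    rw [dif_pos (nonempty_iff_ne_empty.2 hn)]
    exact (nonempty_iff_ne_empty.2 hn).choose_spec
  rw [h] at this
  exact this

lemma eq_of_int [∀ n, Nonempty (Ω n)] {A B : ∀ n, Set (Ω n)} (h : int A = int B) :
    ∀ᶠ n in UF, A n = B n := by
  filter_upwards [eq_empty (A := fun n => A n \ B n) (by rw [int_diff, h, Set.sdiff_self]),
    eq_empty (A := fun n => B n \ A n) (by rw [int_diff, h, Set.sdiff_self])] with n h1 h2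
  exact Subset.antisymm (Set.sdiff_eq_empty.1 h1) (Set.sdiff_eq_empty.1 h2)

lemma saturation (A : ℕ → ∀ n, Set (Ω n)) (h : Antitone fun k => int (A k))
    (hne : ∀ k, (int (A k)).Nonempty) : (⋂ k, int (A k)).Nonempty := by
  classical
  choose x hx using hne
  let P : ℕ → ℕ → Prop := fun n k => ∀ j ≤ k, x k n ∈ A j n
  refine ⟨fun n => x (Nat.findGreatest (P n) n) n, mem_iInter.2 fun j => ?_⟩
  have : ∀ᶠ n in UF, P n j := (Filter.eventually_all_finite (Set.finite_Iic j)).2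
    fun i hi => h hi (hx j)
  filter_upwards [this, UF_le (eventually_ge_atTop j)] with n h1 h2
  exact Nat.findGreatest_spec h2 h1 j (Nat.le_findGreatest h2 h1)

instance [m : ∀ n, MeasurableSpace (Ω n)] : MeasurableSpace (UP Ω) :=
  MeasurableSpace.generateFrom (II m)

variable [m : ∀ n, MeasurableSpace (Ω n)]

lemma meas_int {A : ∀ n, Set (Ω n)} (hA : ∀ n, MeasurableSet (A n)) : MeasurableSet (int A) :=
  MeasurableSpace.measurableSet_generateFrom ⟨A, hA, rfl⟩

def IsLoeb (μ : ∀ n, Measure (Ω n)) (L : Measure (UP Ω)) : Prop :=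
  IsProbabilityMeasure L ∧ ∀ A : ∀ n, Set (Ω n), (∀ n, MeasurableSet (A n)) →
    Tendsto (fun n => μ n (A n)) UF (𝓝 (L (int A)))

lemma ulim (f : ℕ → ℝ≥0∞) : Tendsto f UF (𝓝 (limUnder UF f)) := by
  obtain ⟨a, ha⟩ := (Ultrafilter.map f (hyperfilter ℕ)).le_nhds_lim.trans_eq rfl |>
    fun h => (⟨_, h⟩ : ∃ a, (Ultrafilter.map f (hyperfilter ℕ) : Filter ℝ≥0∞) ≤ 𝓝 a)
  exact tendsto_nhds_limUnder ⟨a, ha⟩

theorem exists_loeb (μ : ∀ n, Measure (Ω n)) [hμ : ∀ n, IsProbabilityMeasure (μ n)] :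
    ∃ L, IsLoeb μ L := by
  classical
  have : ∀ n, Nonempty (Ω n) := fun n => nonempty_of_isProbabilityMeasure (μ n)
  let c : Set (UP Ω) → ℝ≥0∞ := fun S => limUnder UF fun n =>
    μ n (Classical.epsilon (fun A : ∀ n, Set (Ω n) => S = int A) n)
  have hc : ∀ A : ∀ n, Set (Ω n), Tendsto (fun n => μ n (A n)) UF (𝓝 (c (int A))) := fun A =>
    (ulim _).congr' <| (eq_of_int (Classical.epsilon_spec
      (p := fun B : ∀ n, Set (Ω n) => int A = int B) ⟨A, rfl⟩)).mono fun n hn => by rw [← hn]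
  have c0 : c ∅ = 0 := tendsto_nhds_unique (int_empty (Ω := Ω) ▸ hc _) (by simp)
  let C := (ring m).addContent_of_union c c0 (by
    rintro _ _ ⟨A, hA, rfl⟩ ⟨B, hB, rfl⟩ hd
    refine tendsto_nhds_unique (int_union A B ▸ hc _) (((hc A).add (hc B)).congr' ?_)
    filter_upwards [eq_empty (A := fun n => A n ∩ B n) (by rw [int_inter, hd.inter_eq])] with n hn
    rw [measure_union (disjoint_iff_inter_eq_empty.2 hn) (hB n)])
  have hs : C.IsSigmaSubadditive := isSigmaSubadditive_of_addContent_iUnion_eq_tsum (ring m)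
    fun f hf hU hd => addContent_iUnion_eq_sum_of_tendsto_zero (ring m) C (by
      rintro _ ⟨A, -, rfl⟩
      exact ne_top_of_le_ne_top ENNReal.one_ne_top
        (le_of_tendsto' (hc A) fun n => prob_le_one)) (fun s hs ha he => by
      choose A hA e using hs
      obtain rfl : s = fun k => int (A k) := funext e
      obtain ⟨k, hk⟩ : ∃ k, int (A k) = ∅ := by
        by_contra hn
        push Not at hn
        exact (saturation A ha hn).ne_empty he
      refine tendsto_const_nhds.congr' ?_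
      filter_upwards [eventually_ge_atTop k] with j hj
      rw [eq_empty_of_subset_empty (hk ▸ ha hj : int (A j) ⊆ ∅), addContent_empty]) hf hU hd
  have e : ∀ A : ∀ n, Set (Ω n), (∀ n, MeasurableSet (A n)) → Tendsto (fun n => μ n (A n)) UF
      (𝓝 (C.measure (ring m).isSetSemiring le_rfl hs (int A))) := fun A hA => by
    rw [AddContent.measure_eq C (ring m).isSetSemiring rfl hs ⟨A, hA, rfl⟩]
    exact hc A
  refine ⟨_, ⟨?_⟩, e⟩
  exact tendsto_nhds_unique (int_univ (Ω := Ω) ▸ e _ fun _ => MeasurableSet.univ) (by simp)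

lemma meas_lim {g : ∀ n, Ω n → ℝ≥0∞} (hg : ∀ n, Measurable (g n)) {G : UP Ω → ℝ≥0∞}
    (hG : ∀ x, Tendsto (fun n => g n (x n)) UF (𝓝 (G x))) : Measurable G := by
  refine measurable_of_Ioi fun a => ?_
  have : G ⁻¹' Ioi a = ⋃ q : ℚ, ⋃ (_ : a < Real.toNNReal q),
      int fun n => g n ⁻¹' Ioi (Real.toNNReal q : ℝ≥0∞) := by
    ext x
    simp only [mem_preimage, mem_Ioi, mem_iUnion, exists_prop]
    refine ⟨fun h => ?_, fun ⟨q, h1, h2⟩ => h1.trans_le (ge_of_tendsto (hG x)
      (Filter.Eventually.mono h2 fun n hn => le_of_lt hn))⟩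
    obtain ⟨q, -, h1, h2⟩ := ENNReal.lt_iff_exists_rat_btwn.1 h
    exact ⟨q, h1, (hG x).eventually (lt_mem_nhds h2)⟩
  rw [this]
  exact .iUnion fun q => .iUnion fun _ => meas_int fun n => hg n measurableSet_Ioi

omit m in
lemma ind_lim (A : ∀ n, Set (Ω n)) (x : UP Ω) {β : Type} [Zero β] (c : β) :
    ∀ᶠ n in UF, (A n).indicator (fun _ => c) (x n) = (int A).indicator (fun _ => c) x := by
  by_cases h : x ∈ int A
  · filter_upwards [h] with n hn
    rw [indicator_of_mem hn, indicator_of_mem h]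
  · filter_upwards [Ultrafilter.eventually_not.2 h] with n hn
    rw [indicator_of_notMem hn, indicator_of_notMem h]

lemma approx {X : Type} [MeasurableSpace X] (ν : Measure X)
    (s : Finset ℕ) (A : ℕ → Set X) (hA : ∀ k, MeasurableSet (A k)) (c : ℕ → ℝ≥0∞) :
    ∫⁻ x, ∑ k ∈ s, (A k).indicator (fun _ => c k) x ∂ν = ∑ k ∈ s, c k * ν (A k) := by
  rw [lintegral_finsetSum _ fun k _ => measurable_const.indicator (hA k)]
  exact Finset.sum_congr rfl fun k _ => lintegral_indicator_const (hA k) _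

theorem lintegral_lim {μ : ∀ n, Measure (Ω n)} [∀ n, IsProbabilityMeasure (μ n)]
    {L : Measure (UP Ω)} (hL : IsLoeb μ L) {g : ∀ n, Ω n → ℝ≥0∞} (hg : ∀ n, Measurable (g n))
    (C : ℝ≥0) (hC : ∀ n y, g n y ≤ C) {G : UP Ω → ℝ≥0∞}
    (hG : ∀ x, Tendsto (fun n => g n (x n)) UF (𝓝 (G x))) :
    Tendsto (fun n => ∫⁻ y, g n y ∂μ n) UF (𝓝 (∫⁻ x, G x ∂L)) := by
  have := hL.1
  have key : ∀ ε : ℝ≥0, 0 < ε → ∃ (a : ℕ → ℝ≥0∞) (b : ℝ≥0∞), Tendsto a UF (𝓝 b) ∧
      (∀ n, a n ≤ ∫⁻ y, g n y ∂μ n ∧ ∫⁻ y, g n y ∂μ n ≤ a n + ε) ∧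
      b ≤ ∫⁻ x, G x ∂L ∧ ∫⁻ x, G x ∂L ≤ b + ε := by
    intro ε hε
    let s := Finset.range (⌊C / ε⌋₊ + 1)
    let A : ℕ → ∀ n, Set (Ω n) := fun k n => {y | ⌊(g n y).toNNReal / ε⌋₊ = k}
    have hA : ∀ k n, MeasurableSet (A k n) := fun k n =>
      measurableSet_eq_fun (Nat.measurable_floor.comp ((hg n).ennreal_toNNReal.div_const ε))
        measurable_const
    let c : ℕ → ℝ≥0∞ := fun k => ((k * ε : ℝ≥0) : ℝ≥0∞)
    have p : ∀ n y, ∑ k ∈ s, (A k n).indicator (fun _ => c k) y ≤ g n y ∧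
        g n y ≤ ∑ k ∈ s, (A k n).indicator (fun _ => c k) y + ε := fun n y => by
      have h1 := hC n y
      have e : ∑ k ∈ s, (A k n).indicator (fun _ => c k) y = c ⌊(g n y).toNNReal / ε⌋₊ := by
        simp only [indicator, A, mem_ofPred_eq, Finset.sum_ite_eq]
        refine if_pos (Finset.mem_range.2 (Nat.lt_succ_of_le (Nat.floor_mono ?_)))
        gcongr
        exact ENNReal.toNNReal_mono ENNReal.coe_ne_top h1
      rw [e]
      lift g n y to ℝ≥0 using ne_top_of_le_ne_top ENNReal.coe_ne_top h1 with t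
      simp only [c, ENNReal.toNNReal_coe, ← ENNReal.coe_add, ENNReal.coe_le_coe]
      have a1 := Nat.floor_le (zero_le (a := t / ε))
      have a2 := Nat.lt_floor_add_one (t / ε)
      rw [le_div_iff₀ hε] at a1
      rw [div_lt_iff₀ hε, add_mul, one_mul] at a2
      exact ⟨a1, a2.le⟩
    have q : ∀ x, Tendsto (fun n => ∑ k ∈ s, (A k n).indicator (fun _ => c k) (x n)) UF
        (𝓝 (∑ k ∈ s, (int (A k)).indicator (fun _ => c k) x)) := fun x =>
      tendsto_finsetSum _ fun k _ => tendsto_const_nhds.congr' ((ind_lim (A k) x (c k)).mono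
        fun n hn => hn.symm)
    refine ⟨fun n => ∑ k ∈ s, c k * μ n (A k n), ∑ k ∈ s, c k * L (int (A k)),
      tendsto_finsetSum _ fun k _ => ENNReal.Tendsto.const_mul (hL.2 _ (hA k))
        (Or.inr ENNReal.coe_ne_top), fun n => ?_, ?_⟩
    · beta_reduce
      rw [← approx (μ n) s (fun k => A k n) (fun k => hA k n)]
      refine ⟨lintegral_mono fun y => (p n y).1, (lintegral_mono fun y => (p n y).2).trans ?_⟩
      rw [lintegral_add_right _ measurable_const]
      simp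
    · rw [← approx L s (fun k => int (A k)) (fun k => meas_int (hA k))]
      refine ⟨lintegral_mono fun x => le_of_tendsto_of_tendsto' (q x) (hG x) fun n => (p n _).1,
        (lintegral_mono fun x => le_of_tendsto_of_tendsto' (hG x) ((q x).add_const _)
          fun n => (p n _).2).trans ?_⟩
      rw [lintegral_add_right _ measurable_const]
      simp
  have h := ulim fun n => ∫⁻ y, g n y ∂μ n
  suffices limUnder UF (fun n => ∫⁻ y, g n y ∂μ n) = ∫⁻ x, G x ∂L by rwa [this] at h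
  refine le_antisymm (ENNReal.le_of_forall_pos_le_add fun ε hε _ => ?_)
    (ENNReal.le_of_forall_pos_le_add fun ε hε _ => ?_)
  · obtain ⟨a, b, h1, h2, h3, -⟩ := key ε hε
    exact (le_of_tendsto_of_tendsto' h (h1.add_const _) fun n => (h2 n).2).trans (by gcongr)
  · obtain ⟨a, b, h1, h2, -, h3⟩ := key ε hε
    exact h3.trans (by gcongr; exact le_of_tendsto_of_tendsto' h1 h fun n => (h2 n).1)

end Pool.Agent.Lib.helper33.Loeb
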