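import Mathlib

set_option autoImplicit false

namespace Pool.Agent.Lib.SPBifan

/-! Counterexample on seven elements: `0 < 1 < 6` in parallel with `0 < 2 < {3, 4} < 5 < 6`,
weight `1` on the edges `(0,1)` and `(1,6)` and `0` elsewhere. No linear extension uses both
weighted edges, while no series cut or paralleled bifan contains both. -/

def P7 : Type := Fin 7

instance : Fintype P7 := inferInstanceAs (Fintype (Fin 7))
instance : DecidableEq P7 := inferInstanceAs (DecidableEq (Fin 7))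
instance (n : ℕ) : OfNat P7 n := inferInstanceAs (OfNat (Fin 7) n)

def leB (x y : Fin 7) : Bool :=
  x == y || x == 0 || y == 6 || (x == 2 && (y == 3 || y == 4 || y == 5)) ||
    ((x == 3 || x == 4) && y == 5)

instance : PartialOrder P7 where
  le x y := leB x y = true
  le_refl := by decide
  le_trans := by decide
  le_antisymm := by decide

instance : DecidableRel (fun x y : P7 => x ≤ y) := fun x y =>
  inferInstanceAs (Decidable (leB x y = true))

instance : DecidableRel (fun x y : P7 => x < y) := fun x y =>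
  inferInstanceAs (Decidable (leB x y = true ∧ ¬ leB y x = true))

def cvB (x y : Fin 7) : Bool :=
  (x == 0 && (y == 1 || y == 2)) || (x == 2 && (y == 3 || y == 4)) ||
    ((x == 3 || x == 4) && y == 5) || ((x == 1 || x == 5) && y == 6)

lemma cov_iff (x y : P7) : x ⋖ y ↔ cvB x y = true := by
  have : ∀ x y : P7, (x < y ∧ ∀ c : P7, x < c → ¬ c < y) ↔ cvB x y = true := by decide
  exact this x y

def wt (x y : P7) : ℕ := if (x = 0 ∧ y = 1) ∨ (x = 1 ∧ y = 6) then 1 else 0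

lemma nfree : ¬ ∃ a b c d : P7, a < b ∧ c < b ∧ c < d ∧ ¬ a ≤ c ∧ ¬ c ≤ a ∧
    ¬ a ≤ d ∧ ¬ d ≤ a ∧ ¬ b ≤ d ∧ ¬ d ≤ b := by decide +kernel

lemma bip : ∃ col : P7 → Bool, ∀ x y : P7, x ⋖ y → col x ≠ col y :=
  ⟨fun x => x == 1 || x == 2 || x == 5, by simp only [cov_iff]; decide +kernel⟩

lemma cut2 : ∀ x y : P7, x ⋖ y →
    ∃ x' y' : P7, x' ⋖ y' ∧ x' ⋖ y ∧ x ⋖ y' ∧ (x' ≠ x ∨ y' ≠ y) := by
  simp only [cov_iff]; decide +kernel

lemma l02 : (0 : P7) < 2 := by decide
lemma l26 : (2 : P7) < 6 := by decide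
lemma n12 : (1 : P7) ≠ 2 := by decide
lemma c01 : (0 : P7) ⋖ 1 := (cov_iff _ _).2 (by decide)
lemma c16 : (1 : P7) ⋖ 6 := (cov_iff _ _).2 (by decide)
lemma w1 : wt 0 1 = 1 := by decide
lemma w2 : wt 1 6 = 1 := by decide

lemma nocut : ∀ y : P7, (0 : P7) ⋖ y → (1 : P7) ⋖ y → False := by
  simp only [cov_iff]; decide +kernel

lemma nofan : ∀ v u w z : P7, u ⋖ v → v ⋖ w → z ≠ v → (u ⋖ z ∨ z ⋖ u) → (w ⋖ z ∨ z ⋖ w) →
    ((0 : P7) = v ∨ (1 : P7) = v) → ((1 : P7) = v ∨ (6 : P7) = v) → False := by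
  simp only [cov_iff]; decide +kernel

end Pool.Agent.Lib.SPBifan
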