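import Pool.Agent.Lib.helper33.SubSem

/-!
Kernel-friendly branching programs computing the generating functions of `SubSem` modulo `M`.
-/

open Finset

namespace Pool.Agent.Lib.helper33.SubAlg

open Pool.Agent.Lib.helper33.SubSem

/-- Bit test. -/
def bit (m n : ℕ) : Bool := Nat.beq (Nat.land (Nat.shiftRight m n) 1) 1

/-- Set a bit. -/
def setb (D w : ℕ) : ℕ := Nat.lor D (Nat.shiftLeft 1 w)

theorem bit_eq (m n : ℕ) : bit m n = m.testBit n := by
  unfold bit Nat.testBit
  change Nat.beq ((m >>> n) &&& 1) 1 = _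
  rw [Nat.and_comm, Nat.one_and_eq_mod_two]
  rcases Nat.mod_two_eq_zero_or_one (m >>> n) with h | h <;> rw [h] <;> rfl

theorem bit_setb (D w y : ℕ) : bit (setb D w) y = true ↔ y = w ∨ bit D y = true := by
  rw [bit_eq, bit_eq]
  change (D ||| (1 <<< w)).testBit y = true ↔ _
  rw [Nat.testBit_or, Nat.one_shiftLeft, Nat.testBit_two_pow]
  simp only [Bool.or_eq_true, decide_eq_true_eq]
  exact ⟨fun h => h.elim Or.inr (fun h => Or.inl h.symm), fun h => h.elim (fun h => Or.inr h.symm) Or.inl⟩

/-- The vertices below `n` marked in `D`. -/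
def RD (n D : ℕ) : Finset ℕ := (range n).filter (fun y => bit D y = true)

theorem mem_RD {n D y : ℕ} (hy : y < n) : y ∈ RD n D ↔ bit D y = true := by
  simp [RD, hy]

theorem RD_setb {n D w : ℕ} (hw : w < n) : RD n (setb D w) = insert w (RD n D) := by
  ext y
  simp only [RD, mem_filter, mem_range, mem_insert, bit_setb]
  constructor
  · rintro ⟨h1, h2 | h2⟩
    · exact Or.inl h2
    · exact Or.inr ⟨h1, h2⟩
  · rintro (h | h)
    · exact ⟨h ▸ hw, Or.inl h⟩
    · exact ⟨h.1, Or.inr h.2⟩

theorem RD_low {n v : ℕ} (hv : v < n) : RD n (2 ^ (v + 1) - 1) = range (v + 1) := by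
  ext y
  simp only [RD, mem_filter, mem_range, bit_eq, Nat.testBit_two_pow_sub_one, decide_eq_true_eq]
  omega

theorem RD_card (n D : ℕ) : (RD n D).card ≤ n := by
  exact (card_le_card (filter_subset _ _)).trans (card_range n).le

/-- Requirements on the adjacency data. -/
structure Spec (n Δ : ℕ) (nb : ℕ → List ℕ) (nbf : ℕ → ℕ → List (ℕ × ℕ)) : Prop where
  s1 : ∀ u < n, ∀ w ∈ nb u, w < n ∧ u ∈ nb w ∧ w ≠ u
  s0 : ∀ u < n, (nb u).Nodup ∧ (nb u).length < Δ
  s2 : ∀ u < n, ∀ p ∈ nb u, (nbf u p).Nodup ∧ (nbf u p).length < Δ ∧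
    (∀ q ∈ nbf u p, q.2 = u ∧ q.1 ∈ nb u) ∧ ∀ w ∈ nb u, w = p ∨ (w, u) ∈ nbf u p

/-- Program for connected sets. -/
noncomputable def gs (nbf : ℕ → ℕ → List (ℕ × ℕ)) (x M f : ℕ) : ℕ → List (ℕ × ℕ) → ℕ :=
  Nat.rec (fun _ _ => 0) (fun _ ih D st => List.casesOn st 1 (fun q rest =>
    Bool.casesOn (bit D q.1)
      (Bool.casesOn ((nbf q.1 q.2).all (fun r => bit D r.1))
        (Nat.mod (Nat.add (ih (setb D q.1) rest)
          (Nat.mul x (ih (setb D q.1) (nbf q.1 q.2 ++ rest)))) M)
        (Nat.mod (Nat.mul (Nat.add x 1) (ih (setb D q.1) rest)) M))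
      (ih D rest))) f

theorem cast_mod (M a : ℕ) : ((Nat.mod a M : ℕ) : ZMod M) = a := ZMod.natCast_mod a M

variable {n Δ : ℕ} {nb : ℕ → List ℕ} {nbf : ℕ → ℕ → List (ℕ × ℕ)}

theorem gs_correct (S : Spec n Δ nb nbf) (x M : ℕ) : ∀ (f D : ℕ) (st : List (ℕ × ℕ)),
    (∀ q ∈ st, q.2 ∈ RD n D ∧ q.1 ∈ nb q.2) → st.length + Δ * (n - (RD n D).card) < f →
    ((gs nbf x M f D st : ℕ) : ZMod M) =
      Zs nb (x : ZMod M) {y | ∃ p, (y, p) ∈ st} (range n \ RD n D) := by
  intro f
  induction f with
  | zero => intro D st _ h; omega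
  | succ f ih =>
    intro D st hinv hf
    cases st with
    | nil =>
      rw [Zs_base _ _ _ _ (by simp)]
      exact Nat.cast_one
    | cons q rest =>
      obtain ⟨w, p⟩ := q
      have hq := hinv (w, p) (List.mem_cons_self ..)
      have hpn : p < n := mem_range.mp (filter_subset _ _ hq.1)
      obtain ⟨hwn, hpw, _⟩ := S.s1 p hpn w hq.2
      have hrest : ∀ q ∈ rest, q.2 ∈ RD n D ∧ q.1 ∈ nb q.2 :=
        fun q hq => hinv q (List.mem_cons_of_mem _ hq)
      simp only [List.length_cons] at hf
      change ((Bool.casesOn (bit D w)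
        (Bool.casesOn ((nbf w p).all (fun r => bit D r.1))
          (Nat.mod (Nat.add (gs nbf x M f (setb D w) rest)
            (Nat.mul x (gs nbf x M f (setb D w) (nbf w p ++ rest)))) M)
          (Nat.mod (Nat.mul (Nat.add x 1) (gs nbf x M f (setb D w) rest)) M))
        (gs nbf x M f D rest) : ℕ) : ZMod M) = _
      cases hb : bit D w with
      | true =>
        have hw := (mem_RD hwn).mpr hb
        simp only
        rw [ih D rest hrest (by omega)]
        apply Zs_congr
        intro y hy
        simp only [Set.mem_ofPred_eq, List.mem_cons, Prod.mk.injEq]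
        constructor
        · rintro ⟨p', h⟩; exact ⟨p', Or.inr h⟩
        · rintro ⟨p', h | h⟩
          · exact absurd (h.1 ▸ hw) (mem_sdiff.mp hy).2
          · exact ⟨p', h⟩
      | false =>
        have hw : w ∉ RD n D := fun h => by rw [mem_RD hwn, hb] at h; exact absurd h (by simp)
        have hR := RD_setb (D := D) hwn
        have hcard : (RD n (setb D w)).card = (RD n D).card + 1 := by
          rw [hR, card_insert_of_notMem hw]
        have hle := RD_card n (setb D w)
        obtain ⟨_, hlen, hsound, hcomp⟩ := S.s2 w hwn p hpw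
        have hm : Δ * (n - (RD n D).card) = Δ * (n - (RD n (setb D w)).card) + Δ := by
          rw [← mul_add_one]; congr 1; omega
        have hU : (range n \ RD n D).erase w = range n \ RD n (setb D w) := by
          rw [hR]; ext y; simp only [mem_erase, mem_sdiff, mem_insert]; tauto
        have hrest' : ∀ q ∈ rest, q.2 ∈ RD n (setb D w) ∧ q.1 ∈ nb q.2 :=
          fun q hq => ⟨hR ▸ mem_insert_of_mem (hrest q hq).1, (hrest q hq).2⟩
        have i1 := ih (setb D w) rest hrest' (by omega)
        have i2 := ih (setb D w) (nbf w p ++ rest) (by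
          intro q hq
          rcases List.mem_append.mp hq with h | h
          · obtain ⟨h1, h2⟩ := hsound q h
            rw [h1, hR]; exact ⟨mem_insert_self _ _, h2⟩
          · exact hrest' q h) (by rw [List.length_append]; omega)
        rw [Zs_branch nb _ (St := {y | ∃ p', (y, p') ∈ (w, p) :: rest}) (w := w)
          (mem_sdiff.mpr ⟨mem_range.mpr hwn, hw⟩) ⟨p, List.mem_cons_self ..⟩, hU]
        have c1 : Zs nb (x : ZMod M) {y | ∃ p', (y, p') ∈ (w, p) :: rest}
            (range n \ RD n (setb D w)) =
            Zs nb (x : ZMod M) {y | ∃ p', (y, p') ∈ rest} (range n \ RD n (setb D w)) := by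
          apply Zs_congr
          intro y hy
          have hy' := (mem_sdiff.mp hy).2
          rw [hR] at hy'
          simp only [Set.mem_ofPred_eq, List.mem_cons, Prod.mk.injEq]
          constructor
          · rintro ⟨p', h | h⟩
            · exact absurd (h.1 ▸ mem_insert_self _ _) hy'
            · exact ⟨p', h⟩
          · rintro ⟨p', h⟩; exact ⟨p', Or.inr h⟩
        have c2 : Zs nb (x : ZMod M) ({y | ∃ p', (y, p') ∈ (w, p) :: rest} ∪ {y | y ∈ nb w})
            (range n \ RD n (setb D w)) =
            Zs nb (x : ZMod M) {y | ∃ p', (y, p') ∈ nbf w p ++ rest}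
              (range n \ RD n (setb D w)) := by
          apply Zs_congr
          intro y hy
          have hy' := (mem_sdiff.mp hy).2
          rw [hR] at hy'
          simp only [Set.mem_union, Set.mem_ofPred_eq, List.mem_cons, Prod.mk.injEq,
            List.mem_append]
          constructor
          · rintro (⟨p', h | h⟩ | h)
            · exact absurd (h.1 ▸ mem_insert_self _ _) hy'
            · exact ⟨p', Or.inr h⟩
            · rcases hcomp y h with h1 | h1
              · exact absurd (h1 ▸ mem_insert_of_mem hq.1) hy'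
              · exact ⟨w, Or.inl h1⟩
          · rintro ⟨p', h | h⟩
            · exact Or.inr (hsound _ h).2
            · exact Or.inl ⟨p', Or.inr h⟩
        rw [c1, c2]
        cases ha : (nbf w p).all (fun r => bit D r.1) with
        | false =>
          simp only [cast_mod, Nat.add_eq, Nat.mul_eq, Nat.cast_add, Nat.cast_mul]
          rw [i1, i2]
        | true =>
          simp only [cast_mod, Nat.add_eq, Nat.mul_eq, Nat.cast_add, Nat.cast_mul, Nat.cast_one]
          have c3 : Zs nb (x : ZMod M) {y | ∃ p', (y, p') ∈ nbf w p ++ rest}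
              (range n \ RD n (setb D w)) =
              Zs nb (x : ZMod M) {y | ∃ p', (y, p') ∈ rest} (range n \ RD n (setb D w)) := by
            apply Zs_congr
            intro y hy
            have hy' := (mem_sdiff.mp hy).2
            rw [hR] at hy'
            simp only [Set.mem_ofPred_eq, List.mem_append]
            constructor
            · rintro ⟨p', h | h⟩
              · have := List.all_eq_true.mp ha _ h
                exact absurd (mem_insert_of_mem ((mem_RD (mem_range.mp
                  (mem_sdiff.mp hy).1)).mpr this)) hy'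
              · exact ⟨p', h⟩
            · rintro ⟨p', h⟩; exact ⟨p', Or.inr h⟩
          rw [c3, i1]; ring

/-- Invariant of the tree program. -/
structure Inv (n : ℕ) (nb : ℕ → List ℕ) (R : Finset ℕ) (st : List (ℕ × ℕ))
    (E : Finset (Sym2 ℕ)) : Prop where
  sub : ∀ y ∈ R, y < n
  a : ∀ q ∈ st, q.2 ∈ R ∧ q.1 ∈ nb q.2 ∧ (q.1 ∉ R → s(q.2, q.1) ∈ E)
  nd : st.Nodup
  b : ∀ p w, s(p, w) ∈ E → p ∈ R → w ∉ R → (w, p) ∈ st
  c : ∀ u < n, ∀ w ∈ nb u, u ∉ R → w ∉ R → s(u, w) ∈ E
  d : ∀ p w, s(p, w) ∈ E → w ∈ nb p

theorem Inv.skip {R : Finset ℕ} {w p : ℕ} {rest : List (ℕ × ℕ)} {E : Finset (Sym2 ℕ)}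
    (I : Inv n nb R ((w, p) :: rest) E) (hw : w ∈ R) : Inv n nb R rest E where
  sub := I.sub
  a := fun q hq => I.a q (List.mem_cons_of_mem _ hq)
  nd := (List.nodup_cons.mp I.nd).2
  b := fun p' w' h1 h2 h3 => (List.mem_cons.mp (I.b p' w' h1 h2 h3)).resolve_left
    (fun h => h3 ((Prod.mk.inj h).1 ▸ hw))
  c := I.c
  d := I.d

theorem Inv.excl {R : Finset ℕ} {w p : ℕ} {rest : List (ℕ × ℕ)} {E : Finset (Sym2 ℕ)}
    (I : Inv n nb R ((w, p) :: rest) E) (hw : w ∉ R) : Inv n nb R rest (E.erase s(p, w)) where
  sub := I.sub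
  a := fun q hq => by
    obtain ⟨h1, h2, h3⟩ := I.a q (List.mem_cons_of_mem _ hq)
    refine ⟨h1, h2, fun h => mem_erase.mpr ⟨fun hc => ?_, h3 h⟩⟩
    rcases Sym2.eq_iff.mp hc with ⟨e1, e2⟩ | ⟨e1, _⟩
    · exact (List.nodup_cons.mp I.nd).1 (by rw [← e1, ← e2]; exact hq)
    · exact hw (e1 ▸ h1)
  nd := (List.nodup_cons.mp I.nd).2
  b := fun p' w' h1 h2 h3 => (List.mem_cons.mp (I.b p' w' (mem_erase.mp h1).2 h2 h3)).resolve_left
    (fun h => (mem_erase.mp h1).1 (by rw [(Prod.mk.inj h).1, (Prod.mk.inj h).2]))
  c := fun u hu w' h1 h2 h3 => mem_erase.mpr ⟨fun hc => by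
    have hp := (I.a _ (List.mem_cons_self ..)).1
    rcases Sym2.eq_iff.mp hc with ⟨e1, _⟩ | ⟨_, e2⟩
    · exact h2 (e1 ▸ hp)
    · exact h3 (e2 ▸ hp), I.c u hu w' h1 h2 h3⟩
  d := fun p' w' h => I.d p' w' (mem_erase.mp h).2

theorem Inv.incl {R : Finset ℕ} {w p : ℕ} {rest : List (ℕ × ℕ)} {E : Finset (Sym2 ℕ)}
    (I : Inv n nb R ((w, p) :: rest) E) (hw : w ∉ R) (hwn : w < n) (l : List (ℕ × ℕ))
    (l1 : l.Nodup) (l2 : ∀ q ∈ l, q.2 = w ∧ q.1 ∈ nb w) (l3 : ∀ y ∈ nb w, y ∈ R ∨ (y, w) ∈ l) :
    Inv n nb (insert w R) (l ++ rest) (E.erase s(p, w)) where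
  sub := fun y hy => (mem_insert.mp hy).elim (fun h => h ▸ hwn) (I.sub y)
  a := fun q hq => by
    have hp := (I.a _ (List.mem_cons_self ..)).1
    rcases List.mem_append.mp hq with h | h
    · obtain ⟨h1, h2⟩ := l2 q h
      rw [h1]
      refine ⟨mem_insert_self _ _, h2, fun h3 => mem_erase.mpr ⟨fun hc => ?_,
        I.c w hwn _ h2 hw (fun h4 => h3 (mem_insert_of_mem h4))⟩⟩
      rcases Sym2.eq_iff.mp hc with ⟨e1, _⟩ | ⟨_, e2⟩
      · exact hw (e1 ▸ hp)
      · exact h3 (e2 ▸ mem_insert_of_mem hp)
    · obtain ⟨h1, h2, h3⟩ := I.a q (List.mem_cons_of_mem _ h)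
      refine ⟨mem_insert_of_mem h1, h2, fun h4 => mem_erase.mpr ⟨fun hc => ?_,
        h3 (fun h5 => h4 (mem_insert_of_mem h5))⟩⟩
      rcases Sym2.eq_iff.mp hc with ⟨_, e2⟩ | ⟨e1, _⟩
      · exact h4 (e2 ▸ mem_insert_self _ _)
      · exact hw (e1 ▸ h1)
  nd := List.nodup_append.mpr ⟨l1, (List.nodup_cons.mp I.nd).2, fun a ha b hb hab => by
    have h1 := (l2 a ha).1
    have h2 := (I.a b (List.mem_cons_of_mem _ hb)).1
    rw [← hab, h1] at h2
    exact hw h2⟩
  b := fun p' w' h1 h2 h3 => by
    rcases mem_insert.mp h2 with rfl | h2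
    · exact List.mem_append_left _ ((l3 w' (I.d _ _ (mem_erase.mp h1).2)).resolve_left
        (fun h => h3 (mem_insert_of_mem h)))
    · exact List.mem_append_right _ ((List.mem_cons.mp (I.b p' w' (mem_erase.mp h1).2 h2
        (fun h => h3 (mem_insert_of_mem h)))).resolve_left
        (fun h => h3 ((Prod.mk.inj h).1 ▸ mem_insert_self _ _)))
  c := fun u hu w' h1 h2 h3 => mem_erase.mpr ⟨fun hc => by
    have hp := (I.a _ (List.mem_cons_self ..)).1
    rcases Sym2.eq_iff.mp hc with ⟨e1, _⟩ | ⟨_, e2⟩
    · exact h2 (e1 ▸ mem_insert_of_mem hp)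
    · exact h3 (e2 ▸ mem_insert_of_mem hp),
    I.c u hu w' h1 (fun h => h2 (mem_insert_of_mem h)) (fun h => h3 (mem_insert_of_mem h))⟩
  d := fun p' w' h => I.d p' w' (mem_erase.mp h).2

/-- Run-time test for the triangle rule. -/
noncomputable def triok (nb : ℕ → List ℕ) (D : ℕ) (q : ℕ × ℕ) (rest : List (ℕ × ℕ)) : Bool :=
  List.casesOn rest false (fun r _ => decide (r.2 = q.2 ∧ bit D r.1 = false ∧ r.1 ≠ q.1 ∧
    q.1 ∈ nb r.1 ∧ ∀ y ∈ nb r.1, y = q.2 ∨ y = q.1))

/-- Program for subtrees. -/
noncomputable def gt (nb : ℕ → List ℕ) (nbf : ℕ → ℕ → List (ℕ × ℕ)) (tri : ℕ → ℕ → Bool)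
    (x M f : ℕ) : ℕ → List (ℕ × ℕ) → ℕ :=
  Nat.rec (fun _ _ => 0) (fun _ ih D st => List.casesOn st 1 (fun q rest =>
    Bool.casesOn (bit D q.1)
      (Bool.casesOn (Bool.casesOn (tri q.1 q.2) false (triok nb D q rest))
        (Bool.casesOn (nbf q.1 q.2).isEmpty
          (Nat.mod (Nat.add (ih D rest) (Nat.mul x (ih (setb D q.1) (nbf q.1 q.2 ++ rest)))) M)
          (Nat.mod (Nat.mul (Nat.add x 1) (ih D rest)) M))
        (Nat.mod (ih D rest.tail + x * ih (setb D (rest.headD (0, 0)).1) rest.tail +
          (x + 3 * x * x) *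
            ih (setb (setb D (rest.headD (0, 0)).1) q.1) (nbf q.1 q.2 ++ rest.tail)) M))
      (ih D rest))) f

theorem gt_correct (S : Spec n Δ nb nbf) (tri : ℕ → ℕ → Bool) (x M : ℕ) :
    ∀ (f D : ℕ) (st : List (ℕ × ℕ)) (E : Finset (Sym2 ℕ)),
    Inv n nb (RD n D) st E → st.length + Δ * (n - (RD n D).card) < f →
    ((gt nb nbf tri x M f D st : ℕ) : ZMod M) = Z (x : ZMod M) (RD n D) E := by
  intro f
  induction f with
  | zero => intro D st E _ h; omega
  | succ f ih =>
    intro D st E I hf
    cases st with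
    | nil =>
      rw [Z_base _ _ _ (fun p w h1 h2 => by
        by_contra h3; exact absurd (I.b p w h1 h2 h3) (by simp))]
      exact Nat.cast_one
    | cons q rest =>
      obtain ⟨w, p⟩ := q
      obtain ⟨hp, hwp, he⟩ := I.a (w, p) (List.mem_cons_self ..)
      have hpn : p < n := I.sub p hp
      obtain ⟨hwn, hpw, _⟩ := S.s1 p hpn w hwp
      simp only [List.length_cons] at hf
      change ((Bool.casesOn (bit D w)
        (Bool.casesOn (Bool.casesOn (tri w p) false (triok nb D (w, p) rest))
          (Bool.casesOn (nbf w p).isEmpty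
            (Nat.mod (Nat.add (gt nb nbf tri x M f D rest)
              (Nat.mul x (gt nb nbf tri x M f (setb D w) (nbf w p ++ rest)))) M)
            (Nat.mod (Nat.mul (Nat.add x 1) (gt nb nbf tri x M f D rest)) M))
          (Nat.mod (gt nb nbf tri x M f D rest.tail +
            x * gt nb nbf tri x M f (setb D (rest.headD (0, 0)).1) rest.tail +
            (x + 3 * x * x) * gt nb nbf tri x M f (setb (setb D (rest.headD (0, 0)).1) w)
              (nbf w p ++ rest.tail)) M))
        (gt nb nbf tri x M f D rest) : ℕ) : ZMod M) = _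
      cases hb : bit D w with
      | true => exact ih D rest E (I.skip ((mem_RD hwn).mpr hb)) (by omega)
      | false =>
        have hw : w ∉ RD n D := fun h => by rw [mem_RD hwn, hb] at h; exact absurd h (by simp)
        have he' := he hw
        simp only at he' hp hwp
        obtain ⟨hnd, hlen, hsound, hcomp⟩ := S.s2 w hwn p hpw
        have i1 := ih D rest _ (I.excl hw) (by omega)
        have hgen : ((Bool.casesOn (nbf w p).isEmpty
            (Nat.mod (Nat.add (gt nb nbf tri x M f D rest)
              (Nat.mul x (gt nb nbf tri x M f (setb D w) (nbf w p ++ rest)))) M)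
            (Nat.mod (Nat.mul (Nat.add x 1) (gt nb nbf tri x M f D rest)) M) : ℕ) : ZMod M) =
            Z (x : ZMod M) (RD n D) E := by
          rw [Z_branch _ he' hp hw]
          cases hl : (nbf w p).isEmpty with
          | false =>
            have hR := RD_setb (D := D) hwn
            have hcard : (RD n (setb D w)).card = (RD n D).card + 1 := by
              rw [hR, card_insert_of_notMem hw]
            have hle := RD_card n (setb D w)
            have hm : Δ * (n - (RD n D).card) = Δ * (n - (RD n (setb D w)).card) + Δ := by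
              rw [← mul_add_one]; congr 1; omega
            have i2 := ih (setb D w) (nbf w p ++ rest) _ (hR ▸ I.incl hw hwn _ hnd hsound
              (fun y hy => (hcomp y hy).imp (fun h : y = p => h ▸ hp) id))
              (by rw [List.length_append]; omega)
            simp only [cast_mod, Nat.add_eq, Nat.mul_eq, Nat.cast_add, Nat.cast_mul]
            rw [i1, i2, hR]
          | true =>
            simp only [cast_mod, Nat.add_eq, Nat.mul_eq, Nat.cast_add, Nat.cast_mul, Nat.cast_one]
            rw [Z_irrel1 _ w, i1]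
            · ring
            · intro e he hwe
              obtain ⟨y, rfl⟩ := Sym2.mem_iff_exists.mp hwe
              rcases hcomp y (I.d _ _ (mem_erase.mp he).2) with rfl | h
              · exact (mem_erase.mp he).1 Sym2.eq_swap
              · rw [List.isEmpty_iff.mp hl] at h; simp at h
        cases ht : tri w p with
        | false => exact hgen
        | true =>
          cases hok : triok nb D (w, p) rest with
          | false => exact hgen
          | true =>
            cases rest with
            | nil => exact absurd hok (by simp [triok])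
            | cons r rest' =>
              obtain ⟨c, p'⟩ := r
              have hok' := of_decide_eq_true hok
              simp only at hok'
              obtain ⟨rfl, hbc, hcw, hwc, hall⟩ := hok'
              have I1 := I.excl hw
              obtain ⟨_, hcp, hec⟩ := I.a (c, p') (List.mem_cons_of_mem _ (List.mem_cons_self ..))
              obtain ⟨hcn, _, _⟩ := S.s1 p' hpn c hcp
              have hc : c ∉ RD n D := fun h => by
                rw [mem_RD hcn, hbc] at h; exact absurd h (by simp)
              have I2 := I1.excl hc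
              have I3 := I1.incl hc hcn [(w, c)] (by simp) (by simpa using hwc)
                (fun y hy => (hall y hy).imp (fun h : y = p' => h ▸ hp) (fun h => by simp [h]))
              have hw' : w ∉ insert c (RD n D) := by simp [hcw.symm, hw]
              have I4 := Inv.excl I3 hw'
              have I5 := Inv.incl I3 hw' hwn _ hnd hsound
                (fun y hy => (hcomp y hy).imp (fun h : y = p' => h ▸ mem_insert_of_mem hp) id)
              have hR := RD_setb (D := D) hcn
              have hR2 := RD_setb (D := setb D c) hwn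
              have hcard : (RD n (setb D c)).card = (RD n D).card + 1 := by
                rw [hR, card_insert_of_notMem hc]
              have hcard2 : (RD n (setb (setb D c) w)).card = (RD n D).card + 2 := by
                rw [hR2, hR, card_insert_of_notMem hw', card_insert_of_notMem hc]
              have hle := RD_card n (setb (setb D c) w)
              have hm : Δ * (n - (RD n D).card) = Δ * (n - (RD n (setb D c)).card) + Δ := by
                rw [← mul_add_one]; congr 1; omega
              have hm2 : Δ * (n - (RD n (setb D c)).card) =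
                  Δ * (n - (RD n (setb (setb D c) w)).card) + Δ := by
                rw [← mul_add_one]; congr 1; omega
              simp only [List.length_cons] at hf
              have j1 := ih D rest' _ I2 (by omega)
              have j2 := ih (setb D c) rest' _ (hR ▸ I4) (by omega)
              have j3 := ih (setb (setb D c) w) (nbf w p' ++ rest') _ (by rw [hR2, hR]; exact I5)
                (by rw [List.length_append]; omega)
              rw [Z_tri _ he' (hec hc) (I.c c hcn w hwc hc hw) hp hw hc hcw
                (fun y hy => hall y (I.d _ _ hy))]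
              simp only [cast_mod, List.tail_cons, List.headD_cons, Nat.cast_add, Nat.cast_mul,
                Nat.cast_ofNat]
              rw [j1, j2, j3, hR2, hR]

end Pool.Agent.Lib.helper33.SubAlg
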