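import Pool.Agent.Lib.helper33.SubTot

/-!
A cycle of length 512 with 14 pendant vertices at each of the vertices 0 and 164 and a triangle
on each of the three edges starting at 38, 82 and 125.
-/

namespace Pool.Agent.Lib.helper33.SubBig

/-- Neighbour lists. -/
def nb (u : ℕ) : List ℕ :=
  if u = 0 then (List.range 14).map (· + 512) ++ [1, 511] else
  if u = 511 then [0, 510] else
  if u = 164 then (List.range 14).map (· + 526) ++ [165, 163] else
  if u = 38 then [39, 540, 37] else if u = 39 then [38, 540, 40] else
  if u = 82 then [83, 541, 81] else if u = 83 then [82, 541, 84] else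
  if u = 125 then [126, 542, 124] else if u = 126 then [125, 542, 127] else
  if u = 540 then [38, 39] else if u = 541 then [82, 83] else if u = 542 then [125, 126] else
  if u < 512 then [u + 1, u - 1] else if u < 526 then [0] else [164]

/-- Neighbours other than the parent. -/
def nbf (u p : ℕ) : List (ℕ × ℕ) :=
  Bool.casesOn (SubAlg.bit (2 ^ 0 + 3 * 2 ^ 38 + 3 * 2 ^ 82 + 3 * 2 ^ 125 + 2 ^ 164 +
      (2 ^ 32 - 1) * 2 ^ 511) u)
    [(Nat.sub (Nat.add u u) p, u)] (((nb u).filter (fun w => w != p)).map (fun w => (w, u)))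

/-- Where to try the triangle rule. -/
def tri (w p : ℕ) : Bool := SubAlg.bit (2 ^ 77 + 2 ^ 165 + 2 ^ 251) (Nat.add w p)

theorem spec : SubAlg.Spec 543 17 nb nbf := SubTot.spec_of (by decide +kernel)

end Pool.Agent.Lib.helper33.SubBig
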