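import Pool.Agent.Lib.helper33.SubBigD

/-! Number and total size of the connected sets of the example graph. -/

namespace Pool.Agent.Lib.helper33.SubBig

theorem totS : {T : Set (Fin 543) | ((SubTot.gOf spec).induce T).Connected}.ncard =
      144753807820331 ∧
    ∑ᶠ T ∈ {T : Set (Fin 543) | ((SubTot.gOf spec).induce T).Connected}, T.ncard =
      60722730001995350 := by
  have h := SubTot.set_total spec (SubTot.rep_gOf spec) (2 ^ 570) 10000
    (by norm_num) (by norm_num) (by decide +kernel) _ _ rfl rfl
  rw [h.1, h.2]
  decide +kernel

end Pool.Agent.Lib.helper33.SubBig
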