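import Pool.Agent.Lib.helper33.SubBigD

/-! Number and total order of the subtrees of the example graph. -/

namespace Pool.Agent.Lib.helper33.SubBig

theorem totT : {H : (SubTot.gOf spec).Subgraph | H.coe.IsTree}.ncard = 1128562469866103 ∧
    ∑ᶠ H ∈ {H : (SubTot.gOf spec).Subgraph | H.coe.IsTree}, H.verts.ncard =
      473383159499743000 := by
  have h := SubTot.tree_total spec (SubTot.rep_gOf spec) tri (2 ^ 1120) 10000 1092
    (by norm_num) (by norm_num) (by decide +kernel) (by decide +kernel) _ _ rfl rfl
  rw [h.1, h.2]
  decide +kernel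

end Pool.Agent.Lib.helper33.SubBig
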