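import Pool.Agent.Lib.helper33.SubAlg

/-!
Counting subtrees and connected sets of a finite graph through the programs of `SubAlg`.
-/

open Finset

namespace Pool.Agent.Lib.helper33.SubGraph

open Pool.Agent.Lib.helper33.SubSem Pool.Agent.Lib.helper33.SubAlg

variable {V : Type*} {G : SimpleGraph V} {n Δ : ℕ} {nb : ℕ → List ℕ}
  {nbf : ℕ → ℕ → List (ℕ × ℕ)} {φ : V → ℕ}

/-- `φ` numbers the vertices of `G` by `0, …, n - 1` and `nb` lists the neighbours. -/
structure Rep (G : SimpleGraph V) (n : ℕ) (nb : ℕ → List ℕ) (φ : V → ℕ) : Prop where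
  inj : Function.Injective φ
  lt : ∀ v, φ v < n
  surj : ∀ i < n, ∃ v, φ v = i
  adj : ∀ u v, G.Adj u v ↔ φ v ∈ nb (φ u)

/-- Edges with both ends at least `v`. -/
def Ev (n : ℕ) (nb : ℕ → List ℕ) (v : ℕ) : Finset (Sym2 ℕ) :=
  ((range n).biUnion (fun u => (nb u).toFinset.image (fun w => s(u, w)))).filter
    (fun e => ∀ y ∈ e.toFinset, v ≤ y)

theorem mem_Ev (S : Spec n Δ nb nbf) {v p w : ℕ} :
    s(p, w) ∈ Ev n nb v ↔ p < n ∧ w ∈ nb p ∧ v ≤ p ∧ v ≤ w := by
  simp only [Ev, mem_filter, mem_biUnion, mem_range, mem_image, List.mem_toFinset,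
    Sym2.mem_toFinset, Sym2.mem_iff, forall_eq_or_imp, forall_eq]
  constructor
  · rintro ⟨⟨u, hu, y, hy, h⟩, h1, h2⟩
    rcases Sym2.eq_iff.mp h with ⟨rfl, rfl⟩ | ⟨rfl, rfl⟩
    · exact ⟨hu, hy, h1, h2⟩
    · exact ⟨(S.s1 _ hu _ hy).1, (S.s1 _ hu _ hy).2.1, h1, h2⟩
  · rintro ⟨h1, h2, h3, h4⟩
    exact ⟨⟨p, h1, w, h2, rfl⟩, h3, h4⟩

theorem card_Ev (v : ℕ) : (Ev n nb v).card ≤ ∑ u ∈ range n, (nb u).length :=
  (card_le_card (filter_subset _ _)).trans (card_biUnion_le.trans (sum_le_sum (fun _ _ =>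
    card_image_le.trans (List.toFinset_card_le _))))

variable [Finite V]

/-- The numbered edges of a subgraph. -/
noncomputable def FH (φ : V → ℕ) (H : G.Subgraph) : Finset (Sym2 ℕ) :=
  (Set.toFinite (Sym2.map φ '' H.edgeSet)).toFinset

theorem mem_FH {H : G.Subgraph} {a b : ℕ} :
    s(a, b) ∈ FH φ H ↔ ∃ u v, H.Adj u v ∧ φ u = a ∧ φ v = b := by
  simp only [FH, Set.Finite.mem_toFinset, Set.mem_image]
  constructor
  · rintro ⟨e, he, h⟩
    induction e using Sym2.ind with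
    | h u v =>
      rw [Sym2.map_mk] at h
      rcases Sym2.eq_iff.mp h with ⟨h1, h2⟩ | ⟨h1, h2⟩
      · exact ⟨u, v, he, h1, h2⟩
      · exact ⟨v, u, H.symm.symm _ _ he, h2, h1⟩
  · rintro ⟨u, v, h, rfl, rfl⟩
    exact ⟨s(u, v), h, rfl⟩

theorem card_FH (hφ : Function.Injective φ) (H : G.Subgraph) :
    (FH φ H).card = Nat.card H.coe.edgeSet := by
  rw [FH, ← Set.ncard_eq_toFinset_card _ (Set.toFinite _),
    Set.ncard_image_of_injective _ (Sym2.map.injective hφ),
    ← SimpleGraph.Subgraph.image_coe_edgeSet_coe,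
    Set.ncard_image_of_injective _ (Sym2.map.injective Subtype.val_injective)]
  rfl

theorem conn_iff (hφ : Function.Injective φ) (H : G.Subgraph) {v0 : V} (h0 : v0 ∈ H.verts) :
    H.coe.Connected ↔ ∀ u ∈ H.verts, Reach (FH φ H) {φ v0} (φ u) := by
  constructor
  · intro hc u hu
    have h := (SimpleGraph.reachable_iff_reflTransGen _ _).mp (hc.preconnected ⟨v0, h0⟩ ⟨u, hu⟩)
    have key : ∀ b : H.verts, Relation.ReflTransGen H.coe.Adj ⟨v0, h0⟩ b →
        Reach (FH φ H) {φ v0} (φ b) := by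
      intro b hb
      induction hb with
      | refl => exact Reach.base (mem_singleton_self _)
      | tail _ h1 ih => exact Reach.step ih (mem_FH.mpr ⟨_, _, h1, rfl, rfl⟩)
    exact key _ h
  · intro h
    rw [SimpleGraph.connected_iff_exists_forall_reachable]
    refine ⟨⟨v0, h0⟩, fun w => ?_⟩
    have key : ∀ y, Reach (FH φ H) {φ v0} y →
        ∃ u : H.verts, φ u = y ∧ H.coe.Reachable ⟨v0, h0⟩ u := by
      intro y hy
      induction hy with
      | base h1 => exact ⟨⟨v0, h0⟩, (mem_singleton.mp h1).symm, SimpleGraph.Reachable.refl _⟩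
      | step _ he ih =>
        obtain ⟨u, hu, hr⟩ := ih
        obtain ⟨a, b, hab, ha, hb⟩ := mem_FH.mp he
        have : a = u := hφ (ha.trans hu.symm)
        subst this
        exact ⟨⟨b, H.edge_vert (H.symm.symm _ _ hab)⟩, hb,
          hr.trans (SimpleGraph.Adj.reachable hab)⟩
    obtain ⟨u, hu, hr⟩ := key _ (h w w.2)
    rwa [← Subtype.ext (hφ hu)]

theorem supp_FH {H : G.Subgraph} {y : ℕ} (hy : y ∈ supp (FH φ H)) : ∃ u ∈ H.verts, φ u = y := by
  obtain ⟨e, he, hye⟩ := mem_supp.mp hy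
  obtain ⟨z, rfl⟩ := Sym2.mem_iff_exists.mp hye
  obtain ⟨u, v, h, h1, _⟩ := mem_FH.mp he
  exact ⟨u, H.edge_vert h, h1⟩

theorem image_verts (H : G.Subgraph) {v0 : V} (h0 : v0 ∈ H.verts)
    (h : ∀ u ∈ H.verts, Reach (FH φ H) {φ v0} (φ u)) :
    φ '' H.verts = (insert (φ v0) (supp (FH φ H)) : Finset ℕ) := by
  ext y
  simp only [Set.mem_image, coe_insert, Set.mem_insert_iff, mem_coe]
  constructor
  · rintro ⟨u, hu, rfl⟩
    have := h u hu
    generalize φ u = y at this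
    cases this with
    | base h1 => exact Or.inl (mem_singleton.mp h1)
    | step _ he => exact Or.inr (mem_supp.mpr ⟨_, he, Sym2.mem_mk_right _ _⟩)
  · rintro (rfl | hy)
    · exact ⟨v0, h0, rfl⟩
    · exact supp_FH hy

theorem ncard_verts (hφ : Function.Injective φ) (H : G.Subgraph) {v0 : V} (h0 : v0 ∈ H.verts)
    (h : ∀ u ∈ H.verts, Reach (FH φ H) {φ v0} (φ u)) :
    H.verts.ncard = (supp (FH φ H) \ {φ v0}).card + 1 := by
  rw [← Set.ncard_image_of_injective _ hφ, image_verts H h0 h, Set.ncard_coe_finset,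
    sdiff_singleton_eq_erase, ← card_insert_of_notMem (notMem_erase _ _)]
  congr 1
  ext y
  simp only [mem_insert, mem_erase]
  tauto

theorem tree_iff (hφ : Function.Injective φ) (H : G.Subgraph) {v0 : V} (h0 : v0 ∈ H.verts) :
    H.coe.IsTree ↔ (∀ u ∈ H.verts, Reach (FH φ H) {φ v0} (φ u)) ∧
      (FH φ H).card + 1 = H.verts.ncard := by
  rw [SimpleGraph.isTree_iff_connected_and_card, conn_iff hφ H h0, card_FH hφ]
  rfl

omit [Finite V] in
theorem exists_min (φ : V → ℕ) {T : Set V} (h : T.Nonempty) :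
    ∃ v0 ∈ T, φ v0 = sInf (φ '' T) ∧ ∀ u ∈ T, φ v0 ≤ φ u := by
  obtain ⟨v0, h0, h1⟩ := Nat.sInf_mem (h.image φ)
  exact ⟨v0, h0, h1, fun u hu => h1 ▸ Nat.sInf_le ⟨u, hu, rfl⟩⟩

variable {A : Type*} [CommSemiring A]

theorem tree_sum (S : Spec n Δ nb nbf) (R : Rep G n nb φ) (x : A) :
    ∑ H ∈ (Set.toFinite {H : G.Subgraph | H.coe.IsTree}).toFinset, x ^ H.verts.ncard =
      ∑ v ∈ range n, x * Z x {v} (Ev n nb v) := by
  classical
  have e : ∀ v, x * Z x {v} (Ev n nb v) =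
      ∑ F ∈ (Ev n nb v).powerset.filter (Good {v}), x ^ (F.card + 1) := by
    intro v
    rw [Z, ← sum_filter, mul_sum]
    exact sum_congr rfl (fun F _ => by ring)
  rw [sum_congr rfl (fun v _ => e v), sum_sigma']
  have hne : ∀ H : G.Subgraph, H.coe.IsTree → H.verts.Nonempty := fun H h =>
    Set.nonempty_coe_sort.mp h.connected.nonempty
  refine sum_nbij (fun H => ⟨sInf (φ '' H.verts), FH φ H⟩) ?_ ?_ ?_ ?_
  · intro H hH
    have hT : H.coe.IsTree := by simpa using hH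
    obtain ⟨v0, h0, h1, h2⟩ := exists_min φ (hne H hT)
    obtain ⟨h3, h4⟩ := (tree_iff R.inj H h0).mp hT
    simp only [mem_sigma, mem_range, mem_filter, mem_powerset]
    rw [← h1]
    refine ⟨R.lt _, fun e he => ?_, fun y hy => ?_, ?_⟩
    · induction e using Sym2.ind with
      | h a b =>
        obtain ⟨u, v, h, rfl, rfl⟩ := mem_FH.mp he
        exact (mem_Ev S).mpr ⟨R.lt _, (R.adj _ _).mp (H.adj_sub h), h2 _ (H.edge_vert h),
          h2 _ (H.edge_vert (H.symm.symm _ _ h))⟩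
    · obtain ⟨u, hu, rfl⟩ := supp_FH hy
      exact h3 u hu
    · have := ncard_verts R.inj H h0 h3
      omega
  · intro H hH H' hH' h
    have hT : H.coe.IsTree := by simpa using hH
    have hT' : H'.coe.IsTree := by simpa using hH'
    obtain ⟨v0, h0, h1, _⟩ := exists_min φ (hne H hT)
    obtain ⟨v0', h0', h1', _⟩ := exists_min φ (hne H' hT')
    simp only [Sigma.mk.injEq, heq_eq_eq] at h
    have a := image_verts H h0 ((tree_iff R.inj H h0).mp hT).1
    have a' := image_verts H' h0' ((tree_iff R.inj H' h0').mp hT').1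
    apply SimpleGraph.Subgraph.ext
    · apply R.inj.image_injective
      rw [a, a', h1, h1', h.1, h.2]
    · ext u v
      have key : ∀ K : G.Subgraph, K.Adj u v ↔ s(φ u, φ v) ∈ FH φ K := fun K =>
        ⟨fun h => mem_FH.mpr ⟨u, v, h, rfl, rfl⟩, fun h => by
          obtain ⟨a, b, hab, ha, hb⟩ := mem_FH.mp h
          rwa [← R.inj ha, ← R.inj hb]⟩
      rw [key, key, h.2]
  · rintro ⟨v, F⟩ hF
    simp only [coe_sigma, Set.mem_sigma_iff, mem_coe, mem_range, mem_filter, mem_powerset] at hF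
    obtain ⟨hv, hFE, hg1, hg2⟩ := hF
    obtain ⟨v0, rfl⟩ := R.surj v hv
    let H : G.Subgraph :=
      { verts := {u | u = v0 ∨ φ u ∈ supp F}
        Adj := fun a b => s(φ a, φ b) ∈ F
        adj_sub := fun h => (R.adj _ _).mpr ((mem_Ev S).mp (hFE h)).2.1
        edge_vert := fun h => Or.inr (mem_supp.mpr ⟨_, h, Sym2.mem_mk_left _ _⟩)
        symm := ⟨fun a b h => (show s(φ a, φ b) = s(φ b, φ a) from Sym2.eq_swap) ▸ h⟩ }
    have hFH : FH φ H = F := by
      ext e
      induction e using Sym2.ind with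
      | h a b =>
        rw [mem_FH]
        constructor
        · rintro ⟨u, v, h, rfl, rfl⟩; exact h
        · intro h
          obtain ⟨h1, h2, _⟩ := (mem_Ev S).mp (hFE h)
          obtain ⟨u, rfl⟩ := R.surj a h1
          obtain ⟨w, rfl⟩ := R.surj b (S.s1 _ h1 _ h2).1
          exact ⟨u, w, h, rfl, rfl⟩
    have h0 : v0 ∈ H.verts := Or.inl rfl
    have hr : ∀ u ∈ H.verts, Reach (FH φ H) {φ v0} (φ u) := by
      rw [hFH]
      rintro u (rfl | hu)
      · exact Reach.base (mem_singleton_self _)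
      · exact hg1 _ hu
    refine ⟨H, ?_, ?_⟩
    · simp only [Set.Finite.coe_toFinset, Set.mem_ofPred_eq]
      refine (tree_iff R.inj H h0).mpr ⟨hr, ?_⟩
      rw [ncard_verts R.inj H h0 hr, hFH, hg2]
    · simp only [Sigma.mk.injEq, heq_eq_eq]
      refine ⟨le_antisymm (Nat.sInf_le ⟨v0, h0, rfl⟩) (le_csInf ⟨_, v0, h0, rfl⟩ ?_), hFH⟩
      rintro _ ⟨u, rfl | hu, rfl⟩
      · exact le_rfl
      · obtain ⟨e, he, hye⟩ := mem_supp.mp hu
        obtain ⟨z, rfl⟩ := Sym2.mem_iff_exists.mp hye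
        exact ((mem_Ev S).mp (hFE he)).2.2.1
  · intro H hH
    have hT : H.coe.IsTree := by simpa using hH
    obtain ⟨v0, h0⟩ := hne H hT
    rw [((tree_iff R.inj H h0).mp hT).2]

/-- The numbered vertices of a set other than `v`. -/
noncomputable def XS (φ : V → ℕ) (T : Set V) (v : ℕ) : Finset ℕ :=
  (Set.toFinite (φ '' T)).toFinset.erase v

theorem mem_XS {T : Set V} {v y : ℕ} : y ∈ XS φ T v ↔ y ≠ v ∧ ∃ u ∈ T, φ u = y := by
  simp [XS]

theorem set_iff (R : Rep G n nb φ) (T : Set V) {v0 : V} (h0 : v0 ∈ T) :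
    (G.induce T).Connected ↔
      ∀ y ∈ XS φ T (φ v0), ReachS nb (XS φ T (φ v0)) {y | y ∈ nb (φ v0)} y := by
  constructor
  · intro hc y hy
    obtain ⟨hne, u, hu, rfl⟩ := mem_XS.mp hy
    have h := (SimpleGraph.reachable_iff_reflTransGen _ _).mp (hc.preconnected ⟨v0, h0⟩ ⟨u, hu⟩)
    have key : ∀ b : T, Relation.ReflTransGen (G.induce T).Adj ⟨v0, h0⟩ b →
        φ b = φ v0 ∨ ReachS nb (XS φ T (φ v0)) {y | y ∈ nb (φ v0)} (φ b) := by
      intro b hb
      induction hb with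
      | refl => exact Or.inl rfl
      | @tail a b _ h1 ih =>
        by_cases hb : φ b = φ v0
        · exact Or.inl hb
        · have hX : φ b ∈ XS φ T (φ v0) := mem_XS.mpr ⟨hb, b, b.2, rfl⟩
          have hadj : φ b ∈ nb (φ a) := (R.adj _ _).mp h1
          rcases ih with ih | ih
          · exact Or.inr (ReachS.base (ih ▸ hadj) hX)
          · exact Or.inr (ReachS.step ih hadj hX)
    exact (key _ h).resolve_left hne
  · intro h
    rw [SimpleGraph.connected_iff_exists_forall_reachable]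
    refine ⟨⟨v0, h0⟩, fun w => ?_⟩
    have key : ∀ y, ReachS nb (XS φ T (φ v0)) {y | y ∈ nb (φ v0)} y →
        ∃ u : T, φ u = y ∧ (G.induce T).Reachable ⟨v0, h0⟩ u := by
      intro y hy
      induction hy with
      | base h1 h2 =>
        obtain ⟨_, u, hu, rfl⟩ := mem_XS.mp h2
        exact ⟨⟨u, hu⟩, rfl, SimpleGraph.Adj.reachable ((R.adj v0 u).mpr h1)⟩
      | step _ h1 h2 ih =>
        obtain ⟨a, rfl, hr⟩ := ih
        obtain ⟨_, u, hu, rfl⟩ := mem_XS.mp h2
        exact ⟨⟨u, hu⟩, rfl, hr.trans (SimpleGraph.Adj.reachable ((R.adj a u).mpr h1))⟩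
    by_cases hw : φ w = φ v0
    · rw [show w = ⟨v0, h0⟩ from Subtype.ext (R.inj hw)]
    · obtain ⟨u, hu, hr⟩ := key _ (h _ (mem_XS.mpr ⟨hw, w, w.2, rfl⟩))
      rwa [← Subtype.ext (R.inj hu)]

theorem set_sum (R : Rep G n nb φ) (x : A) :
    ∑ T ∈ (Set.toFinite {T : Set V | (G.induce T).Connected}).toFinset, x ^ T.ncard =
      ∑ v ∈ range n, x * Zs nb x {y | y ∈ nb v} (Ioo v n) := by
  classical
  have e : ∀ v, x * Zs nb x {y | y ∈ nb v} (Ioo v n) =
      ∑ X ∈ (Ioo v n).powerset.filter (fun X => ∀ y ∈ X, ReachS nb X {y | y ∈ nb v} y),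
        x ^ (X.card + 1) := by
    intro v
    rw [Zs, ← sum_filter, mul_sum]
    exact sum_congr rfl (fun F _ => by ring)
  rw [sum_congr rfl (fun v _ => e v), sum_sigma']
  have hne : ∀ T : Set V, (G.induce T).Connected → T.Nonempty := fun T h =>
    Set.nonempty_coe_sort.mp h.nonempty
  have him : ∀ (T : Set V) (v0 : V), v0 ∈ T → φ '' T = (insert (φ v0) (XS φ T (φ v0)) : Finset ℕ) := by
    intro T v0 h0
    rw [XS, insert_erase (by simpa using ⟨v0, h0, rfl⟩), Set.Finite.coe_toFinset]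
  refine sum_nbij (fun T => ⟨sInf (φ '' T), XS φ T (sInf (φ '' T))⟩) ?_ ?_ ?_ ?_
  · intro T hT
    have hT' : (G.induce T).Connected := by simpa using hT
    obtain ⟨v0, h0, h1, h2⟩ := exists_min φ (hne T hT')
    simp only [mem_sigma, mem_range, mem_filter, mem_powerset]
    rw [← h1]
    refine ⟨R.lt _, fun y hy => ?_, (set_iff R T h0).mp hT'⟩
    obtain ⟨h3, u, hu, rfl⟩ := mem_XS.mp hy
    exact mem_Ioo.mpr ⟨lt_of_le_of_ne (h2 u hu) h3.symm, R.lt _⟩
  · intro T hT T' hT' h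
    have c : (G.induce T).Connected := by simpa using hT
    have c' : (G.induce T').Connected := by simpa using hT'
    obtain ⟨v0, h0, h1, _⟩ := exists_min φ (hne T c)
    obtain ⟨v0', h0', h1', _⟩ := exists_min φ (hne T' c')
    simp only [Sigma.mk.injEq, heq_eq_eq] at h
    apply R.inj.image_injective
    rw [him T v0 h0, him T' v0' h0', h1, h1', h.2, h.1]
  · rintro ⟨v, X⟩ hX
    simp only [coe_sigma, Set.mem_sigma_iff, mem_coe, mem_range, mem_filter, mem_powerset] at hX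
    obtain ⟨hv, hXU, hg⟩ := hX
    obtain ⟨v0, rfl⟩ := R.surj v hv
    have h0 : v0 ∈ {u | u = v0 ∨ φ u ∈ X} := Or.inl rfl
    have hX : XS φ {u | u = v0 ∨ φ u ∈ X} (φ v0) = X := by
      ext y
      rw [mem_XS]
      constructor
      · rintro ⟨h1, u, rfl | hu, rfl⟩
        · exact absurd rfl h1
        · exact hu
      · intro hy
        have := mem_Ioo.mp (hXU hy)
        obtain ⟨u, rfl⟩ := R.surj y this.2
        exact ⟨this.1.ne', u, Or.inr hy, rfl⟩
    have hm : sInf (φ '' {u | u = v0 ∨ φ u ∈ X}) = φ v0 := by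
      refine le_antisymm (Nat.sInf_le ⟨v0, h0, rfl⟩) (le_csInf ⟨_, v0, h0, rfl⟩ ?_)
      rintro _ ⟨u, rfl | hu, rfl⟩
      · exact le_rfl
      · exact (mem_Ioo.mp (hXU hu)).1.le
    refine ⟨{u | u = v0 ∨ φ u ∈ X}, ?_, ?_⟩
    · simp only [Set.Finite.coe_toFinset, Set.mem_ofPred_eq]
      rw [set_iff R _ h0, hX]; exact hg
    · simp only [hm, hX]
  · intro T hT
    have c : (G.induce T).Connected := by simpa using hT
    obtain ⟨v0, h0, h1, _⟩ := exists_min φ (hne T c)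
    simp only
    rw [← h1, ← Set.ncard_image_of_injective _ R.inj, him T v0 h0, Set.ncard_coe_finset,
      card_insert_of_notMem (show φ v0 ∉ XS φ T (φ v0) from notMem_erase _ _)]

end Pool.Agent.Lib.helper33.SubGraph
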