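import Mathlib

/-!
Generating functions of rooted subtrees and rooted connected sets, with their branching rules.
-/

open Finset

namespace Pool.Agent.Lib.helper33.SubSem

/-- Vertices reachable from `R` along edges of `F`. -/
inductive Reach (F : Finset (Sym2 ℕ)) (R : Finset ℕ) : ℕ → Prop
  | base {v : ℕ} : v ∈ R → Reach F R v
  | step {u w : ℕ} : Reach F R u → s(u, w) ∈ F → Reach F R w

/-- Vertices covered by the edges of `F`. -/
def supp (F : Finset (Sym2 ℕ)) : Finset ℕ := F.biUnion Sym2.toFinset

theorem mem_supp {F : Finset (Sym2 ℕ)} {v : ℕ} : v ∈ supp F ↔ ∃ e ∈ F, v ∈ e := by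
  simp [supp]

/-- `F` is a forest growing out of the contracted root set `R`. -/
def Good (R : Finset ℕ) (F : Finset (Sym2 ℕ)) : Prop :=
  (∀ v ∈ supp F, Reach F R v) ∧ (supp F \ R).card = F.card

variable {A : Type*} [CommSemiring A]

open Classical in
/-- Generating function of the forests growing out of `R` inside `E`. -/
noncomputable def Z (x : A) (R : Finset ℕ) (E : Finset (Sym2 ℕ)) : A :=
  ∑ F ∈ E.powerset, if Good R F then x ^ F.card else 0

theorem reach_closed {F : Finset (Sym2 ℕ)} {R : Finset ℕ}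
    (h : ∀ p w, s(p, w) ∈ F → p ∈ R → w ∈ R) {v : ℕ} (hv : Reach F R v) : v ∈ R := by
  induction hv with
  | base h0 => exact h0
  | step _ he ih => exact h _ _ he ih

theorem Z_base (x : A) (R : Finset ℕ) (E : Finset (Sym2 ℕ))
    (h : ∀ p w, s(p, w) ∈ E → p ∈ R → w ∈ R) : Z x R E = 1 := by
  classical
  unfold Z
  rw [sum_eq_single ∅]
  · rw [if_pos, card_empty, pow_zero]
    exact ⟨by simp [supp], by simp [supp]⟩
  · intro F hF hne
    rw [if_neg]
    rintro ⟨h1, h2⟩
    have : supp F \ R = ∅ := by
      rw [sdiff_eq_empty_iff_subset]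
      intro v hv
      exact reach_closed (fun p w he => h p w (mem_powerset.mp hF he)) (h1 v hv)
    rw [this, card_empty] at h2
    exact hne (card_eq_zero.mp h2.symm)
  · simp

theorem reach_insert {F : Finset (Sym2 ℕ)} {R R' : Finset ℕ} {p w : ℕ} (hR : R ⊆ R')
    (hp : p ∈ R') (hw : w ∈ R') {v : ℕ} (hv : Reach (insert s(p, w) F) R v) : Reach F R' v := by
  induction hv with
  | base h0 => exact Reach.base (hR h0)
  | step _ he ih =>
    rcases mem_insert.mp he with h | h
    · rcases Sym2.eq_iff.mp h with ⟨_, rfl⟩ | ⟨_, rfl⟩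
      · exact Reach.base hw
      · exact Reach.base hp
    · exact Reach.step ih h

theorem supp_insert (F : Finset (Sym2 ℕ)) (p w : ℕ) :
    supp (insert s(p, w) F) = insert p (insert w (supp F)) := by
  ext v
  simp only [mem_supp, mem_insert, exists_eq_or_imp, Sym2.mem_iff, or_assoc]

theorem supp_sdiff {F : Finset (Sym2 ℕ)} {R : Finset ℕ} {p w : ℕ} (hp : p ∈ R) (hw : w ∉ R) :
    (supp (insert s(p, w) F) \ R).card = (supp F \ insert w R).card + 1 := by
  have : supp (insert s(p, w) F) \ R = insert w (supp F \ insert w R) := by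
    ext v
    simp only [supp_insert, mem_sdiff, mem_insert]
    constructor
    · rintro ⟨h1 | h1 | h1, h2⟩
      · exact absurd (h1 ▸ hp) h2
      · exact Or.inl h1
      · by_cases h : v = w
        · exact Or.inl h
        · exact Or.inr ⟨h1, fun hc => hc.elim h h2⟩
    · rintro (h1 | ⟨h1, h2⟩)
      · exact ⟨Or.inr (Or.inl h1), h1 ▸ hw⟩
      · exact ⟨Or.inr (Or.inr h1), fun hc => h2 (Or.inr hc)⟩
  rw [this, card_insert_of_notMem (by simp)]

theorem good_insert {F : Finset (Sym2 ℕ)} {R : Finset ℕ} {p w : ℕ} (hp : p ∈ R) (hw : w ∉ R)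
    (he : s(p, w) ∉ F) : Good R (insert s(p, w) F) ↔ Good (insert w R) F := by
  unfold Good
  rw [supp_sdiff hp hw, card_insert_of_notMem he, Nat.add_right_cancel_iff]
  refine and_congr_left (fun _ => ⟨fun h v hv => ?_, fun h v hv => ?_⟩)
  · exact reach_insert (subset_insert _ _) (mem_insert_of_mem hp) (mem_insert_self _ _)
      (h v (by rw [supp_insert]; exact mem_insert_of_mem (mem_insert_of_mem hv)))
  · have hw' : Reach (insert s(p, w) F) R w := Reach.step (Reach.base hp) (mem_insert_self _ _)
    have key : ∀ v, Reach F (insert w R) v → Reach (insert s(p, w) F) R v := by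
      intro v hv
      induction hv with
      | base h0 =>
        rcases mem_insert.mp h0 with rfl | h0
        · exact hw'
        · exact Reach.base h0
      | step _ he ih => exact Reach.step ih (mem_insert_of_mem he)
    rw [supp_insert] at hv
    rcases mem_insert.mp hv with rfl | hv
    · exact Reach.base hp
    · rcases mem_insert.mp hv with rfl | hv
      · exact hw'
      · exact key v (h v hv)

theorem Z_branch (x : A) {R : Finset ℕ} {E : Finset (Sym2 ℕ)} {p w : ℕ} (he : s(p, w) ∈ E)
    (hp : p ∈ R) (hw : w ∉ R) :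
    Z x R E = Z x R (E.erase s(p, w)) + x * Z x (insert w R) (E.erase s(p, w)) := by
  classical
  conv_lhs => rw [← insert_erase he]
  unfold Z
  rw [sum_powerset_insert (notMem_erase _ _), mul_sum]
  congr 1
  refine sum_congr rfl (fun F hF => ?_)
  have h : s(p, w) ∉ F := fun hc => notMem_erase _ _ (mem_powerset.mp hF hc)
  rw [good_insert hp hw h, card_insert_of_notMem h]
  split_ifs
  · ring
  · simp

theorem Z_irrel (x : A) (C R : Finset ℕ) (E : Finset (Sym2 ℕ))
    (h : ∀ e ∈ E, ∀ c ∈ C, c ∉ e) : Z x (C ∪ R) E = Z x R E := by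
  classical
  unfold Z
  refine sum_congr rfl (fun F hF => ?_)
  have hF' : ∀ v ∈ supp F, v ∉ C := by
    intro v hv hc
    obtain ⟨e, he, hve⟩ := mem_supp.mp hv
    exact h e (mem_powerset.mp hF he) v hc hve
  have : Good (C ∪ R) F ↔ Good R F := by
    unfold Good
    have e : supp F \ (C ∪ R) = supp F \ R := by
      ext v
      simp only [mem_sdiff, mem_union]
      exact ⟨fun h => ⟨h.1, fun hc => h.2 (Or.inr hc)⟩,
        fun h => ⟨h.1, fun hc => hc.elim (hF' v h.1) h.2⟩⟩
    rw [e]
    refine and_congr_left (fun _ => ⟨fun h1 v hv => ?_, fun h1 v hv => ?_⟩)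
    · have key : ∀ v, Reach F (C ∪ R) v → v ∈ C ∨ Reach F R v := by
        intro v hv
        induction hv with
        | base h0 => exact (mem_union.mp h0).imp id Reach.base
        | step _ he ih =>
          rcases ih with ih | ih
          · exact absurd ih (hF' _ (mem_supp.mpr ⟨_, he, Sym2.mem_mk_left _ _⟩))
          · exact Or.inr (Reach.step ih he)
      exact (key v (h1 v hv)).resolve_left (hF' v hv)
    · have key : ∀ v, Reach F R v → Reach F (C ∪ R) v := by
        intro v hv
        induction hv with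
        | base h0 => exact Reach.base (mem_union_right _ h0)
        | step _ he ih => exact Reach.step ih he
      exact key v (h1 v hv)
  rw [this]

theorem Z_irrel1 (x : A) (c : ℕ) (R : Finset ℕ) (E : Finset (Sym2 ℕ))
    (h : ∀ e ∈ E, c ∉ e) : Z x (insert c R) E = Z x R E := by
  rw [insert_eq]
  exact Z_irrel x _ R E (fun e he c' hc => (mem_singleton.mp hc) ▸ h e he)

theorem card_bound : ∀ (k : ℕ) (F : Finset (Sym2 ℕ)) (R : Finset ℕ), F.card = k →
    (∀ v ∈ supp F, Reach F R v) → (supp F \ R).card ≤ F.card := by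
  intro k
  induction k with
  | zero =>
    intro F R hk _
    rw [card_eq_zero.mp hk]; simp [supp]
  | succ k ih =>
    intro F R hk h
    by_cases hc : ∀ p w, s(p, w) ∈ F → p ∈ R → w ∈ R
    · have : supp F \ R = ∅ := by
        rw [sdiff_eq_empty_iff_subset]
        exact fun v hv => reach_closed hc (h v hv)
      rw [this]; simp
    · push Not at hc
      obtain ⟨p, w, he, hp, hw⟩ := hc
      obtain ⟨F', hF', rfl⟩ : ∃ F', s(p, w) ∉ F' ∧ F = insert s(p, w) F' :=
        ⟨F.erase s(p, w), notMem_erase _ _, (insert_erase he).symm⟩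
      rw [card_insert_of_notMem hF'] at hk ⊢
      rw [supp_sdiff hp hw]
      have := ih F' (insert w R) (by omega) (fun v hv =>
        reach_insert (subset_insert _ _) (mem_insert_of_mem hp) (mem_insert_self _ _)
          (h v (by rw [supp_insert]; exact mem_insert_of_mem (mem_insert_of_mem hv))))
      omega

theorem Z_dead (x : A) {R : Finset ℕ} {E : Finset (Sym2 ℕ)} {a b : ℕ} (he : s(a, b) ∈ E)
    (ha : a ∈ R) (hb : b ∈ R) : Z x R E = Z x R (E.erase s(a, b)) := by
  classical
  conv_lhs => rw [← insert_erase he]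
  unfold Z
  rw [sum_powerset_insert (notMem_erase _ _), sum_eq_zero (s := (E.erase s(a, b)).powerset)
    (f := fun F => if Good R (insert s(a, b) F) then x ^ (insert s(a, b) F).card else 0), add_zero]
  intro F hF
  have h : s(a, b) ∉ F := fun hc => notMem_erase _ _ (mem_powerset.mp hF hc)
  rw [if_neg]
  rintro ⟨h1, h2⟩
  have e : supp (insert s(a, b) F) \ R = supp F \ R := by
    ext v
    simp only [supp_insert, mem_sdiff, mem_insert]
    constructor
    · rintro ⟨h1 | h1 | h1, h2⟩
      · exact absurd (h1 ▸ ha) h2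
      · exact absurd (h1 ▸ hb) h2
      · exact ⟨h1, h2⟩
    · exact fun h => ⟨Or.inr (Or.inr h.1), h.2⟩
  have := card_bound _ F R rfl (fun v hv => reach_insert (Subset.refl _) ha hb
    (h1 v (by rw [supp_insert]; exact mem_insert_of_mem (mem_insert_of_mem hv))))
  rw [e, card_insert_of_notMem h] at h2
  omega

theorem Z_tri (x : A) {R : Finset ℕ} {E : Finset (Sym2 ℕ)} {p w c : ℕ} (h1 : s(p, w) ∈ E)
    (h2 : s(p, c) ∈ E) (h3 : s(c, w) ∈ E) (hp : p ∈ R) (hw : w ∉ R) (hc : c ∉ R) (hcw : c ≠ w)
    (h : ∀ y, s(c, y) ∈ E → y = p ∨ y = w) :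
    Z x R E = Z x R ((E.erase s(p, w)).erase s(p, c)) +
      x * Z x (insert c R) (((E.erase s(p, w)).erase s(p, c)).erase s(c, w)) +
      (x + 3 * x * x) *
        Z x (insert w (insert c R)) (((E.erase s(p, w)).erase s(p, c)).erase s(c, w)) := by
  have hpw : p ≠ w := fun h => hw (h ▸ hp)
  have hpc : p ≠ c := fun h => hc (h ▸ hp)
  have a2 : s(p, c) ∈ E.erase s(p, w) := mem_erase.mpr ⟨by simp [hcw, hpw], h2⟩
  have a3 : s(c, w) ∈ (E.erase s(p, w)).erase s(p, c) :=
    mem_erase.mpr ⟨by simp [hpc.symm, hpw.symm], mem_erase.mpr ⟨by simp [hpc.symm, hcw], h3⟩⟩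
  have a3' : s(w, c) ∈ (E.erase s(p, w)).erase s(p, c) :=
    (show s(c, w) = s(w, c) from Sym2.eq_swap) ▸ a3
  have hc' : c ∉ insert w R := by simp [hcw, hc]
  have hw' : w ∉ insert c R := by simp [hcw.symm, hw]
  have hir : ∀ e ∈ ((E.erase s(p, w)).erase s(p, c)).erase s(c, w), c ∉ e := by
    intro e he hce
    obtain ⟨y, rfl⟩ := Sym2.mem_iff_exists.mp hce
    simp only [mem_erase] at he
    rcases h y he.2.2.2 with rfl | rfl
    · exact he.2.1 Sym2.eq_swap
    · exact he.1 rfl
  rw [Z_branch x h1 hp hw, Z_branch x a2 hp hc, Z_branch x a2 (mem_insert_of_mem hp) hc',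
    Z_branch x a3 (mem_insert_self _ _) hw', Z_branch x a3' (mem_insert_self _ _) hc',
    Z_dead x a3 (mem_insert_self c (insert w R)) (mem_insert_of_mem (mem_insert_self _ _)),
    show s(w, c) = s(c, w) from Sym2.eq_swap, ← Z_irrel1 x c (insert w R) _ hir,
    Finset.insert_comm c w R]
  ring

/-- Vertices of `X` reachable inside `X` from the start set `St`. -/
inductive ReachS (nb : ℕ → List ℕ) (X : Finset ℕ) (St : Set ℕ) : ℕ → Prop
  | base {v : ℕ} : v ∈ St → v ∈ X → ReachS nb X St v
  | step {u w : ℕ} : ReachS nb X St u → w ∈ nb u → w ∈ X → ReachS nb X St w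

open Classical in
/-- Generating function of the subsets of `U` all of whose vertices are reachable from `St`. -/
noncomputable def Zs (nb : ℕ → List ℕ) (x : A) (St : Set ℕ) (U : Finset ℕ) : A :=
  ∑ X ∈ U.powerset, if ∀ v ∈ X, ReachS nb X St v then x ^ X.card else 0

theorem Zs_congr (nb : ℕ → List ℕ) (x : A) {St St' : Set ℕ} {U : Finset ℕ}
    (h : ∀ y ∈ U, y ∈ St ↔ y ∈ St') : Zs nb x St U = Zs nb x St' U := by
  classical
  have key : ∀ {St St' : Set ℕ}, (∀ y ∈ U, y ∈ St → y ∈ St') → ∀ X ⊆ U, ∀ v,
      ReachS nb X St v → ReachS nb X St' v := by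
    intro St St' h X hX v hv
    induction hv with
    | base h0 h1 => exact ReachS.base (h _ (hX h1) h0) h1
    | step _ h0 h1 ih => exact ReachS.step ih h0 h1
  unfold Zs
  refine sum_congr rfl (fun X hX => ?_)
  have hX' := mem_powerset.mp hX
  exact if_congr ⟨fun h1 v hv => key (fun y hy => (h y hy).mp) X hX' v (h1 v hv),
    fun h1 v hv => key (fun y hy => (h y hy).mpr) X hX' v (h1 v hv)⟩ rfl rfl

theorem Zs_base (nb : ℕ → List ℕ) (x : A) (St : Set ℕ) (U : Finset ℕ)
    (h : ∀ y ∈ U, y ∉ St) : Zs nb x St U = 1 := by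
  classical
  unfold Zs
  rw [sum_eq_single ∅]
  · simp
  · intro X hX hne
    rw [if_neg]
    intro h1
    obtain ⟨v, hv⟩ := nonempty_iff_ne_empty.mpr hne
    have key : ∀ v, ¬ ReachS nb X St v := by
      intro v hv
      induction hv with
      | base h0 h1 => exact h _ (mem_powerset.mp hX h1) h0
      | step _ _ _ ih => exact ih
    exact key v (h1 v hv)
  · simp

theorem Zs_branch (nb : ℕ → List ℕ) (x : A) {St : Set ℕ} {U : Finset ℕ} {w : ℕ} (hU : w ∈ U)
    (hw : w ∈ St) :
    Zs nb x St U = Zs nb x St (U.erase w) + x * Zs nb x (St ∪ {y | y ∈ nb w}) (U.erase w) := by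
  classical
  conv_lhs => rw [← insert_erase hU]
  unfold Zs
  rw [sum_powerset_insert (notMem_erase _ _), mul_sum]
  congr 1
  refine sum_congr rfl (fun X hX => ?_)
  have h : w ∉ X := fun hc => notMem_erase _ _ (mem_powerset.mp hX hc)
  have hiff : (∀ v ∈ insert w X, ReachS nb (insert w X) St v) ↔
      ∀ v ∈ X, ReachS nb X (St ∪ {y | y ∈ nb w}) v := by
    constructor
    · intro h1 v hv
      have key : ∀ v, ReachS nb (insert w X) St v → v = w ∨ ReachS nb X (St ∪ {y | y ∈ nb w}) v := by
        intro v hv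
        induction hv with
        | base h0 h1 => exact (mem_insert.mp h1).imp id (ReachS.base (Or.inl h0))
        | step _ h0 h1 ih =>
          refine (mem_insert.mp h1).imp id (fun h2 => ?_)
          rcases ih with rfl | ih
          · exact ReachS.base (Or.inr h0) h2
          · exact ReachS.step ih h0 h2
      exact (key v (h1 v (mem_insert_of_mem hv))).resolve_left (fun hc => h (hc ▸ hv))
    · intro h1 v hv
      have hw' : ReachS nb (insert w X) St w := ReachS.base hw (mem_insert_self _ _)
      have key : ∀ v, ReachS nb X (St ∪ {y | y ∈ nb w}) v → ReachS nb (insert w X) St v := by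
        intro v hv
        induction hv with
        | base h0 h1 =>
          rcases h0 with h0 | h0
          · exact ReachS.base h0 (mem_insert_of_mem h1)
          · exact ReachS.step hw' h0 (mem_insert_of_mem h1)
        | step _ h0 h1 ih => exact ReachS.step ih h0 (mem_insert_of_mem h1)
      rcases mem_insert.mp hv with rfl | hv
      · exact hw'
      · exact key v (h1 v hv)
  rw [card_insert_of_notMem h]
  by_cases hc : ∀ v ∈ X, ReachS nb X (St ∪ {y | y ∈ nb w}) v
  · rw [if_pos (hiff.mpr hc), if_pos hc]; ring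
  · rw [if_neg (fun h1 => hc (hiff.mp h1)), if_neg hc, mul_zero]

end Pool.Agent.Lib.helper33.SubSem
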