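import Pool.Agent.Lib.helper33.SubGraph

/-!
Totals: number and total order of subtrees and of connected sets from kernel computations.
-/

open Finset

namespace Pool.Agent.Lib.helper33.SubTot

open Pool.Agent.Lib.helper33.SubSem Pool.Agent.Lib.helper33.SubAlg
  Pool.Agent.Lib.helper33.SubGraph

variable {V : Type*} {G : SimpleGraph V} {n Δ : ℕ} {nb : ℕ → List ℕ}
  {nbf : ℕ → ℕ → List (ℕ × ℕ)} {φ : V → ℕ}

/-- The only neighbour of `v` above `v` is `v + 1`. -/
def chain (nb : ℕ → List ℕ) (v : ℕ) : Bool :=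
  decide (v + 1 ∈ nb v ∧ ∀ y ∈ nb v, y < v ∨ y = v + 1)

/-- Values at the roots `n - 1, …, n - k` and their sum. -/
noncomputable def loop (nb : ℕ → List ℕ) (r : ℕ → ℕ) (x M n k : ℕ) : ℕ × ℕ :=
  Nat.rec (0, 0) (fun j p =>
    (Bool.casesOn (chain nb (n - 1 - j)) (r (n - 1 - j)) ((1 + x * p.1) % M),
      p.2 + Bool.casesOn (chain nb (n - 1 - j)) (r (n - 1 - j)) ((1 + x * p.1) % M))) k

theorem loop_correct (S : Spec n Δ nb nbf) (r : ℕ → ℕ) (x M : ℕ) (z : ℕ → ZMod M)
    (hr : ∀ v < n, (r v : ZMod M) = z v)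
    (hc : ∀ v < n, v + 1 ∈ nb v → (∀ y ∈ nb v, y < v ∨ y = v + 1) → z v = 1 + x * z (v + 1)) :
    ∀ k ≤ n, (0 < k → ((loop nb r x M n k).1 : ZMod M) = z (n - k)) ∧
      ((loop nb r x M n k).2 : ZMod M) = ∑ v ∈ Ico (n - k) n, z v := by
  intro k
  induction k with
  | zero => intro _; simp [loop]
  | succ k ih =>
    intro hk
    obtain ⟨i1, i2⟩ := ih (by omega)
    have key : ((Bool.casesOn (chain nb (n - 1 - k)) (r (n - 1 - k))
        ((1 + x * (loop nb r x M n k).1) % M) : ℕ) : ZMod M) = z (n - (k + 1)) := by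
      have e : n - 1 - k = n - (k + 1) := by omega
      rw [e]
      cases h : chain nb (n - (k + 1)) with
      | false => exact hr _ (by omega)
      | true =>
        obtain ⟨h1, h2⟩ := of_decide_eq_true h
        have h3 := (S.s1 _ (by omega) _ h1).1
        simp only [ZMod.natCast_mod, Nat.cast_add, Nat.cast_mul, Nat.cast_one]
        rw [hc _ (by omega) h1 h2, i1 (by omega)]
        congr 3; omega
    refine ⟨fun _ => key, ?_⟩
    change (((loop nb r x M n k).2 + Bool.casesOn (chain nb (n - 1 - k)) (r (n - 1 - k))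
        ((1 + x * (loop nb r x M n k).1) % M) : ℕ) : ZMod M) = _
    rw [Nat.cast_add, key, i2, sum_eq_sum_Ico_succ_bot (show n - (k + 1) < n by omega), add_comm]
    congr 3; omega

theorem extract {α : Type*} (T : Finset α) (s : α → ℕ) (K val : ℕ)
    (h : (val : ZMod (K * K)) = ∑ a ∈ T, ((K + 1 : ℕ) : ZMod (K * K)) ^ s a)
    (h1 : T.card < K) (h2 : ∑ a ∈ T, s a < K) :
    T.card = val % (K * K) % K ∧ ∑ a ∈ T, s a = val % (K * K) / K := by
  have hK : (K : ZMod (K * K)) * K = 0 := by rw [← Nat.cast_mul, ZMod.natCast_self]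
  have hp : ∀ j : ℕ, ((K + 1 : ℕ) : ZMod (K * K)) ^ j = 1 + K * j := by
    intro j
    induction j with
    | zero => simp
    | succ j ih => rw [pow_succ, ih]; push_cast; linear_combination (j : ZMod (K * K)) * hK
  have h3 : (val : ZMod (K * K)) = ((T.card + K * ∑ a ∈ T, s a : ℕ) : ZMod (K * K)) := by
    rw [h, sum_congr rfl (fun a _ => hp (s a)), sum_add_distrib, ← mul_sum]
    simp
  rw [ZMod.natCast_eq_natCast_iff'] at h3
  have h4 : T.card + K * ∑ a ∈ T, s a < K * K := by nlinarith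
  rw [h3, Nat.mod_eq_of_lt h4, Nat.add_mul_mod_self_left, Nat.mod_eq_of_lt h1,
    Nat.add_mul_div_left _ _ (by omega), Nat.div_eq_of_lt h1, zero_add]
  exact ⟨rfl, rfl⟩

/-- Root value for subtrees. -/
noncomputable def rt (nb : ℕ → List ℕ) (nbf : ℕ → ℕ → List (ℕ × ℕ)) (tri : ℕ → ℕ → Bool)
    (x M f v : ℕ) : ℕ :=
  gt nb nbf tri x M f (2 ^ (v + 1) - 1) ((nb v).map (fun w => (w, v)))

/-- Root value for connected sets. -/
noncomputable def rs (nb : ℕ → List ℕ) (nbf : ℕ → ℕ → List (ℕ × ℕ)) (x M f v : ℕ) : ℕ :=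
  gs nbf x M f (2 ^ (v + 1) - 1) ((nb v).map (fun w => (w, v)))

theorem rt_correct (S : Spec n Δ nb nbf) (tri : ℕ → ℕ → Bool) (x M f : ℕ) (hf : Δ + Δ * n < f)
    (v : ℕ) (hv : v < n) : (rt nb nbf tri x M f v : ZMod M) = Z (x : ZMod M) {v} (Ev n nb v) := by
  have I : Inv n nb (range (v + 1)) ((nb v).map (fun w => (w, v))) (Ev n nb v) := by
    refine ⟨fun y hy => by have := mem_range.mp hy; omega, fun q hq => ?_, ?_, ?_, ?_, ?_⟩
    · obtain ⟨w, hw, rfl⟩ := List.mem_map.mp hq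
      refine ⟨by simp, hw, fun h => (mem_Ev S).mpr ⟨hv, hw, le_rfl, ?_⟩⟩
      simp only [mem_range] at h; omega
    · exact (S.s0 v hv).1.map (fun a b h => (Prod.mk.inj h).1)
    · intro p w he hp _
      obtain ⟨_, h2, h3, _⟩ := (mem_Ev S).mp he
      have : p = v := by have := mem_range.mp hp; omega
      subst this
      exact List.mem_map.mpr ⟨w, h2, rfl⟩
    · intro u hu w hw h1 h2
      simp only [mem_range] at h1 h2
      exact (mem_Ev S).mpr ⟨hu, hw, by omega, by omega⟩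
    · intro p w he; exact ((mem_Ev S).mp he).2.1
  have h := gt_correct S tri x M f (2 ^ (v + 1) - 1) _ _ (by rw [RD_low hv]; exact I) (by
    have := (S.s0 v hv).2
    have h2 : Δ * (n - (RD n (2 ^ (v + 1) - 1)).card) ≤ Δ * n := Nat.mul_le_mul_left _ (by omega)
    rw [List.length_map]; omega)
  rw [rt, h, RD_low hv, ← Z_irrel _ (range v) {v}]
  · congr 1; ext y; simp only [mem_range, mem_union, mem_singleton]; omega
  · intro e he c hc hce
    obtain ⟨y, rfl⟩ := Sym2.mem_iff_exists.mp hce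
    have := ((mem_Ev S).mp he).2.2.1
    have := mem_range.mp hc
    omega

theorem rs_correct (S : Spec n Δ nb nbf) (x M f : ℕ) (hf : Δ + Δ * n < f)
    (v : ℕ) (hv : v < n) :
    (rs nb nbf x M f v : ZMod M) = Zs nb (x : ZMod M) {y | y ∈ nb v} (Ioo v n) := by
  have h := gs_correct S x M f (2 ^ (v + 1) - 1) ((nb v).map (fun w => (w, v))) (by
    intro q hq
    obtain ⟨w, hw, rfl⟩ := List.mem_map.mp hq
    rw [RD_low hv]
    exact ⟨by simp, hw⟩) (by
    have := (S.s0 v hv).2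
    have h2 : Δ * (n - (RD n (2 ^ (v + 1) - 1)).card) ≤ Δ * n := Nat.mul_le_mul_left _ (by omega)
    rw [List.length_map]; omega)
  rw [rs, h, RD_low hv]
  congr 1
  · ext y; simp
  · ext y; simp only [mem_sdiff, mem_range, mem_Ioo]; omega

theorem Z_chain {A : Type*} [CommSemiring A] (S : Spec n Δ nb nbf) (x : A) (v : ℕ) (hv : v < n)
    (h1 : v + 1 ∈ nb v) (h2 : ∀ y ∈ nb v, y < v ∨ y = v + 1) :
    Z x {v} (Ev n nb v) = 1 + x * Z x {v + 1} (Ev n nb (v + 1)) := by
  have he : s(v, v + 1) ∈ Ev n nb v := (mem_Ev S).mpr ⟨hv, h1, le_rfl, by omega⟩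
  have e : (Ev n nb v).erase s(v, v + 1) = Ev n nb (v + 1) := by
    ext e
    induction e using Sym2.ind with
    | h a b =>
      rw [mem_erase, mem_Ev S, mem_Ev S, Ne, Sym2.eq_iff]
      constructor
      · rintro ⟨h0, ha, hb, h3, h4⟩
        refine ⟨ha, hb, ?_, ?_⟩
        · by_contra hc
          have : a = v := by omega
          subst this
          have := h2 b hb; omega
        · by_contra hc
          have : b = v := by omega
          subst this
          have := h2 a (S.s1 a ha b hb).2.1; omega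
      · rintro ⟨ha, hb, h3, h4⟩
        exact ⟨by omega, ha, hb, by omega, by omega⟩
  rw [Z_branch x he (mem_singleton_self _) (by simp), e, Z_base, pair_comm, Z_irrel1]
  · intro e he hv
    obtain ⟨y, rfl⟩ := Sym2.mem_iff_exists.mp hv
    have := ((mem_Ev S).mp he).2.2.1
    omega
  · intro p w he hp
    have := ((mem_Ev S).mp he).2.2.1
    have := mem_singleton.mp hp
    omega

theorem Zs_chain {A : Type*} [CommSemiring A] (S : Spec n Δ nb nbf) (x : A) (v : ℕ) (hv : v < n)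
    (h1 : v + 1 ∈ nb v) (h2 : ∀ y ∈ nb v, y < v ∨ y = v + 1) :
    Zs nb x {y | y ∈ nb v} (Ioo v n) = 1 + x * Zs nb x {y | y ∈ nb (v + 1)} (Ioo (v + 1) n) := by
  have h3 := (S.s1 v hv _ h1).1
  have e : (Ioo v n).erase (v + 1) = Ioo (v + 1) n := by
    ext y; simp only [mem_erase, mem_Ioo]; omega
  rw [Zs_branch nb x (St := {y | y ∈ nb v}) (w := v + 1) (mem_Ioo.mpr ⟨by omega, h3⟩) h1, e,
    Zs_base]
  · congr 2
    apply Zs_congr
    intro y hy
    have := mem_Ioo.mp hy
    refine ⟨fun h => h.resolve_left (fun h4 => ?_), Or.inr⟩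
    have := h2 y h4; omega
  · intro y hy h4
    have := mem_Ioo.mp hy
    have := h2 y h4; omega

theorem split_sum {A : Type*} [CommSemiring A] (x : A) (z : ℕ → A) (hn : 0 < n) :
    ∑ v ∈ range n, x * z v = x * (z 0 + ∑ v ∈ Ico (n - (n - 1)) n, z v) := by
  rw [← mul_sum, range_eq_Ico, sum_eq_sum_Ico_succ_bot hn]
  congr 4; omega

variable [Finite V]

omit [Finite V] in
theorem total_le {α : Type*} (T : Finset α) (s : α → Set V) (R : Rep G n nb φ) :
    ∑ a ∈ T, (s a).ncard ≤ n * T.card := by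
  rw [mul_comm, ← smul_eq_mul]
  refine sum_le_card_nsmul _ _ _ (fun a _ => ?_)
  rw [← Set.ncard_image_of_injective _ R.inj]
  calc _ ≤ (range n : Set ℕ).ncard := Set.ncard_le_ncard (by
        rintro _ ⟨u, _, rfl⟩; simpa using R.lt u) (finite_toSet _)
    _ = n := by rw [Set.ncard_coe_finset, card_range]

theorem tree_total (S : Spec n Δ nb nbf) (R : Rep G n nb φ) (tri : ℕ → ℕ → Bool) (K f L : ℕ)
    (hn : 0 < n) (hf : Δ + Δ * n < f) (hL : ∑ u ∈ range n, (nb u).length ≤ L)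
    (hK : n * (n * 2 ^ L) < K) (a b : ℕ) (ha : rt nb nbf tri (K + 1) (K * K) f 0 = a)
    (hb : (loop nb (rt nb nbf tri (K + 1) (K * K) f) (K + 1) (K * K) n (n - 1)).2 = b) :
    {H : G.Subgraph | H.coe.IsTree}.ncard = (K + 1) * (a + b) % (K * K) % K ∧
      ∑ᶠ H ∈ {H : G.Subgraph | H.coe.IsTree}, H.verts.ncard = (K + 1) * (a + b) % (K * K) / K := by
  classical
  rw [Set.ncard_eq_toFinset_card _ (Set.toFinite _), finsum_mem_eq_finite_toFinset_sum _
    (Set.toFinite _)]
  have hc : (Set.toFinite {H : G.Subgraph | H.coe.IsTree}).toFinset.card ≤ n * 2 ^ L := by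
    have := tree_sum S R (1 : ℕ)
    simp only [one_pow, sum_const, smul_eq_mul, mul_one, one_mul] at this
    rw [this]
    refine (sum_le_card_nsmul _ _ (2 ^ L) (fun v _ => ?_)).trans (by simp)
    refine (sum_le_card_nsmul _ _ 1 (fun F _ => by split_ifs <;> simp)).trans ?_
    rw [card_powerset, smul_eq_mul, mul_one]
    exact Nat.pow_le_pow_right (by norm_num) ((card_Ev v).trans hL)
  apply extract
  · rw [tree_sum S R, split_sum _ _ hn, Nat.cast_mul, Nat.cast_add a, ← ha, ← hb,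
      rt_correct S tri _ _ f hf 0 hn,
      (loop_correct S _ (K + 1) (K * K) (fun v => Z ((K + 1 : ℕ) : ZMod (K * K)) {v} (Ev n nb v))
        (rt_correct S tri _ _ f hf) (Z_chain S _) (n - 1) (by omega)).2]
  · exact lt_of_le_of_lt (hc.trans (Nat.le_mul_of_pos_left _ hn)) hK
  · exact lt_of_le_of_lt ((total_le _ _ R).trans (Nat.mul_le_mul_left _ hc)) hK

theorem set_total (S : Spec n Δ nb nbf) (R : Rep G n nb φ) (K f : ℕ)
    (hn : 0 < n) (hf : Δ + Δ * n < f)
    (hK : n * (n * 2 ^ n) < K) (a b : ℕ) (ha : rs nb nbf (K + 1) (K * K) f 0 = a)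
    (hb : (loop nb (rs nb nbf (K + 1) (K * K) f) (K + 1) (K * K) n (n - 1)).2 = b) :
    {T : Set V | (G.induce T).Connected}.ncard = (K + 1) * (a + b) % (K * K) % K ∧
      ∑ᶠ T ∈ {T : Set V | (G.induce T).Connected}, T.ncard = (K + 1) * (a + b) % (K * K) / K := by
  classical
  rw [Set.ncard_eq_toFinset_card _ (Set.toFinite _), finsum_mem_eq_finite_toFinset_sum _
    (Set.toFinite _)]
  have hc : (Set.toFinite {T : Set V | (G.induce T).Connected}).toFinset.card ≤ n * 2 ^ n := by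
    have := set_sum R (1 : ℕ)
    simp only [one_pow, sum_const, smul_eq_mul, mul_one, one_mul] at this
    rw [this]
    refine (sum_le_card_nsmul _ _ (2 ^ n) (fun v _ => ?_)).trans (by simp)
    refine (sum_le_card_nsmul _ _ 1 (fun F _ => by split_ifs <;> simp)).trans ?_
    rw [card_powerset, smul_eq_mul, mul_one]
    exact Nat.pow_le_pow_right (by norm_num) (by rw [Nat.card_Ioo]; omega)
  apply extract
  · rw [set_sum R, split_sum _ _ hn, Nat.cast_mul, Nat.cast_add a, ← ha, ← hb,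
      rs_correct S _ _ f hf 0 hn,
      (loop_correct S _ (K + 1) (K * K)
        (fun v => Zs nb ((K + 1 : ℕ) : ZMod (K * K)) {y | y ∈ nb v} (Ioo v n))
        (rs_correct S _ _ f hf) (Zs_chain S _) (n - 1) (by omega)).2]
  · exact lt_of_le_of_lt (hc.trans (Nat.le_mul_of_pos_left _ hn)) hK
  · exact lt_of_le_of_lt ((total_le _ id R).trans (Nat.mul_le_mul_left _ hc)) hK

/-- Boolean check of `Spec`. -/
def specb (n Δ : ℕ) (nb : ℕ → List ℕ) (nbf : ℕ → ℕ → List (ℕ × ℕ)) : Bool :=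
  (List.range n).all (fun u => decide ((∀ w ∈ nb u, w < n ∧ u ∈ nb w ∧ w ≠ u) ∧
    ((nb u).Nodup ∧ (nb u).length < Δ) ∧ ∀ p ∈ nb u, (nbf u p).Nodup ∧ (nbf u p).length < Δ ∧
    (∀ q ∈ nbf u p, q.2 = u ∧ q.1 ∈ nb u) ∧ ∀ w ∈ nb u, w = p ∨ (w, u) ∈ nbf u p))

theorem spec_of (h : specb n Δ nb nbf = true) : Spec n Δ nb nbf := by
  have h1 := fun u hu => of_decide_eq_true (List.all_eq_true.mp h u (List.mem_range.mpr hu))
  exact ⟨fun u hu => (h1 u hu).1, fun u hu => (h1 u hu).2.1, fun u hu => (h1 u hu).2.2⟩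

/-- The graph on `Fin n` given by neighbour lists. -/
def gOf (S : Spec n Δ nb nbf) : SimpleGraph (Fin n) where
  Adj u v := (v : ℕ) ∈ nb u
  symm := ⟨fun u v h => (S.s1 u u.2 v h).2.1⟩
  loopless := ⟨fun u h => (S.s1 u u.2 u h).2.2 rfl⟩

theorem rep_gOf (S : Spec n Δ nb nbf) : Rep (gOf S) n nb Fin.val :=
  ⟨Fin.val_injective, fun v => v.2, fun i hi => ⟨⟨i, hi⟩, rfl⟩, fun _ _ => Iff.rfl⟩

theorem conn_gOf (S : Spec n Δ nb nbf) (hn : 0 < n)
    (h : (List.range n).all (fun u => decide (u = 0 ∨ ∃ w ∈ nb u, w < u)) = true) :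
    (gOf S).Connected := by
  rw [SimpleGraph.connected_iff_exists_forall_reachable]
  refine ⟨⟨0, hn⟩, fun w => ?_⟩
  obtain ⟨u, hu⟩ := w
  induction u using Nat.strong_induction_on with
  | _ u ih =>
    rcases of_decide_eq_true (List.all_eq_true.mp h u (List.mem_range.mpr hu)) with rfl | ⟨w, h1, h2⟩
    · exact SimpleGraph.Reachable.refl _
    · exact (ih w h2 (by omega)).trans (SimpleGraph.Adj.reachable
        (show (gOf S).Adj ⟨u, hu⟩ ⟨w, by omega⟩ from h1)).symm

end Pool.Agent.Lib.helper33.SubTot
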