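import Mathlib

set_option autoImplicit false

namespace Pool.Agent.Lib.helper33.Theta

open Finset

variable {V W : Type} [Fintype V] [Fintype W] [DecidableEq V] [DecidableEq W]

/-- The quadratic form of a kernel. -/
def Q (P : V → V → ℝ) (f : V → ℝ) : ℝ := ∑ x, ∑ y, f x * P x y * f y

/-- Positive semidefinite kernels. -/
def PSD (P : V → V → ℝ) : Prop := (∀ x y, P x y = P y x) ∧ ∀ f, 0 ≤ Q P f

omit [DecidableEq V] in
lemma psd_iff (P : V → V → ℝ) : PSD P ↔ (Matrix.of P).PosSemidef := by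
  rw [Matrix.posSemidef_iff_dotProduct_mulVec]
  have e : ∀ f : V → ℝ, star f ⬝ᵥ (Matrix.of P).mulVec f = Q P f := by
    intro f
    simp only [Q, dotProduct, Matrix.mulVec, Matrix.of_apply, star_trivial, mul_sum, mul_assoc]
  simp only [e]
  constructor
  · rintro ⟨h1, h2⟩
    exact ⟨by ext x y; simp [h1 x y], h2⟩
  · rintro ⟨h1, h2⟩
    refine ⟨fun x y => ?_, h2⟩
    have := congrFun (congrFun h1 y) x
    simpa using this

omit [DecidableEq V] [DecidableEq W] in
lemma PSD.kron {P : V → V → ℝ} {R : W → W → ℝ} (hP : PSD P) (hR : PSD R) :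
    PSD (fun x y : V × W => P x.1 y.1 * R x.2 y.2) :=
  (psd_iff _).2 (((psd_iff _).1 hP).kronecker ((psd_iff _).1 hR))

omit [DecidableEq V] [DecidableEq W] in
lemma PSD.schur {P : V → V → ℝ} {R : W → W → ℝ} (hP : PSD P) (hR : PSD R) (φ : V → W) :
    PSD (fun x y : V => P x y * R (φ x) (φ y)) :=
  (psd_iff _).2 (((psd_iff _).1 hP).hadamard (((psd_iff _).1 hR).submatrix φ))

omit [DecidableEq V] in
lemma Q_add (P R : V → V → ℝ) (f : V → ℝ) :
    Q (fun x y => P x y + R x y) f = Q P f + Q R f := by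
  simp only [Q, mul_add, add_mul, sum_add_distrib]

omit [DecidableEq V] in
lemma Q_sub (P R : V → V → ℝ) (f : V → ℝ) :
    Q (fun x y => P x y - R x y) f = Q P f - Q R f := by
  simp only [Q, mul_sub, sub_mul, sum_sub_distrib]

omit [DecidableEq V] in
lemma Q_smul (c : ℝ) (P : V → V → ℝ) (f : V → ℝ) :
    Q (fun x y => c * P x y) f = c * Q P f := by
  simp only [Q, mul_sum]
  exact sum_congr rfl fun x _ => sum_congr rfl fun y _ => by ring

lemma Q_diag (d : V → ℝ) (f : V → ℝ) :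
    Q (fun x y => if x = y then d x else 0) f = ∑ x, d x * f x ^ 2 := by
  simp only [Q, mul_ite, ite_mul, mul_zero, zero_mul, sum_ite_eq, mem_univ, if_true]
  exact sum_congr rfl fun x _ => by ring

omit [DecidableEq V] in
lemma Q_const (f : V → ℝ) : Q (fun _ _ => (1 : ℝ)) f = (∑ x, f x) ^ 2 := by
  simp only [Q, mul_one, sq, sum_mul_sum]

omit [DecidableEq V] in
lemma Q_one (P : V → V → ℝ) : Q P (fun _ => 1) = ∑ x, ∑ y, P x y := by
  simp only [Q, mul_one, one_mul]

omit [DecidableEq V] in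
lemma Q_weight (P : V → V → ℝ) (u f : V → ℝ) :
    Q (fun x y => u x * P x y * u y) f = Q P (fun x => u x * f x) := by
  simp only [Q]
  exact sum_congr rfl fun x _ => sum_congr rfl fun y _ => by ring

omit [DecidableEq V] in
lemma Q_scale (P : V → V → ℝ) (c : ℝ) (f : V → ℝ) :
    Q P (fun x => c * f x) = c ^ 2 * Q P f := by
  simp only [Q, mul_sum]
  exact sum_congr rfl fun x _ => sum_congr rfl fun y _ => by ring

lemma Q_single (P : V → V → ℝ) (x : V) : Q P (fun z => if z = x then 1 else 0) = P x x := by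
  simp [Q]

omit [DecidableEq V] in
lemma PSD.add {P R : V → V → ℝ} (hP : PSD P) (hR : PSD R) : PSD (fun x y => P x y + R x y) :=
  ⟨fun x y => by beta_reduce; rw [hP.1 x y, hR.1 x y], fun f => by
    rw [Q_add]; exact add_nonneg (hP.2 f) (hR.2 f)⟩

omit [DecidableEq V] in
lemma PSD.smul {P : V → V → ℝ} (hP : PSD P) {c : ℝ} (hc : 0 ≤ c) : PSD (fun x y => c * P x y) :=
  ⟨fun x y => by beta_reduce; rw [hP.1 x y], fun f => by rw [Q_smul]; exact mul_nonneg hc (hP.2 f)⟩

lemma PSD.diag {P : V → V → ℝ} (hP : PSD P) (x : V) : 0 ≤ P x x := by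
  rw [← Q_single P x]; exact hP.2 _

omit [DecidableEq V] in
lemma PSD.congr {P R : V → V → ℝ} (hP : PSD P) (h : ∀ x y, R x y = P x y) : PSD R := by
  have : R = P := by funext x y; exact h x y
  rwa [this]

/-- A product-stable lower certificate for the vector chromatic number. -/
def Cert (r : V → V → Prop) (l : ℝ) : Prop :=
  ∃ (d : V → ℝ) (A : V → V → ℝ), (∀ x y, ¬ r x y → A x y = 0) ∧
    PSD (fun x y => (if x = y then d x else 0) + A x y) ∧
    PSD (fun x y => l * (if x = y then d x else 0) - A x y) ∧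
    ∑ x, ∑ y, A x y = l * ∑ x, d x ∧ 0 < ∑ x, d x

/-- An upper certificate (a strict vector colouring). -/
def Up (r : V → V → Prop) (t : ℝ) : Prop :=
  ∃ M : V → V → ℝ, PSD M ∧ (∀ x, M x x ≤ t - 1) ∧ ∀ x y, r x y → M x y = -1

/-- The usual lower certificate. -/
def Low (r : V → V → Prop) (t : ℝ) : Prop :=
  ∃ B : V → V → ℝ, PSD B ∧ (∀ x y, x ≠ y → ¬ r x y → B x y = 0) ∧ 0 < ∑ x, B x x ∧
    t * ∑ x, B x x ≤ ∑ x, ∑ y, B x y

lemma Cert.prod {r : V → V → Prop} {s : W → W → Prop} {l : ℝ} (hl : 1 ≤ l)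
    (h1 : Cert r l) (h2 : Cert s l) :
    Cert (fun x y : V × W => r x.1 y.1 ∧ s x.2 y.2) l := by
  obtain ⟨d1, A1, a1, b1, c1, e1, f1⟩ := h1
  obtain ⟨d2, A2, a2, b2, c2, e2, f2⟩ := h2
  have hl1 : 0 < l + 1 := by linarith
  have hD : ∀ x y : V × W, (if x = y then l * (d1 x.1 * d2 x.2) else 0)
      = l * ((if x.1 = y.1 then d1 x.1 else 0) * (if x.2 = y.2 then d2 x.2 else 0)) := by
    rintro ⟨x, x'⟩ ⟨y, y'⟩
    by_cases h : x = y <;> by_cases h' : x' = y' <;> simp [h, h']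
  refine ⟨fun x => l * (d1 x.1 * d2 x.2), fun x y => A1 x.1 y.1 * A2 x.2 y.2, ?_, ?_, ?_, ?_, ?_⟩
  · intro x y h
    beta_reduce
    by_cases h' : r x.1 y.1
    · rw [a2 _ _ (fun h'' => h ⟨h', h''⟩), mul_zero]
    · rw [a1 _ _ h', zero_mul]
  · refine ((((b1.kron b2).smul (c := l) (by linarith)).add (c1.kron c2)).smul
      (c := 1 / (l + 1)) (by positivity)).congr fun x y => ?_
    rw [hD]
    field_simp
    ring
  · refine ((((c1.kron c2).smul (c := l ^ 2 - 1) (by nlinarith)).add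
      (((c1.kron b2).add (b1.kron c2)).smul (c := l ^ 2 + l) (by nlinarith))).smul
      (c := 1 / (l + 1) ^ 2) (by positivity)).congr fun x y => ?_
    rw [hD]
    field_simp
    ring
  · have h1 : ∑ x : V × W, ∑ y : V × W, A1 x.1 y.1 * A2 x.2 y.2
        = (∑ x, ∑ y, A1 x y) * ∑ x, ∑ y, A2 x y := by
      simp only [Fintype.sum_prod_type, sum_mul_sum]
    have h2 : ∑ x : V × W, l * (d1 x.1 * d2 x.2) = l * ((∑ x, d1 x) * ∑ x, d2 x) := by
      rw [← mul_sum]
      simp only [Fintype.sum_prod_type, sum_mul_sum]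
    rw [h1, h2, e1, e2]; ring
  · have h2 : ∑ x : V × W, l * (d1 x.1 * d2 x.2) = l * ((∑ x, d1 x) * ∑ x, d2 x) := by
      rw [← mul_sum]
      simp only [Fintype.sum_prod_type, sum_mul_sum]
    rw [h2]; positivity

omit [DecidableEq W] in
lemma Cert.le_of_hom {r : V → V → Prop} {s : W → W → Prop} {l t : ℝ} (hi : ∀ x, ¬ r x x)
    (h1 : Cert r l) (h2 : Up s t) (φ : V → W) (hφ : ∀ x y, r x y → s (φ x) (φ y)) :
    l ≤ t - 1 := by
  obtain ⟨d, A, a1, b1, -, e1, f1⟩ := h1
  obtain ⟨M, m1, m2, m3⟩ := h2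
  have h := (b1.schur m1 φ).2 (fun _ => 1)
  rw [Q_one] at h
  have hd : ∀ x, 0 ≤ d x := fun x => by
    have := b1.diag x
    simpa [a1 x x (hi x)] using this
  have e : ∀ x y, ((if x = y then d x else 0) + A x y) * M (φ x) (φ y)
      = (if x = y then d x * M (φ x) (φ x) else 0) - A x y := by
    intro x y
    by_cases hr : r x y
    · have : x ≠ y := fun e => hi x (e ▸ hr)
      simp [this, m3 _ _ (hφ x y hr)]
    · by_cases hxy : x = y
      · subst hxy; simp [a1 _ _ hr]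
      · simp [hxy, a1 _ _ hr]
  simp only [e, sum_sub_distrib, sum_ite_eq, mem_univ, if_true] at h
  have h3 : ∑ x, d x * M (φ x) (φ x) ≤ ∑ x, d x * (t - 1) :=
    sum_le_sum fun x _ => mul_le_mul_of_nonneg_left (m2 _) (hd x)
  rw [← sum_mul] at h3
  rw [e1] at h
  have : l * ∑ x, d x ≤ (t - 1) * ∑ x, d x := by linarith
  exact le_of_mul_le_mul_right this f1

omit [DecidableEq V] in
lemma continuous_Q (P : V → V → ℝ) : Continuous (Q P) := by
  unfold Q
  fun_prop

lemma Low.cert {r : V → V → Prop} {l : ℝ} (hl : 0 < l) (h : Low r (2 * l + 1)) : Cert r l := by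
  obtain ⟨B, b1, b2, b3, b4⟩ := h
  have hne : Nonempty V := by
    by_contra hV
    rw [not_nonempty_iff] at hV
    simp at b3
  have hn : (0 : ℝ) < Fintype.card V := by exact_mod_cast Fintype.card_pos
  set T := ∑ x, B x x with hT
  set ε := T / Fintype.card V with hε
  have hε0 : 0 < ε := by positivity
  set d : V → ℝ := fun x => B x x + ε with hd
  have hd0 : ∀ x, 0 < d x := fun x => add_pos_of_nonneg_of_pos (b1.diag x) hε0
  set A : V → V → ℝ := fun x y => if x = y then 0 else B x y with hA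
  have hAs : ∀ x y, A x y = A y x := by
    intro x y
    by_cases h : x = y
    · rw [h]
    · simp [hA, h, Ne.symm h, b1.1 x y]
  have hlow : ∀ f, 0 ≤ ∑ x, d x * f x ^ 2 + Q A f := by
    intro f
    have e : Q (fun x y => B x y + (if x = y then ε else 0)) f
        = Q (fun x y => (if x = y then d x else 0) + A x y) f := by
      congr 1
      funext x y
      by_cases h : x = y <;> simp [hA, hd, h]
    rw [Q_add, Q_add, Q_diag d, Q_diag (fun _ => ε)] at e
    rw [← e]
    exact add_nonneg (b1.2 f) (sum_nonneg fun x _ => by positivity)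
  have hpos : ∀ f : V → ℝ, f ≠ 0 → 0 < ∑ x, d x * f x ^ 2 := by
    intro f hf
    obtain ⟨x, hx⟩ := Function.ne_iff.1 hf
    refine sum_pos' (fun x _ => mul_nonneg (hd0 x).le (sq_nonneg _)) ⟨x, mem_univ _, ?_⟩
    exact mul_pos (hd0 x) (pow_pos (abs_pos.2 hx) 2 |>.trans_eq (sq_abs _))
  have hne0 : ∀ f ∈ Metric.sphere (0 : V → ℝ) 1, f ≠ 0 := by
    rintro f hf rfl
    simp at hf
  have hcont : ContinuousOn (fun f : V → ℝ => Q A f / ∑ x, d x * f x ^ 2)
      (Metric.sphere (0 : V → ℝ) 1) :=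
    (continuous_Q A).continuousOn.div (by fun_prop) fun f hf => (hpos f (hne0 f hf)).ne'
  have h1 : (fun _ => (1 : ℝ)) ∈ Metric.sphere (0 : V → ℝ) 1 := by
    simp [pi_norm_const]
  obtain ⟨u, hu, hmax⟩ := (isCompact_sphere (0 : V → ℝ) 1).exists_isMaxOn ⟨_, h1⟩ hcont
  set μ := Q A u / ∑ x, d x * u x ^ 2 with hμ
  have hupos := hpos u (hne0 u hu)
  have hup : ∀ f, Q A f ≤ μ * ∑ x, d x * f x ^ 2 := by
    intro f
    by_cases hf : f = 0
    · subst hf; simp [Q]
    · have hnf : 0 < ‖f‖ := norm_pos_iff.2 hf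
      have hm : (fun x => ‖f‖⁻¹ * f x) ∈ Metric.sphere (0 : V → ℝ) 1 := by
        have : (fun x => ‖f‖⁻¹ * f x) = ‖f‖⁻¹ • f := rfl
        rw [this, mem_sphere_zero_iff_norm, norm_smul, norm_inv, norm_norm]
        field_simp
      have h2 : Q A (fun x => ‖f‖⁻¹ * f x) / ∑ x, d x * (‖f‖⁻¹ * f x) ^ 2 ≤ μ := hmax hm
      have e : ∑ x, d x * (‖f‖⁻¹ * f x) ^ 2 = ‖f‖⁻¹ ^ 2 * ∑ x, d x * f x ^ 2 := by
        rw [mul_sum]; exact sum_congr rfl fun x _ => by ring
      rw [Q_scale, e, mul_div_mul_left _ _ (by positivity), div_le_iff₀ (hpos f hf)] at h2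
      exact h2
  have hsd : ∑ x, d x = 2 * T := by
    simp only [hd, sum_add_distrib, sum_const, card_univ, nsmul_eq_mul, hε]
    field_simp
    ring
  have hsA : ∑ x, ∑ y, A x y = ∑ x, ∑ y, B x y - T := by
    rw [hT, ← sum_sub_distrib]
    refine sum_congr rfl fun x _ => ?_
    have : ∀ y, A x y = B x y - if x = y then B x x else 0 := by
      intro y; by_cases h : x = y <;> simp [hA, h]
    simp only [this, sum_sub_distrib, sum_ite_eq, mem_univ, if_true]
  have hlμ : l ≤ μ := by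
    have h2 := hup (fun _ => 1)
    rw [Q_one, hsA] at h2
    simp only [one_pow, mul_one] at h2
    rw [hsd] at h2
    have : l * (2 * T) ≤ μ * (2 * T) := by linarith
    exact le_of_mul_le_mul_right this (by linarith)
  have hμ0 : 0 < μ := hl.trans_le hlμ
  have hq0 : 0 ≤ l / μ := by positivity
  have hq1 : l / μ ≤ 1 := (div_le_one hμ0).2 hlμ
  have hsym : ∀ x y, (if x = y then d x * u x ^ 2 else 0) = if y = x then d y * u y ^ 2 else 0 := by
    intro x y
    by_cases h : x = y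
    · subst h; rfl
    · simp [h, Ne.symm h]
  have hdw : ∀ f : V → ℝ, ∑ x, d x * u x ^ 2 * f x ^ 2 = ∑ x, d x * (u x * f x) ^ 2 :=
    fun f => sum_congr rfl fun x _ => by ring
  refine ⟨fun x => d x * u x ^ 2, fun x y => l / μ * (u x * A x y * u y), ?_, ⟨?_, ?_⟩, ⟨?_, ?_⟩,
    ?_, hupos⟩
  · intro x y h
    by_cases hxy : x = y
    · simp [hA, hxy]
    · simp [hA, b2 x y hxy h]
  · intro x y
    beta_reduce
    rw [hsym, hAs x y]; ring
  · intro f
    rw [Q_add, Q_diag, Q_smul, Q_weight, hdw]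
    have h2 := hlow (fun x => u x * f x)
    have h3 : 0 ≤ ∑ x, d x * (u x * f x) ^ 2 :=
      sum_nonneg fun x _ => mul_nonneg (hd0 x).le (sq_nonneg _)
    nlinarith [mul_nonneg hq0 h2, mul_nonneg (sub_nonneg.2 hq1) h3]
  · intro x y
    beta_reduce
    rw [hsym, hAs x y]; ring
  · intro f
    rw [Q_sub, Q_smul, Q_diag, Q_smul, Q_weight, hdw]
    have h2 := mul_le_mul_of_nonneg_left (hup (fun x => u x * f x)) hq0
    have e : l / μ * (μ * ∑ x, d x * (u x * f x) ^ 2) = l * ∑ x, d x * (u x * f x) ^ 2 := by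
      field_simp
    linarith
  · have e : ∑ x, ∑ y, l / μ * (u x * A x y * u y) = l / μ * Q A u := by
      simp only [Q, mul_sum]
    rw [e]
    have e2 : Q A u = μ * ∑ x, d x * u x ^ 2 := by
      rw [hμ]; field_simp
    rw [e2]
    field_simp

end Pool.Agent.Lib.helper33.Theta
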