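import Pool.Agent.Lib.helper33.ThetaA

set_option autoImplicit false

namespace Pool.Agent.Lib.helper33.Theta

open Finset

variable {V : Type} [Fintype V] [DecidableEq V]

/-- Matrix units. -/
def unit (x y : V) : V → V → ℝ := fun a b => if a = x ∧ b = y then 1 else 0

lemma eq_sum_unit (B : V → V → ℝ) : B = ∑ x, ∑ y, B x y • unit x y := by
  funext a b
  simp [unit, Finset.sum_apply, ite_and]

lemma sum_unit (x y : V) : ∑ a, ∑ b, unit x y a b = 1 := by
  simp [unit, ite_and]

lemma PSD.abs_le {B : V → V → ℝ} (hB : PSD B) (x y : V) : 2 * |B x y| ≤ B x x + B y y := by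
  have key : ∀ s : ℝ, Q B (fun z => (if z = x then 1 else 0) + s * (if z = y then 1 else 0))
      = B x x + s * B x y + s * B y x + s ^ 2 * B y y := by
    intro s
    simp only [Q, add_mul, mul_add, sum_add_distrib]
    simp
    ring
  have h1 := hB.2 (fun z => (if z = x then 1 else 0) + 1 * (if z = y then 1 else 0))
  have h2 := hB.2 (fun z => (if z = x then 1 else 0) + (-1) * (if z = y then 1 else 0))
  rw [key, hB.1 y x] at h1 h2
  rcases abs_cases (B x y) with h | h <;> nlinarith [h.1]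

/-- Semidefinite duality in the form needed: a graph or its complement has a large lower
certificate. -/
lemma low_or_low [Nonempty V] (r : V → V → Prop) (hs : ∀ x y, r x y → r y x) (t : ℝ) (ht : 0 < t)
    (hn : t ^ 2 ≤ Fintype.card V) :
    Low r t ∨ Low (fun x y => ¬ r x y) t := by
  by_contra hno
  push Not at hno
  obtain ⟨h1, h2⟩ := hno
  let K : Set (V → V → ℝ) := {B | PSD B ∧ ∑ x, B x x = 1}
  let C : Set (V → V → ℝ) :=
    {B | (∀ x y, x ≠ y → ¬ r x y → B x y = 0) ∧ t ≤ ∑ x, ∑ y, B x y}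
  have hKconv : Convex ℝ K := by
    rintro A ⟨a1, a2⟩ B ⟨b1, b2⟩ a b ha hb hab
    refine ⟨(a1.smul ha).add (b1.smul hb), ?_⟩
    simp only [Pi.add_apply, Pi.smul_apply, smul_eq_mul, sum_add_distrib, ← mul_sum, a2, b2]
    linarith
  have hCconv : Convex ℝ C := by
    rintro A ⟨a1, a2⟩ B ⟨b1, b2⟩ a b ha hb hab
    refine ⟨fun x y h h' => by simp [a1 x y h h', b1 x y h h'], ?_⟩
    simp only [Pi.add_apply, Pi.smul_apply, smul_eq_mul, sum_add_distrib, ← mul_sum]
    have e : t = a * t + b * t := by rw [← add_mul, hab, one_mul]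
    nlinarith [mul_le_mul_of_nonneg_left a2 ha, mul_le_mul_of_nonneg_left b2 hb]
  have hKclosed : IsClosed K := by
    have e : K = ((⋂ x, ⋂ y, {B : V → V → ℝ | B x y = B y x}) ∩
        ⋂ f : V → ℝ, {B : V → V → ℝ | 0 ≤ Q B f}) ∩ {B | ∑ x, B x x = 1} := by
      ext B; simp [K, PSD]
    rw [e]
    refine ((isClosed_iInter fun x => isClosed_iInter fun y =>
      isClosed_eq (by fun_prop) (by fun_prop)).inter (isClosed_iInter fun f =>
      isClosed_le continuous_const ?_)).inter (isClosed_eq (by fun_prop) continuous_const)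
    unfold Q
    fun_prop
  have hKcomp : IsCompact K := by
    refine (isCompact_Icc (a := fun _ _ => (-1 : ℝ)) (b := fun _ _ => (1 : ℝ))).of_isClosed_subset
      hKclosed ?_
    rintro B ⟨b1, b2⟩
    have hd : ∀ x, B x x ≤ 1 := fun x =>
      b2 ▸ single_le_sum (f := fun x => B x x) (fun z _ => b1.diag z) (mem_univ x)
    have hb : ∀ x y, |B x y| ≤ 1 := fun x y => by
      have := b1.abs_le x y
      linarith [hd x, hd y]
    exact ⟨fun x y => (abs_le.1 (hb x y)).1, fun x y => (abs_le.1 (hb x y)).2⟩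
  have hCclosed : IsClosed C := by
    have e : C = (⋂ x, ⋂ y, ⋂ (_ : x ≠ y), ⋂ (_ : ¬ r x y), {B : V → V → ℝ | B x y = 0}) ∩
        {B | t ≤ ∑ x, ∑ y, B x y} := by
      ext B; simp [C]
    rw [e]
    exact (isClosed_iInter fun x => isClosed_iInter fun y => isClosed_iInter fun _ =>
      isClosed_iInter fun _ => isClosed_eq (by fun_prop) continuous_const).inter
      (isClosed_le continuous_const (by fun_prop))
  have hdisj : Disjoint K C := by
    rw [Set.disjoint_left]
    rintro B ⟨b1, b2⟩ ⟨c1, c2⟩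
    exact h1 ⟨B, b1, c1, by rw [b2]; exact one_pos, by rw [b2, mul_one]; exact c2⟩
  obtain ⟨F, u, v, hK, huv, hC⟩ :=
    geometric_hahn_banach_compact_closed hKconv hKcomp hCconv hCclosed hdisj
  set L : V → V → ℝ := fun x y => F (unit x y) with hL
  have hF : ∀ B, F B = ∑ x, ∑ y, B x y * L x y := by
    intro B
    conv_lhs => rw [eq_sum_unit B]
    simp only [map_sum, map_smul, smul_eq_mul, hL]
  obtain ⟨x0⟩ := ‹Nonempty V›
  set γ := L x0 x0 with hγ
  have hmem : ∀ x y, (x = y ∨ r x y) → ∀ s : ℝ,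
      (t • unit x0 x0 + s • (unit x y - unit x0 x0)) ∈ C := by
    intro x y hxy s
    refine ⟨fun a b hab hr => ?_, ?_⟩
    · have n1 : ¬ (a = x0 ∧ b = x0) := fun h => hab (h.1.trans h.2.symm)
      have n2 : ¬ (a = x ∧ b = y) := by
        rintro ⟨rfl, rfl⟩
        exact hxy.elim hab hr
      simp [unit, n1, n2]
    · simp only [Pi.add_apply, Pi.smul_apply, Pi.sub_apply, smul_eq_mul, sum_add_distrib,
        ← mul_sum, sum_sub_distrib, sum_unit]
      simp
  have hval : ∀ x y (s : ℝ), F (t • unit x0 x0 + s • (unit x y - unit x0 x0))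
      = t * γ + s * (L x y - γ) := by
    intro x y s
    simp only [map_add, map_smul, map_sub, smul_eq_mul, hγ, hL]
  have hLγ : ∀ x y, (x = y ∨ r x y) → L x y = γ := by
    intro x y hxy
    by_contra hne
    have hne' : L x y - γ ≠ 0 := sub_ne_zero.2 hne
    have := hC _ (hmem x y hxy ((v - t * γ) / (L x y - γ)))
    rw [hval, div_mul_cancel₀ _ hne'] at this
    linarith
  have hv : v < t * γ := by
    have := hC _ (hmem x0 x0 (Or.inl rfl) 0)
    rw [hval] at this
    linarith
  have hγ0 : 0 ≤ γ := by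
    by_contra hneg
    push Not at hneg
    have hm : ((t + (v - t * γ) / γ) • unit x0 x0) ∈ C := by
      refine ⟨fun a b hab _ => ?_, ?_⟩
      · have n1 : ¬ (a = x0 ∧ b = x0) := fun h => hab (h.1.trans h.2.symm)
        simp [unit, n1]
      · simp only [Pi.smul_apply, smul_eq_mul, ← mul_sum, sum_unit, mul_one]
        have : 0 ≤ (v - t * γ) / γ := div_nonneg_of_nonpos (by linarith) hneg.le
        linarith
    have := hC _ hm
    rw [map_smul, smul_eq_mul] at this
    have e : (t + (v - t * γ) / γ) * γ = v := by field_simp [hneg.ne]; ring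
    change v < (t + (v - t * γ) / γ) * γ at this
    linarith
  have hrank : ∀ f : V → ℝ, ∑ x, f x ^ 2 = 1 → Q L f < t * γ := by
    intro f hf
    have hm : (fun x y => f x * f y) ∈ K := by
      refine ⟨⟨fun x y => mul_comm _ _, fun g => ?_⟩, by simpa [sq] using hf⟩
      have : Q (fun x y => f x * f y) g = (∑ x, g x * f x) ^ 2 := by
        simp only [Q, sq, sum_mul_sum]
        exact sum_congr rfl fun x _ => sum_congr rfl fun y _ => by ring
      rw [this]; positivity
    have h3 := hK _ hm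
    rw [hF] at h3
    have e : Q L f = ∑ x, ∑ y, f x * f y * L x y := by
      simp only [Q]
      exact sum_congr rfl fun x _ => sum_congr rfl fun y _ => by ring
    rw [e]; linarith
  have hγpos : 0 < γ := by
    rcases hγ0.lt_or_eq with h | h
    · exact h
    · have := hrank (fun z => if z = x0 then 1 else 0) (by simp)
      rw [Q_single, ← hγ, ← h] at this
      simp at this
  have hall : ∀ f : V → ℝ, Q L f ≤ t * γ * ∑ x, f x ^ 2 := by
    intro f
    have hS : 0 ≤ ∑ x, f x ^ 2 := sum_nonneg fun x _ => sq_nonneg _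
    rcases hS.lt_or_eq with h | h
    · set S := ∑ x, f x ^ 2 with hSd
      have hc : (√S)⁻¹ ^ 2 = S⁻¹ := by rw [inv_pow, Real.sq_sqrt hS]
      have := hrank (fun x => (√S)⁻¹ * f x) (by
        simp only [mul_pow, ← mul_sum, hc]
        exact inv_mul_cancel₀ h.ne')
      rw [Q_scale, hc, inv_mul_lt_iff₀ h] at this
      linarith
    · have h0 : ∀ x, f x = 0 := fun x =>
        pow_eq_zero_iff (two_ne_zero) |>.1
          ((sum_eq_zero_iff_of_nonneg fun x _ => sq_nonneg (f x)).1 h.symm x (mem_univ x))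
      simp [Q, h0]
  have hQt : ∀ f : V → ℝ, Q (fun x y => L y x) f = Q L f := by
    intro f
    simp only [Q]
    rw [sum_comm]
    exact sum_congr rfl fun x _ => sum_congr rfl fun y _ => by ring
  let M : V → V → ℝ := fun x y =>
    (if x = y then t else 0) - 1 / (2 * γ) * (L x y + L y x)
  have hMQ : ∀ f, 0 ≤ Q M f := by
    intro f
    simp only [M]
    rw [Q_sub, Q_diag (fun _ => t), Q_smul, Q_add, hQt, ← mul_sum]
    have := hall f
    have e : 1 / (2 * γ) * (Q L f + Q L f) = Q L f / γ := by field_simp; ring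
    rw [e, sub_nonneg, div_le_iff₀ hγpos]
    linarith
  have hM : PSD M := by
    refine ⟨fun x y => ?_, hMQ⟩
    simp only [M, eq_comm (a := x), add_comm (L x y)]
  have hJ : PSD (fun _ _ : V => (1 : ℝ)) := ⟨fun _ _ => rfl, fun f => by rw [Q_const]; positivity⟩
  have hdiag : ∀ x, M x x + 1 = t := by
    intro x
    simp only [M, if_true, hLγ x x (Or.inl rfl)]
    field_simp
    ring
  have hcard : (0 : ℝ) < Fintype.card V := by exact_mod_cast Fintype.card_pos
  refine h2 ⟨fun x y => M x y + 1, hM.add hJ, ?_, ?_, ?_⟩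
  · intro x y hxy hr
    have hr' : r x y := not_not.1 hr
    simp only [M, if_neg hxy, hLγ x y (Or.inr hr'), hLγ y x (Or.inr (hs x y hr'))]
    field_simp
    ring
  · simp only [hdiag, sum_const, card_univ, nsmul_eq_mul]
    positivity
  · have h3 := hMQ (fun _ => 1)
    rw [Q_one] at h3
    simp only [hdiag, sum_add_distrib, sum_const, card_univ, nsmul_eq_mul, mul_one]
    nlinarith

/-- Ramsey's theorem (the proof is the one in helper17's library). -/
theorem ramsey (κ : Type) [Fintype κ] (t : ℕ) : ∀ N, ∃ n, ∀ (α : Type) [DecidableEq α]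
    (X : Finset α) (χ : Finset α → κ), n ≤ X.card →
      ∃ Y ⊆ X, Y.card = N ∧ ∃ c, ∀ T ⊆ Y, T.card = t → χ T = c := by
  classical
  induction t with
  | zero =>
    refine fun N => ⟨N, fun α _ X χ h => ?_⟩
    obtain ⟨Y, h1, h2⟩ := exists_subset_card_eq h
    exact ⟨Y, h1, h2, χ ∅, fun T _ e => by rw [card_eq_zero.mp e]⟩
  | succ t ih =>
    have key : ∀ M, ∃ n, ∀ (α : Type) [DecidableEq α] (X : Finset α) (χ : Finset α → κ),
        n ≤ X.card →
        ∃ Z ⊆ X, Z.card = M ∧ ∃ ψ : α → κ, ∀ T ⊆ Z, T.card = t + 1 → ∃ x ∈ T, χ T = ψ x := by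
      intro M
      induction M with
      | zero => exact ⟨0, fun α _ X χ _ => ⟨∅, by simp, rfl, fun _ => χ ∅, by simp⟩⟩
      | succ M ihM =>
        obtain ⟨n1, h1⟩ := ihM
        obtain ⟨n2, h2⟩ := ih n1
        refine ⟨n2 + 1, fun α _ X χ h => ?_⟩
        obtain ⟨x, hx⟩ := card_pos.mp (show 0 < X.card by omega)
        obtain ⟨Y, a1, a2, c, a3⟩ := h2 α (X.erase x) (fun T => χ (insert x T))
          (by rw [card_erase_of_mem hx]; omega)
        obtain ⟨Z, b1, b2, ψ, b3⟩ := h1 α Y χ a2.ge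
        have hz : x ∉ Z := fun h => notMem_erase x X (a1 (b1 h))
        refine ⟨insert x Z, insert_subset hx (b1.trans (a1.trans (erase_subset _ _))),
          by rw [card_insert_of_notMem hz, b2], Function.update ψ x c, fun T c1 c2 => ?_⟩
        by_cases e : x ∈ T
        · refine ⟨x, e, ?_⟩
          rw [Function.update_self, ← a3 (T.erase x) ((subset_insert_iff.mp c1).trans b1)
            (by rw [card_erase_of_mem e, c2]; rfl), insert_erase e]
        · obtain ⟨y, d1, d2⟩ := b3 T ((subset_insert_iff_of_notMem e).mp c1) c2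
          exact ⟨y, d1, by rw [Function.update_of_ne (ne_of_mem_of_not_mem d1 e), d2]⟩
    intro N
    obtain ⟨n, h⟩ := key (Fintype.card κ * N + 1)
    refine ⟨n, fun α _ X χ hX => ?_⟩
    obtain ⟨Z, b1, b2, ψ, b3⟩ := h α X χ hX
    obtain ⟨c, _, hc⟩ := exists_lt_card_fiber_of_mul_lt_card_of_maps_to (s := Z) (t := univ)
      (f := ψ) (n := N) (by simp) (by rw [b2, card_univ]; omega)
    obtain ⟨Y, h1, h2⟩ := exists_subset_card_eq hc.le
    refine ⟨Y, h1.trans ((filter_subset _ _).trans b1), h2, c, fun T d1 d2 => ?_⟩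
    obtain ⟨x, e1, e2⟩ := b3 T (d1.trans (h1.trans (filter_subset _ _))) d2
    rw [e2, (mem_filter.mp (h1 (d1 e1))).2]

lemma ramsey2 (κ : Type) [Fintype κ] [Inhabited κ] (N : ℕ) :
    ∃ M : ℕ, ∀ χ : Fin M → Fin M → κ, ∃ g : Fin N → Fin M, StrictMono g ∧
      ∃ c, ∀ i j, i < j → χ (g i) (g j) = c := by
  obtain ⟨M, hM⟩ := ramsey κ 2 N
  refine ⟨M, fun χ => ?_⟩
  obtain ⟨Y, -, hY, c, hc⟩ := hM (Fin M) univ
    (fun T => if h : T.Nonempty then χ (T.min' h) (T.max' h) else default) (by simp)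
  refine ⟨Y.orderEmbOfFin hY, (Y.orderEmbOfFin hY).strictMono, c, fun i j hij => ?_⟩
  have hlt := (Y.orderEmbOfFin hY).strictMono hij
  have h := hc {Y.orderEmbOfFin hY i, Y.orderEmbOfFin hY j}
    (insert_subset (orderEmbOfFin_mem _ _ _) (singleton_subset_iff.2 (orderEmbOfFin_mem _ _ _)))
    (card_pair hlt.ne)
  rw [dif_pos (insert_nonempty _ _)] at h
  rw [← h]
  congr 1
  · symm
    rw [min'_insert _ _ (singleton_nonempty _), min'_singleton, min_eq_left hlt.le]
  · symm
    rw [max'_insert _ _ (singleton_nonempty _), max'_singleton, max_eq_right hlt.le]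

end Pool.Agent.Lib.helper33.Theta
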