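import Pool.Agent.Lib.helper33.ThetaB

set_option autoImplicit false

namespace Pool.Agent.Lib.helper33.Theta

open Finset

section polarity

variable {F : Type} [Field F] [Fintype F] [DecidableEq F]

/-- Adjacency kernel of an affine polarity graph. -/
def pol (z w : F × F) : ℝ := if (z.1 - w.1) ^ 2 + z.2 + w.2 = 0 then 1 else 0

omit [Fintype F] in
lemma pol_symm (z w : F × F) : pol z w = pol w z := by
  have : (z.1 - w.1) ^ 2 + z.2 + w.2 = (w.1 - z.1) ^ 2 + w.2 + z.2 := by ring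
  simp only [pol, this]

lemma pol_apply (g : F × F → ℝ) (z : F × F) :
    ∑ w, pol z w * g w = ∑ a, g (a, -(z.1 - a) ^ 2 - z.2) := by
  rw [Fintype.sum_prod_type]
  refine sum_congr rfl fun a _ => ?_
  have : ∀ q, pol z (a, q) = if q = -(z.1 - a) ^ 2 - z.2 then 1 else 0 := by
    intro q
    simp only [pol]
    congr 1
    refine propext ⟨fun h => by linear_combination h, fun h => by rw [h]; ring⟩
  simp [this]

omit [DecidableEq F] in
lemma pol_sum (g : F × F → ℝ) :
    ∑ z : F × F, ∑ a, g (a, -(z.1 - a) ^ 2 - z.2) = Fintype.card F * ∑ z, g z := by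
  rw [sum_comm, Fintype.sum_prod_type (f := g), mul_sum]
  refine sum_congr rfl fun a _ => ?_
  rw [Fintype.sum_prod_type]
  have : ∀ b : F, ∑ q, g (a, -(b - a) ^ 2 - q) = ∑ q, g (a, q) := fun b =>
    (Equiv.subLeft (-(b - a) ^ 2)).sum_comp (fun q => g (a, q))
  simp [this]

lemma pol_sq (h2 : (2 : F) ≠ 0) (g : F × F → ℝ) :
    ∑ z : F × F, (∑ a, g (a, -(z.1 - a) ^ 2 - z.2)) ^ 2
      ≤ (∑ z, g z) ^ 2 + Fintype.card F * ∑ z, g z ^ 2 := by
  set G : F → ℝ := fun a => ∑ q, g (a, q) with hG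
  have key : ∀ a b : F, ∑ z : F × F, g (a, -(z.1 - a) ^ 2 - z.2) * g (b, -(z.1 - b) ^ 2 - z.2)
      = G a * G b + if a = b then Fintype.card F * ∑ q, g (a, q) ^ 2 - G a ^ 2 else 0 := by
    intro a b
    by_cases hab : a = b
    · subst hab
      rw [if_pos rfl, Fintype.sum_prod_type]
      have : ∀ c : F, ∑ q, g (a, -(c - a) ^ 2 - q) * g (a, -(c - a) ^ 2 - q)
          = ∑ q, g (a, q) ^ 2 := fun c => by
        rw [← (Equiv.subLeft (-(c - a) ^ 2)).sum_comp (fun q => g (a, q) ^ 2)]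
        simp [sq]
      simp only [this, sum_const, card_univ, nsmul_eq_mul]
      ring
    · rw [if_neg hab, add_zero]
      have hinj : Function.Injective
          fun z : F × F => (-(z.1 - a) ^ 2 - z.2, -(z.1 - b) ^ 2 - z.2) := by
        rintro ⟨x, q⟩ ⟨y, s⟩ h
        simp only [Prod.mk.injEq] at h
        have h3 : (2 * (a - b)) * (x - y) = 0 := by linear_combination h.1 - h.2
        have h4 : x = y := by
          rcases mul_eq_zero.1 h3 with h5 | h5
          · exact absurd h5 (mul_ne_zero h2 (sub_ne_zero.2 hab))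
          · exact sub_eq_zero.1 h5
        subst h4
        have : q = s := by linear_combination -h.1
        rw [this]
      have hb := (Finite.injective_iff_bijective.1 hinj).sum_comp
        (fun w : F × F => g (a, w.1) * g (b, w.2))
      simp only at hb
      rw [hb, Fintype.sum_prod_type, hG, sum_mul_sum]
  have e1 : ∑ z : F × F, (∑ a, g (a, -(z.1 - a) ^ 2 - z.2)) ^ 2
      = ∑ a, ∑ b, ∑ z : F × F, g (a, -(z.1 - a) ^ 2 - z.2) * g (b, -(z.1 - b) ^ 2 - z.2) := by
    simp only [sq (∑ a, _), sum_mul_sum]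
    rw [sum_comm]
    exact sum_congr rfl fun a _ => sum_comm
  rw [e1]
  simp only [key, sum_add_distrib, sum_ite_eq, mem_univ, if_true, sum_sub_distrib]
  rw [← sum_mul_sum, ← mul_sum, Fintype.sum_prod_type (f := g),
    Fintype.sum_prod_type (f := fun z => g z ^ 2), sq]
  have : 0 ≤ ∑ a, G a ^ 2 := sum_nonneg fun a _ => sq_nonneg _
  linarith

lemma pol_bound (h2 : (2 : F) ≠ 0) (ρ : ℝ) (hρ : 0 < ρ) (hp : (Fintype.card F : ℝ) ≤ ρ ^ 2)
    (g : F × F → ℝ) :
    (∑ z, g z) ^ 2 - Fintype.card F * ρ * ∑ z, g z ^ 2 ≤ Fintype.card F * Q pol g := by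
  set p : ℝ := (Fintype.card F : ℝ) with hpd
  have hp0 : 0 < p := by rw [hpd]; exact_mod_cast Fintype.card_pos
  set σ := ∑ z, g z with hσ
  set S := ∑ z, g z ^ 2 with hS
  set k : F × F → ℝ := fun z => ∑ a, g (a, -(z.1 - a) ^ 2 - z.2) with hk
  have h1 : ∑ z, k z = p * σ := pol_sum g
  have h3 : ∑ z, k z ^ 2 ≤ σ ^ 2 + p * S := pol_sq h2 g
  have h4 : Q pol g = ∑ z, g z * k z := by
    simp only [Q, hk, ← pol_apply, mul_sum, mul_assoc]
  have h5 : 0 ≤ ∑ z, (ρ * g z + (k z - σ / p)) ^ 2 := sum_nonneg fun _ _ => sq_nonneg _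
  have h6 : ∑ z, (ρ * g z + (k z - σ / p)) ^ 2 = ρ ^ 2 * S + 2 * ρ * ∑ z, g z * k z
      - 2 * ρ * (σ / p) * σ + ∑ z, k z ^ 2 - 2 * (σ / p) * ∑ z, k z + p * p * (σ / p) ^ 2 := by
    have : ∀ z, (ρ * g z + (k z - σ / p)) ^ 2 = ρ ^ 2 * g z ^ 2 + 2 * ρ * (g z * k z)
        - 2 * ρ * (σ / p) * g z + k z ^ 2 - 2 * (σ / p) * k z + (σ / p) ^ 2 := fun z => by ring
    simp only [this, sum_add_distrib, sum_sub_distrib, ← mul_sum, sum_const, card_univ,
      Fintype.card_prod, nsmul_eq_mul, Nat.cast_mul]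
    rfl
  have hS0 : 0 ≤ S := sum_nonneg fun _ _ => sq_nonneg _
  rw [h6, h1] at h5
  have e1 : 2 * (σ / p) * (p * σ) = 2 * σ ^ 2 := by field_simp
  have e2 : p * p * (σ / p) ^ 2 = σ ^ 2 := by field_simp
  rw [e1, e2] at h5
  have h7 : 0 ≤ 2 * ρ * (ρ * S + ∑ z, g z * k z - σ / p * σ) := by
    nlinarith [mul_le_mul_of_nonneg_right hp hS0]
  have h8 : 0 ≤ ρ * S + ∑ z, g z * k z - σ / p * σ :=
    (mul_nonneg_iff_of_pos_left (by linarith)).1 h7
  have h9 := mul_nonneg hp0.le h8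
  have e3 : p * (σ / p * σ) = σ ^ 2 := by field_simp
  rw [h4]
  nlinarith

end polarity

lemma Q_push {V Z : Type} [Fintype V] [Fintype Z] [DecidableEq Z] (π : V → Z) (P : Z → Z → ℝ)
    (f : V → ℝ) :
    Q (fun v w => P (π v) (π w)) f = Q P (fun z => ∑ v ∈ univ.filter (fun v => π v = z), f v) := by
  have key : ∀ u : Z → ℝ, ∑ v, f v * u (π v)
      = ∑ z, (∑ v ∈ univ.filter (fun v => π v = z), f v) * u z := by
    intro u
    rw [← sum_fiberwise univ π]
    refine sum_congr rfl fun z _ => ?_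
    rw [sum_mul]
    exact sum_congr rfl fun v hv => by rw [(mem_filter.1 hv).2]
  set g : Z → ℝ := fun z => ∑ v ∈ univ.filter (fun v => π v = z), f v with hg
  have k2 : ∀ z, ∑ w, P z (π w) * f w = ∑ y, P z y * g y := by
    intro z
    simp only [mul_comm (P z _)]
    exact key (P z)
  simp only [Q, mul_assoc, ← mul_sum, k2]
  exact key (fun z => ∑ y, P z y * g y)

/-- Triangle-free graphs with a small Lovasz theta function. -/
lemma exists_tf (p ρ : ℕ) (hp : p.Prime) (hp2 : p ≠ 2) (hρ : p ≤ ρ ^ 2) :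
    ∃ (V : Type) (_ : Fintype V) (_ : DecidableEq V) (A : V → V → Prop),
      Fintype.card V = p * (p - 1) ∧ (∀ x y, A x y → A y x) ∧
      (∀ x y z, A x y → A x z → ¬ A y z) ∧
      Up (fun x y => x ≠ y ∧ ¬ A x y) (2 * (p * ρ : ℕ)) := by
  have := Fact.mk hp
  have hchar : ringChar (ZMod p) ≠ 2 := by rw [ZMod.ringChar_zmod_n]; exact hp2
  have h2 : (2 : ZMod p) ≠ 0 := Ring.two_ne_zero hchar
  obtain ⟨ν, hν⟩ := FiniteField.exists_nonsquare hchar
  have hν0 : ν ≠ 0 := by rintro rfl; exact hν ⟨0, by simp⟩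
  let π : ZMod p × (ZMod p)ˣ → ZMod p × ZMod p := fun v => (v.1, ν * (v.2 : ZMod p) ^ 2)
  have htri : ∀ x y z : ZMod p × (ZMod p)ˣ,
      ((π x).1 - (π y).1) ^ 2 + (π x).2 + (π y).2 = 0 →
      ((π x).1 - (π z).1) ^ 2 + (π x).2 + (π z).2 = 0 →
      ¬ ((π y).1 - (π z).1) ^ 2 + (π y).2 + (π z).2 = 0 := by
    rintro ⟨a, x⟩ ⟨b, y⟩ ⟨c, z⟩ e1 e2 e3
    simp only [π] at e1 e2 e3
    have q1 : ν * (x : ZMod p) ^ 2 = -((a - b) * (a - c)) :=
      mul_left_cancel₀ h2 (by linear_combination e1 + e2 - e3)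
    have q2 : ν * (y : ZMod p) ^ 2 = -((b - a) * (b - c)) :=
      mul_left_cancel₀ h2 (by linear_combination e1 + e3 - e2)
    have q3 : ν * (z : ZMod p) ^ 2 = -((c - a) * (c - b)) :=
      mul_left_cancel₀ h2 (by linear_combination e2 + e3 - e1)
    have hx := x.ne_zero
    have hy := y.ne_zero
    have hz := z.ne_zero
    refine hν ⟨(a - b) * (a - c) * (b - c) / (ν * x * y * z), ?_⟩
    have hprod : (ν * (x : ZMod p) ^ 2) * (ν * (y : ZMod p) ^ 2) * (ν * (z : ZMod p) ^ 2)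
        = ((a - b) * (a - c) * (b - c)) ^ 2 := by rw [q1, q2, q3]; ring
    field_simp
    linear_combination hprod
  refine ⟨ZMod p × (ZMod p)ˣ, inferInstance, inferInstance,
    fun x y => ((π x).1 - (π y).1) ^ 2 + (π x).2 + (π y).2 = 0, ?_, ?_, htri, ?_⟩
  · rw [Fintype.card_prod, ZMod.card, ZMod.card_units]
  · intro x y h
    linear_combination h
  · have hρ0 : (0 : ℝ) < ρ := by
      have : 0 < ρ := by
        rcases Nat.eq_zero_or_pos ρ with h | h
        · subst h; have := hp.pos; simp at hρ; omega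
        · exact h
      exact_mod_cast this
    refine ⟨fun x y => (if x = y then (2 * (p * ρ : ℕ) : ℝ) else 0) - 1 + p * pol (π x) (π y),
      ⟨fun x y => ?_, fun f => ?_⟩, fun x => ?_, fun x y h => ?_⟩
    · simp only [eq_comm (a := x), pol_symm (π x)]
    · rw [Q_add, Q_sub, Q_diag (fun _ => (2 * (p * ρ : ℕ) : ℝ)), Q_const, Q_smul, Q_push,
        ← mul_sum]
      set g : ZMod p × ZMod p → ℝ := fun z => ∑ v ∈ univ.filter (fun v => π v = z), f v with hg
      have hb := pol_bound h2 ρ hρ0 (by rw [ZMod.card]; exact_mod_cast hρ) g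
      rw [ZMod.card] at hb
      have h1 : ∑ z, g z = ∑ v, f v := sum_fiberwise univ π f
      have h3 : ∑ z, g z ^ 2 ≤ 2 * ∑ v, f v ^ 2 := by
        rw [← sum_fiberwise univ π (fun v => f v ^ 2), mul_sum]
        refine sum_le_sum fun z _ => sq_sum_le_card_mul_sum_sq.trans ?_
        refine mul_le_mul_of_nonneg_right ?_ (sum_nonneg fun _ _ => sq_nonneg _)
        have : (univ.filter fun v => π v = z).card ≤ 2 := by
          rcases (univ.filter fun v => π v = z).eq_empty_or_nonempty with h | ⟨⟨a, x⟩, hx⟩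
          · simp [h]
          · refine (card_le_card (t := {(a, x), (a, -x)}) ?_).trans card_le_two
            rintro ⟨b, y⟩ hy
            have e := (mem_filter.1 hy).2.trans (mem_filter.1 hx).2.symm
            simp only [π, Prod.mk.injEq] at e
            obtain ⟨rfl, e⟩ := e
            have e' := mul_left_cancel₀ hν0 e
            rcases sq_eq_sq_iff_eq_or_eq_neg.1 e' with h | h
            · simp [Units.ext h]
            · have : y = -x := Units.ext (by simpa using h)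
              simp [this]
        exact_mod_cast this
      rw [h1] at hb
      have hp0 : (0 : ℝ) ≤ p * ρ := by positivity
      have := mul_le_mul_of_nonneg_left h3 hp0
      push_cast
      nlinarith
    · have : pol (π x) (π x) = 0 := by
        simp only [pol]
        exact if_neg fun h => htri x x x h h h
      simp [this]
    · have : pol (π x) (π y) = 0 := if_neg h.2
      simp [this, h.1]

lemma up_complete (W : Type) [Fintype W] [DecidableEq W] :
    Up (fun x y : W => x ≠ y) (Fintype.card W) := by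
  refine ⟨fun x y => (if x = y then (Fintype.card W : ℝ) else 0) - 1, ⟨fun x y => ?_, fun f => ?_⟩,
    fun x => by simp, fun x y h => by simp [h]⟩
  · simp only [eq_comm (a := x)]
  · rw [Q_sub, Q_diag (fun _ => (Fintype.card W : ℝ)), Q_const, ← mul_sum, sub_nonneg]
    exact sq_sum_le_card_mul_sum_sq

lemma Low.mono {V : Type} [Fintype V] {r s : V → V → Prop} {t : ℝ} (h : Low r t)
    (hrs : ∀ x y, x ≠ y → r x y → s x y) : Low s t := by
  obtain ⟨B, b1, b2, b3⟩ := h
  exact ⟨B, b1, fun x y h h' => b2 x y h fun h'' => h' (hrs x y h h''), b3⟩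

/-- A graph with a large certificate that maps to a colour class of every colouring. -/
lemma exists_universal (l : ℕ) (hl : 1 ≤ l) :
    ∃ (V : Type) (_ : Fintype V) (_ : DecidableEq V) (r : V → V → Prop),
      (∀ x y, r x y → r y x) ∧ (∀ x, ¬ r x x) ∧ Cert r l ∧
      ∀ σ : Fin ((2 * l + 1) ^ 2) → Fin ((2 * l + 1) ^ 2) → Bool, (∀ i j, σ i j = σ j i) →
        ∃ (b : Bool) (φ : V → Fin ((2 * l + 1) ^ 2)),
          ∀ x y, r x y → φ x ≠ φ y ∧ σ (φ x) (φ y) = b := by
  have hl' : (1 : ℝ) ≤ l := by exact_mod_cast hl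
  have : Nonempty (Fin ((2 * l + 1) ^ 2)) := ⟨⟨0, by positivity⟩⟩
  have hone : ∀ σ : Fin ((2 * l + 1) ^ 2) → Fin ((2 * l + 1) ^ 2) → Bool, (∀ i j, σ i j = σ j i) →
      ∃ b, Cert (fun i j => i ≠ j ∧ σ i j = b) l := by
    intro σ hσ
    rcases low_or_low (fun i j => σ i j = true) (fun i j h => (hσ j i).trans h) (2 * l + 1)
      (by positivity) (by simp) with h | h
    · exact ⟨true, (h.mono fun x y h1 h2 => ⟨h1, h2⟩).cert (by linarith)⟩
    · exact ⟨false, (h.mono fun x y h1 h2 => ⟨h1, by simpa using h2⟩).cert (by linarith)⟩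
  suffices h : ∀ S : Finset (Fin ((2 * l + 1) ^ 2) → Fin ((2 * l + 1) ^ 2) → Bool),
      ∃ (V : Type) (_ : Fintype V) (_ : DecidableEq V) (r : V → V → Prop),
      (∀ x y, r x y → r y x) ∧ (∀ x, ¬ r x x) ∧ Cert r l ∧
      ∀ σ ∈ S, (∀ i j, σ i j = σ j i) →
        ∃ (b : Bool) (φ : V → Fin ((2 * l + 1) ^ 2)),
          ∀ x y, r x y → φ x ≠ φ y ∧ σ (φ x) (φ y) = b by
    obtain ⟨V, i1, i2, r, a, b, c, d⟩ := h univ
    exact ⟨V, i1, i2, r, a, b, c, fun σ => d σ (mem_univ _)⟩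
  intro S
  induction S using Finset.induction_on with
  | empty =>
    obtain ⟨b, hb⟩ := hone (fun _ _ => true) (fun _ _ => rfl)
    exact ⟨_, inferInstance, inferInstance, _, fun x y h => ⟨h.1.symm, h.2⟩,
      fun x h => h.1 rfl, hb, by simp⟩
  | insert τ S _ ih =>
    obtain ⟨V, i1, i2, r, a, b, c, d⟩ := ih
    by_cases hτ : ∀ i j, τ i j = τ j i
    · obtain ⟨β, hβ⟩ := hone τ hτ
      refine ⟨V × Fin ((2 * l + 1) ^ 2), inferInstance, inferInstance, _, ?_, ?_,
        c.prod hl' hβ, ?_⟩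
      · exact fun x y h => ⟨a _ _ h.1, h.2.1.symm, (hτ _ _).trans h.2.2⟩
      · exact fun x h => b _ h.1
      · intro σ hσ hs
        rcases mem_insert.1 hσ with rfl | hσ
        · exact ⟨β, Prod.snd, fun x y h => h.2⟩
        · obtain ⟨b', φ, hφ⟩ := d σ hσ hs
          exact ⟨b', fun x => φ x.1, fun x y h => hφ _ _ h.1⟩
    · refine ⟨V, i1, i2, r, a, b, c, fun σ hσ hs => ?_⟩
      rcases mem_insert.1 hσ with rfl | hσ
      · exact absurd hs hτ
      · exact d σ hσ hs

end Pool.Agent.Lib.helper33.Theta
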