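import Mathlib

set_option autoImplicit false

namespace Pool.Agent.Lib.helper33.Tol

open Finset

/-- Packing or covering: a family of small nonempty sets has `L` disjoint members or a small
transversal. -/
lemma pack_or_cover {V : Type*} [DecidableEq V] (bad : Finset V → Prop) (d : ℕ)
    (hb : ∀ T, bad T → T.Nonempty ∧ T.card ≤ d) : ∀ L : ℕ,
    (∃ T : Fin L → Finset V, (∀ i, bad (T i)) ∧ ∀ i j, i ≠ j → Disjoint (T i) (T j)) ∨
    ∃ B : Finset V, B.card ≤ d * L ∧ ∀ T, bad T → ¬ Disjoint T B := by
  intro L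
  induction L with
  | zero => exact Or.inl ⟨fun i => i.elim0, fun i => i.elim0, fun i => i.elim0⟩
  | succ L ih =>
    rcases ih with ⟨T, h1, h2⟩ | ⟨B, h1, h2⟩
    · by_cases hc : ∀ S, bad S → ¬ Disjoint S (univ.biUnion T)
      · refine Or.inr ⟨univ.biUnion T, ?_, hc⟩
        calc (univ.biUnion T).card ≤ ∑ i, (T i).card := card_biUnion_le
          _ ≤ ∑ _i : Fin L, d := sum_le_sum fun i _ => (hb _ (h1 i)).2
          _ = d * L := by simp [mul_comm]
          _ ≤ d * (L + 1) := Nat.mul_le_mul_left _ (Nat.le_succ _)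
      · push Not at hc
        obtain ⟨S, hS, hd⟩ := hc
        have hd' : ∀ i, Disjoint S (T i) := fun i =>
          hd.mono_right (subset_biUnion_of_mem T (mem_univ i))
        refine Or.inl ⟨Fin.cons S T, ?_, ?_⟩
        · intro i
          refine Fin.cases ?_ (fun i => ?_) i
          · simpa using hS
          · simpa using h1 i
        · intro i j
          refine Fin.cases ?_ (fun i => ?_) i <;> refine Fin.cases ?_ (fun j => ?_) j
          · intro h; exact absurd rfl h
          · intro _; simpa using hd' j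
          · intro _; simpa using (hd' i).symm
          · intro h
            simpa using h2 i j (fun e => h (by rw [e]))
    · exact Or.inr ⟨B, h1.trans (Nat.mul_le_mul_left _ (Nat.le_succ _)), h2⟩

/-- Greedy colouring of a symmetric irreflexive relation of bounded degree. -/
lemma greedy {V : Type*} [Fintype V] [DecidableEq V] (r : V → V → Prop) [DecidableRel r] (k : ℕ)
    (hs : ∀ a b, r a b → r b a) (hi : ∀ a, ¬ r a a)
    (hd : ∀ a, (univ.filter (r a)).card ≤ k) :
    ∃ c : V → Fin (k + 1), ∀ a b, r a b → c a ≠ c b := by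
  suffices h : ∀ s : Finset V, ∃ c : V → Fin (k + 1), ∀ a ∈ s, ∀ b ∈ s, r a b → c a ≠ c b by
    obtain ⟨c, hc⟩ := h univ
    exact ⟨c, fun a b => hc a (mem_univ _) b (mem_univ _)⟩
  intro s
  induction s using Finset.induction_on with
  | empty => exact ⟨fun _ => 0, by simp⟩
  | insert v s hv ih =>
    obtain ⟨c, hc⟩ := ih
    have hlt : ((univ.filter (r v)).image c).card < (univ : Finset (Fin (k + 1))).card := by
      have := (card_image_le (s := univ.filter (r v)) (f := c)).trans (hd v)
      simp only [card_univ, Fintype.card_fin]; omega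
    obtain ⟨x, -, hx⟩ := exists_mem_notMem_of_card_lt_card hlt
    have hx' : ∀ b, r v b → c b ≠ x := fun b hb e =>
      hx (mem_image.2 ⟨b, mem_filter.2 ⟨mem_univ _, hb⟩, e⟩)
    refine ⟨Function.update c v x, ?_⟩
    intro a ha b hb hab
    rcases mem_insert.1 ha with rfl | ha' <;> rcases mem_insert.1 hb with rfl | hb'
    · exact absurd hab (hi _)
    · have : b ≠ a := fun e => hv (e ▸ hb')
      rw [Function.update_self, Function.update_of_ne this]
      exact (hx' b hab).symm
    · have : a ≠ b := fun e => hv (e ▸ ha')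
      rw [Function.update_self, Function.update_of_ne this]
      exact hx' a (hs _ _ hab)
    · have h1 : a ≠ v := fun e => hv (e ▸ ha')
      have h2 : b ≠ v := fun e => hv (e ▸ hb')
      rw [Function.update_of_ne h1, Function.update_of_ne h2]
      exact hc a ha' b hb' hab

/-- Functions that are not constantly `a` on any of `L` disjoint small sets are rare. -/
lemma count_avoid {V : Type*} [Fintype V] [DecidableEq V] (q d : ℕ) (a : Fin q) :
    ∀ (L : ℕ) (T : Fin L → Finset V), (∀ i, (T i).card ≤ d) →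
      (∀ i j, i ≠ j → Disjoint (T i) (T j)) →
      (((univ : Finset (V → Fin q)).filter fun f => ∀ i, ¬ ∀ y ∈ T i, f y = a).card : ℝ)
        ≤ (1 - 1 / (q : ℝ) ^ d) ^ L * (q : ℝ) ^ Fintype.card V := by
  have hq : 0 < q := Nat.pos_of_ne_zero (by rintro rfl; exact a.elim0)
  have hq1 : (1 : ℝ) ≤ q := by exact_mod_cast hq
  have hqd : (1 : ℝ) ≤ (q : ℝ) ^ d := one_le_pow₀ hq1
  have hrho : (0 : ℝ) ≤ 1 - 1 / (q : ℝ) ^ d := by
    rw [sub_nonneg, div_le_one (by linarith)]; exact hqd
  intro L
  induction L with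
  | zero =>
    intro T _ _
    simp
  | succ L ih =>
    intro T h1 h2
    have ih' := ih (fun i => T i.succ) (fun i => h1 _)
      (fun i j h => h2 _ _ (fun e => h (Fin.succ_injective _ e)))
    set S := (univ : Finset (V → Fin q)).filter fun f => ∀ i : Fin L, ¬ ∀ y ∈ T i.succ, f y = a
      with hS
    set A := S.filter fun f => ∀ y ∈ T 0, f y = a with hA
    have hsplit : ((univ : Finset (V → Fin q)).filter fun f => ∀ i, ¬ ∀ y ∈ T i, f y = a)
        = S.filter fun f => ¬ ∀ y ∈ T 0, f y = a := by
      ext f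
      simp only [hS, mem_filter, mem_univ, true_and, Fin.forall_fin_succ]
      tauto
    have hcard : A.card + (S.filter fun f => ¬ ∀ y ∈ T 0, f y = a).card = S.card :=
      card_filter_add_card_filter_not _
    have hle : S.card ≤ q ^ d * A.card := by
      refine card_le_mul_card_image_of_maps_to
        (f := fun f y => if y ∈ T 0 then a else f y) ?_ _ ?_
      · intro f hf
        simp only [hA, hS, mem_filter, mem_univ, true_and] at hf ⊢
        refine ⟨fun i h => hf i fun y hy => ?_, fun y hy => by simp [hy]⟩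
        have hn : y ∉ T 0 := fun h0 =>
          disjoint_left.1 (h2 0 i.succ (Fin.succ_ne_zero i).symm) h0 hy
        simpa [hn] using h y hy
      · intro g _
        calc _ ≤ (univ : Finset (T 0 → Fin q)).card := by
              refine card_le_card_of_injOn (fun f y => f y.1) (fun _ _ => mem_univ _) ?_
              intro f hf f' hf' e
              simp only [coe_filter, Set.mem_ofPred_eq] at hf hf'
              funext y
              by_cases hy : y ∈ T 0
              · exact congrFun e ⟨y, hy⟩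
              · have := congrFun (hf.2.trans hf'.2.symm) y
                simpa [hy] using this
          _ = q ^ (T 0).card := by simp
          _ ≤ q ^ d := Nat.pow_le_pow_right hq (h1 0)
    rw [hsplit]
    have hle' : (S.card : ℝ) ≤ (q : ℝ) ^ d * A.card := by exact_mod_cast hle
    have hcard' : (A.card : ℝ) + ((S.filter fun f => ¬ ∀ y ∈ T 0, f y = a).card : ℝ) = S.card := by
      exact_mod_cast hcard
    have hA' : 1 / (q : ℝ) ^ d * S.card ≤ A.card := by
      rw [one_div, inv_mul_le_iff₀ (by linarith)]; exact hle'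
    calc ((S.filter fun f => ¬ ∀ y ∈ T 0, f y = a).card : ℝ)
        ≤ (1 - 1 / (q : ℝ) ^ d) * S.card := by linarith
      _ ≤ (1 - 1 / (q : ℝ) ^ d) * ((1 - 1 / (q : ℝ) ^ d) ^ L * (q : ℝ) ^ Fintype.card V) :=
          mul_le_mul_of_nonneg_left ih' hrho
      _ = _ := by ring

lemma card_small_sets {V : Type*} [Fintype V] [DecidableEq V] (d : ℕ) (hV : 1 ≤ Fintype.card V) :
    ((univ : Finset (Finset V)).filter fun T => T.card ≤ d).card
      ≤ (d + 1) * Fintype.card V ^ d := by
  calc _ ≤ ((range (d + 1)).biUnion fun i => powersetCard i (univ : Finset V)).card := by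
        refine card_le_card fun T hT => ?_
        simp only [mem_filter, mem_univ, true_and] at hT
        exact mem_biUnion.2 ⟨T.card, mem_range.2 (by omega),
          mem_powersetCard.2 ⟨subset_univ _, rfl⟩⟩
    _ ≤ ∑ i ∈ range (d + 1), (powersetCard i (univ : Finset V)).card := card_biUnion_le
    _ ≤ ∑ _i ∈ range (d + 1), Fintype.card V ^ d := by
        refine sum_le_sum fun i hi => ?_
        rw [card_powersetCard, card_univ]
        exact (Nat.choose_le_pow _ _).trans
          (Nat.pow_le_pow_right hV (by have := mem_range.1 hi; omega))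
    _ = _ := by simp

/-- The expansion property used for the embedding. -/
def Exp {V : Type*} (r : V → V → Prop) (d L n : ℕ) : Prop :=
  ∀ T : Fin L → Finset V, (∀ i, (T i).card ≤ d) → (∀ i j, i ≠ j → Disjoint (T i) (T j)) →
    ∀ X : Finset V, n ≤ X.card → ∃ x ∈ X, ∃ i, ∀ y ∈ T i, r x y

lemma exists_colouring {V : Type*} [Fintype V] [DecidableEq V] (q d L n : ℕ) (hq : 0 < q)
    (hV : 1 ≤ Fintype.card V)
    (hnum : (q : ℝ) * (2 ^ Fintype.card V * (((d + 1) * Fintype.card V ^ d : ℕ) : ℝ) ^ L) *
      ((1 - 1 / (q : ℝ) ^ d) ^ L) ^ n < 1) :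
    ∃ c : V → V → Fin q, ∀ a, Exp (fun x y => c x y = a) d L n := by
  classical
  have hq1 : (1 : ℝ) ≤ q := by exact_mod_cast hq
  have hqd : (1 : ℝ) ≤ (q : ℝ) ^ d := one_le_pow₀ hq1
  have hrho : (0 : ℝ) ≤ 1 - 1 / (q : ℝ) ^ d := by
    rw [sub_nonneg, div_le_one (by linarith)]; exact hqd
  have hrho1 : 1 - 1 / (q : ℝ) ^ d ≤ 1 := by
    have : (0 : ℝ) ≤ 1 / (q : ℝ) ^ d := by positivity
    linarith
  set ρ : ℝ := (1 - 1 / (q : ℝ) ^ d) ^ L with hρ
  have hρ0 : 0 ≤ ρ := pow_nonneg hrho _
  have hρ1 : ρ ≤ 1 := pow_le_one₀ hrho hrho1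
  set M := Fintype.card V with hM
  set Q : ℝ := (q : ℝ) ^ M with hQ
  have hQ0 : 0 < Q := by positivity
  let small : Finset (Finset V) := univ.filter fun T => T.card ≤ d
  let idx : Finset (Fin q × Finset V × (Fin L → Finset V)) :=
    (univ ×ˢ (univ ×ˢ Fintype.piFinset fun _ => small)).filter fun p =>
      n ≤ p.2.1.card ∧ ∀ i j, i ≠ j → Disjoint (p.2.2 i) (p.2.2 j)
  let bad : Fin q × Finset V × (Fin L → Finset V) → Finset (V → V → Fin q) := fun p =>
    Fintype.piFinset fun x => if x ∈ p.2.1 then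
      univ.filter (fun f => ∀ i, ¬ ∀ y ∈ p.2.2 i, f y = p.1) else univ
  have hbad : ∀ p ∈ idx, ((bad p).card : ℝ) ≤ ρ ^ n * Q ^ M := by
    rintro ⟨a, X, T⟩ hp
    simp only [idx, small, mem_filter, mem_product, mem_univ, true_and, Fintype.mem_piFinset]
      at hp
    obtain ⟨hT, hX, hdis⟩ := hp
    have hc := count_avoid q d a L T hT hdis
    simp only [bad, Fintype.card_piFinset]
    push_cast
    calc ∏ x, (((if x ∈ X then univ.filter (fun f : V → Fin q => ∀ i, ¬ ∀ y ∈ T i, f y = a)
            else univ).card : ℕ) : ℝ)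
        ≤ ∏ x, (if x ∈ X then ρ else 1) * Q := by
          refine prod_le_prod (fun _ _ => Nat.cast_nonneg _) fun x _ => ?_
          split_ifs
          · exact hc
          · simp [hQ, hM]
      _ = ρ ^ X.card * Q ^ M := by
          rw [prod_mul_distrib, prod_ite_mem, univ_inter, prod_const, prod_const, card_univ]
      _ ≤ ρ ^ n * Q ^ M :=
          mul_le_mul_of_nonneg_right (pow_le_pow_of_le_one hρ0 hρ1 hX) (by positivity)
  have hidx : (idx.card : ℝ) ≤ q * (2 ^ M * (((d + 1) * M ^ d : ℕ) : ℝ) ^ L) := by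
    have h1 : idx.card ≤ q * (2 ^ M * ((d + 1) * M ^ d) ^ L) := by
      refine (card_filter_le _ _).trans ?_
      rw [card_product, card_product, Fintype.card_piFinset, prod_const]
      simp only [card_univ, Fintype.card_fin, Fintype.card_finset]
      exact Nat.mul_le_mul_left _ (Nat.mul_le_mul_left _
        (Nat.pow_le_pow_left (card_small_sets d hV) _))
    exact_mod_cast h1
  have hlt : (idx.biUnion bad).card < (univ : Finset (V → V → Fin q)).card := by
    have h1 : ((idx.biUnion bad).card : ℝ) ≤ idx.card * (ρ ^ n * Q ^ M) := by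
      calc ((idx.biUnion bad).card : ℝ) ≤ ((∑ p ∈ idx, (bad p).card : ℕ) : ℝ) := by
            exact_mod_cast card_biUnion_le
        _ = ∑ p ∈ idx, ((bad p).card : ℝ) := by push_cast; rfl
        _ ≤ ∑ _p ∈ idx, ρ ^ n * Q ^ M := sum_le_sum hbad
        _ = _ := by simp
    have h2 : (((univ : Finset (V → V → Fin q)).card : ℕ) : ℝ) = Q ^ M := by
      simp [hQ, hM]
    have h3 : (idx.card : ℝ) * (ρ ^ n * Q ^ M) < Q ^ M := by
      have hQM : 0 < Q ^ M := by positivity
      calc (idx.card : ℝ) * (ρ ^ n * Q ^ M)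
          ≤ q * (2 ^ M * (((d + 1) * M ^ d : ℕ) : ℝ) ^ L) * (ρ ^ n * Q ^ M) :=
            mul_le_mul_of_nonneg_right hidx (by positivity)
        _ = (q * (2 ^ M * (((d + 1) * M ^ d : ℕ) : ℝ) ^ L) * ρ ^ n) * Q ^ M := by ring
        _ < 1 * Q ^ M := mul_lt_mul_of_pos_right hnum hQM
        _ = _ := one_mul _
    have : ((idx.biUnion bad).card : ℝ) < (((univ : Finset (V → V → Fin q)).card : ℕ) : ℝ) := by
      rw [h2]; exact h1.trans_lt h3
    exact_mod_cast this
  obtain ⟨c, -, hc⟩ := exists_mem_notMem_of_card_lt_card hlt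
  refine ⟨c, fun a T hT hdis X hX => ?_⟩
  by_contra hno
  refine hc (mem_biUnion.2 ⟨(a, X, T), ?_, ?_⟩)
  · simp only [idx, small, mem_filter, mem_product, mem_univ, true_and, Fintype.mem_piFinset]
    exact ⟨hT, hX, hdis⟩
  · simp only [bad, Fintype.mem_piFinset]
    intro x
    split_ifs with hx
    · simp only [mem_filter, mem_univ, true_and]
      intro i hi
      exact hno ⟨x, hx, i, hi⟩
    · exact mem_univ _

/-- A sparse relation with the expansion property. -/
lemma exists_sparse {V : Type*} [Fintype V] [DecidableEq V] (q d L n : ℕ) (hq : 0 < q)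
    (hV : 1 ≤ Fintype.card V)
    (hnum : (q : ℝ) * (2 ^ Fintype.card V * (((d + 1) * Fintype.card V ^ d : ℕ) : ℝ) ^ L) *
      ((1 - 1 / (q : ℝ) ^ d) ^ L) ^ n < 1) :
    ∃ E : Finset (V × V), q * E.card ≤ Fintype.card V ^ 2 ∧
      Exp (fun x y => (x, y) ∈ E) d L n := by
  classical
  obtain ⟨c, hc⟩ := exists_colouring (V := V) q d L n hq hV hnum
  have hsum : ∑ a : Fin q, ((univ : Finset (V × V)).filter fun p => c p.1 p.2 = a).card
      = Fintype.card V ^ 2 := by
    rw [← card_eq_sum_card_fiberwise (f := fun p : V × V => c p.1 p.2) (s := univ) (t := univ)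
      (fun _ _ => mem_univ _)]
    simp [sq]
  have : Nonempty (Fin q) := ⟨⟨0, hq⟩⟩
  obtain ⟨a, -, ha⟩ := exists_min_image univ
    (fun a : Fin q => ((univ : Finset (V × V)).filter fun p => c p.1 p.2 = a).card) univ_nonempty
  refine ⟨univ.filter fun p => c p.1 p.2 = a, ?_, ?_⟩
  · rw [← hsum]
    calc q * _ = ∑ _b : Fin q, ((univ : Finset (V × V)).filter fun p => c p.1 p.2 = a).card := by
          simp
      _ ≤ _ := sum_le_sum fun b hb => ha b hb
  · simpa using hc a

end Pool.Agent.Lib.helper33.Tol
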