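import Pool.Agent.Lib.helper33.TolA

set_option autoImplicit false

namespace Pool.Agent.Lib.helper33.Tol

open Finset

lemma card_part (k w : ℕ) (i : Fin k) :
    ((univ : Finset (Fin k × Fin w)).filter fun x => x.1 = i).card = w := by
  have : ((univ : Finset (Fin k × Fin w)).filter fun x => x.1 = i) = {i} ×ˢ univ := by
    ext ⟨a, b⟩; simp [eq_comm]
  rw [this]; simp

lemma embed {n k d L : ℕ} (G : SimpleGraph (Fin n)) [DecidableRel G.Adj]
    (hdeg : ∀ v, (univ.filter (G.Adj v)).card ≤ d) (col : Fin n → Fin k)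
    (hcol1 : ∀ a b, G.Adj a b → col a ≠ col b)
    (hcol2 : ∀ a b c, a ≠ b → G.Adj a c → G.Adj b c → col a ≠ col b)
    (r : Fin k × Fin (5 * n) → Fin k × Fin (5 * n) → Prop) (hE : Exp r d L n)
    (Dl : Finset (Fin k × Fin (5 * n))) (hD : Dl.card ≤ 2 * n) (hL : 1 ≤ L)
    (hn : L * (k * (d * L) + L) ≤ n) :
    ∃ f : Fin n → Fin k × Fin (5 * n), Function.Injective f ∧ (∀ u, f u ∉ Dl) ∧
      ∀ a b, G.Adj a b → r (f a) (f b) ∨ r (f b) (f a) := by
  classical
  set b := k * (d * L) + L with hb
  have hbn : b ≤ n := le_trans (Nat.le_mul_of_pos_left _ hL) hn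
  let part : Fin k → Finset (Fin k × Fin (5 * n)) := fun i => univ.filter fun x => x.1 = i
  have hpart : ∀ i, 3 * n ≤ (part i \ Dl).card := fun i => by
    have h1 := le_card_sdiff Dl (part i)
    have h2 : (part i).card = 5 * n := card_part k (5 * n) i
    omega
  let N : Fin k → Finset (Fin k × Fin (5 * n)) → Finset (Fin k × Fin (5 * n)) :=
    fun i T => (part i \ Dl).filter fun x => ∀ y ∈ T, r x y
  have hB : ∀ i, ∃ B : Finset (Fin k × Fin (5 * n)), B.card ≤ d * L ∧
      ∀ T, (T.card ≤ d ∧ (N i T).card < b) → ¬ Disjoint T B := by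
    intro i
    rcases pack_or_cover (fun T => T.card ≤ d ∧ (N i T).card < b) d (by
      rintro T ⟨h1, h2⟩
      refine ⟨?_, h1⟩
      rw [nonempty_iff_ne_empty]
      rintro rfl
      have : N i ∅ = part i \ Dl := by simp [N]
      rw [this] at h2
      have := hpart i
      omega) L with ⟨T, h1, h2⟩ | h
    · exfalso
      have hc : (univ.biUnion fun j => N i (T j)).card ≤ L * b := by
        calc _ ≤ ∑ j, (N i (T j)).card := card_biUnion_le
          _ ≤ ∑ _j : Fin L, b := sum_le_sum fun j _ => (h1 j).2.le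
          _ = L * b := by simp
      obtain ⟨x, hx, j, hj⟩ := hE T (fun j => (h1 j).1) h2
        ((part i \ Dl) \ univ.biUnion fun j => N i (T j)) (by
          have h3 := le_card_sdiff (univ.biUnion fun j => N i (T j)) (part i \ Dl)
          have := hpart i
          omega)
      rw [mem_sdiff] at hx
      exact hx.2 (mem_biUnion.2 ⟨j, mem_univ _, mem_filter.2 ⟨hx.1, hj⟩⟩)
    · exact h
  choose Bi hBi1 hBi2 using hB
  let B := univ.biUnion Bi
  have hBc : B.card ≤ k * (d * L) := by
    calc _ ≤ ∑ i, (Bi i).card := card_biUnion_le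
      _ ≤ ∑ _i : Fin k, d * L := sum_le_sum fun i _ => hBi1 i
      _ = k * (d * L) := by simp
  have hgood : ∀ i T, T.card ≤ d → Disjoint T B → L ≤ (N i T \ B).card := by
    intro i T h1 h2
    have h3 : b ≤ (N i T).card := by
      by_contra h
      exact hBi2 i T ⟨h1, not_le.1 h⟩ (h2.mono_right (subset_biUnion_of_mem Bi (mem_univ i)))
    have := le_card_sdiff B (N i T)
    omega
  have main : ∀ j : ℕ, ∃ f : Fin n → Fin k × Fin (5 * n),
      (∀ u, (col u).val < j → (f u).1 = col u ∧ f u ∉ Dl ∧ f u ∉ B) ∧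
      (∀ u v, (col u).val < j → (col v).val < j → f u = f v → u = v) ∧
      (∀ u v, (col u).val < j → (col v).val < (col u).val → G.Adj u v → r (f u) (f v)) := by
    intro j
    induction j with
    | zero =>
      exact ⟨fun u => (col u, ⟨u.val, by have := u.2; omega⟩), by simp, by simp, by simp⟩
    | succ j ih =>
      obtain ⟨f, f1, f2, f3⟩ := ih
      by_cases hj : j < k
      swap
      · have h : ∀ u, (col u).val < j := fun u => by have := (col u).2; omega
        exact ⟨f, fun u _ => f1 u (h u), fun u v _ _ => f2 u v (h u) (h v),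
          fun u v _ => f3 u v (h u)⟩
      set i : Fin k := ⟨j, hj⟩ with hi
      let T : Fin n → Finset (Fin k × Fin (5 * n)) := fun u =>
        (univ.filter fun v => G.Adj u v ∧ (col v).val < j).image f
      have hT1 : ∀ u, (T u).card ≤ d := fun u =>
        card_image_le.trans ((card_le_card fun v hv => by
          simp only [mem_filter, mem_univ, true_and] at hv ⊢; exact hv.1).trans (hdeg u))
      have hT2 : ∀ u, Disjoint (T u) B := fun u => by
        rw [disjoint_left]
        intro x hx
        obtain ⟨v, hv, rfl⟩ := mem_image.1 hx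
        exact (f1 v (mem_filter.1 hv).2.2).2.2
      have hT3 : ∀ u v, u ≠ v → col u = col v → Disjoint (T u) (T v) := by
        intro u v huv hc
        rw [disjoint_left]
        intro x hx hx'
        obtain ⟨a, ha, rfl⟩ := mem_image.1 hx
        obtain ⟨a', ha', e⟩ := mem_image.1 hx'
        have ha2 := (mem_filter.1 ha).2
        have ha2' := (mem_filter.1 ha').2
        have := f2 a' a ha2'.2 ha2.2 e
        subst this
        exact hcol2 u v a' huv ha2.1 ha2'.1 hc
      obtain ⟨C, hC⟩ : ∃ C : {u : Fin n // col u = i} → Finset (Fin k × Fin (5 * n)),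
          ∀ u, C u = N i (T u.1) \ B := ⟨_, fun _ => rfl⟩
      have hall : ∀ s : Finset {u : Fin n // col u = i}, s.card ≤ (s.biUnion C).card := by
        intro s
        by_cases hs : s.card ≤ L
        · rcases s.eq_empty_or_nonempty with rfl | ⟨u, hu⟩
          · simp
          · have h5 := hgood i _ (hT1 u.1) (hT2 u.1)
            rw [← hC] at h5
            exact hs.trans (h5.trans (card_le_card (subset_biUnion_of_mem C hu)))
        · have hsn : s.card ≤ n := by
            calc s.card ≤ Fintype.card {u : Fin n // col u = i} := card_le_univ _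
              _ ≤ Fintype.card (Fin n) := Fintype.card_subtype_le _
              _ = n := Fintype.card_fin n
          obtain ⟨e⟩ : Nonempty (Fin L ↪ s) :=
            Function.Embedding.nonempty_of_card_le (by simp; omega)
          by_contra hlt
          obtain ⟨x, hx, j', hj'⟩ := hE (fun j' => T (e j').1.1) (fun _ => hT1 _)
            (fun a a' h => hT3 _ _ (fun h' => h (e.injective (Subtype.ext (Subtype.ext h'))))
              ((e a).1.2.trans (e a').1.2.symm))
            (((part i \ Dl) \ B) \ s.biUnion C) (by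
              have h3 := le_card_sdiff (s.biUnion C) ((part i \ Dl) \ B)
              have h4 := le_card_sdiff B (part i \ Dl)
              have := hpart i
              omega)
          rw [mem_sdiff, mem_sdiff] at hx
          refine hx.2 (mem_biUnion.2 ⟨(e j').1, (e j').2, ?_⟩)
          rw [hC]
          exact mem_sdiff.2 ⟨mem_filter.2 ⟨hx.1.1, hj'⟩, hx.1.2⟩
      obtain ⟨g, g1, g2⟩ := (all_card_le_biUnion_card_iff_exists_injective C).1 hall
      have g3 : ∀ u, (g u).1 = i ∧ g u ∉ Dl ∧ g u ∉ B ∧ ∀ y ∈ T u.1, r (g u) y := by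
        intro u
        have := g2 u
        rw [hC] at this
        simp only [N, part, mem_sdiff, mem_filter, mem_univ, true_and] at this
        exact ⟨this.1.1.1, this.1.1.2, this.2, this.1.2⟩
      have hlt : ∀ u, (col u).val < j + 1 → ¬ col u = i → (col u).val < j := by
        intro u h1 h2
        have : (col u).val ≠ j := fun e => h2 (Fin.ext e)
        omega
      refine ⟨fun u => if h : col u = i then g ⟨u, h⟩ else f u, ?_, ?_, ?_⟩
      · intro u hu
        by_cases h : col u = i
        · simp only [dif_pos h]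
          exact ⟨(g3 _).1.trans h.symm, (g3 _).2.1, (g3 _).2.2.1⟩
        · simp only [dif_neg h]
          exact f1 u (hlt u hu h)
      · intro u v hu hv e
        by_cases h : col u = i <;> by_cases h' : col v = i
        · simp only [dif_pos h, dif_pos h'] at e
          exact congrArg Subtype.val (g1 e)
        · simp only [dif_pos h, dif_neg h'] at e
          exact absurd ((f1 v (hlt v hv h')).1.symm.trans
            ((congrArg Prod.fst e).symm.trans (g3 _).1)) h'
        · simp only [dif_neg h, dif_pos h'] at e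
          exact absurd ((f1 u (hlt u hu h)).1.symm.trans
            ((congrArg Prod.fst e).trans (g3 _).1)) h
        · simp only [dif_neg h, dif_neg h'] at e
          exact f2 u v (hlt u hu h) (hlt v hv h') e
      · intro u v hu hv huv
        have hvj : (col v).val < j := by omega
        have h' : ¬ col v = i := fun e => by
          have : (col v).val = j := congrArg Fin.val e
          omega
        by_cases h : col u = i
        · simp only [dif_pos h, dif_neg h']
          exact (g3 ⟨u, h⟩).2.2.2 _ (mem_image.2 ⟨v, mem_filter.2 ⟨mem_univ _, huv, hvj⟩, rfl⟩)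
        · simp only [dif_neg h, dif_neg h']
          exact f3 u v (hlt u hu h) hv huv
  obtain ⟨f, f1, f2, f3⟩ := main k
  refine ⟨f, fun u v e => f2 u v (col u).2 (col v).2 e, fun u => (f1 u (col u).2).2.1, ?_⟩
  intro a c hac
  have hne : (col a).val ≠ (col c).val := fun e => hcol1 a c hac (Fin.ext e)
  rcases lt_or_gt_of_ne hne with h | h
  · exact Or.inr (f3 c a (col c).2 h hac.symm)
  · exact Or.inl (f3 a c (col a).2 h hac)

lemma square_colouring {n d : ℕ} (G : SimpleGraph (Fin n)) [DecidableRel G.Adj]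
    (hdeg : ∀ v, (univ.filter (G.Adj v)).card ≤ d) :
    ∃ col : Fin n → Fin (d + d * d + 1), (∀ a b, G.Adj a b → col a ≠ col b) ∧
      ∀ a b c, a ≠ b → G.Adj a c → G.Adj b c → col a ≠ col b := by
  classical
  obtain ⟨c, hc⟩ := greedy (fun a b : Fin n => a ≠ b ∧ (G.Adj a b ∨ ∃ c, G.Adj a c ∧ G.Adj b c))
    (d + d * d)
    (by
      rintro a b ⟨h1, h2 | ⟨c, h2, h3⟩⟩
      · exact ⟨h1.symm, Or.inl h2.symm⟩
      · exact ⟨h1.symm, Or.inr ⟨c, h3, h2⟩⟩)
    (fun a h => h.1 rfl)
    (by
      intro a
      calc _ ≤ (univ.filter (G.Adj a) ∪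
            (univ.filter (G.Adj a)).biUnion fun c => univ.filter (G.Adj c)).card := by
            refine card_le_card fun b hb => ?_
            simp only [mem_filter, mem_univ, true_and, mem_union, mem_biUnion] at hb ⊢
            rcases hb.2 with h | ⟨c, h1, h2⟩
            · exact Or.inl h
            · exact Or.inr ⟨c, h1, h2.symm⟩
        _ ≤ (univ.filter (G.Adj a)).card +
            ((univ.filter (G.Adj a)).biUnion fun c => univ.filter (G.Adj c)).card :=
            card_union_le _ _
        _ ≤ d + d * d := by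
            refine add_le_add (hdeg a) ?_
            calc _ ≤ ∑ c ∈ univ.filter (G.Adj a), (univ.filter (G.Adj c)).card := card_biUnion_le
              _ ≤ ∑ _c ∈ univ.filter (G.Adj a), d := sum_le_sum fun c _ => hdeg c
              _ = (univ.filter (G.Adj a)).card * d := by simp
              _ ≤ d * d := Nat.mul_le_mul_right _ (hdeg a))
  exact ⟨c, fun a b h => hc a b ⟨h.ne, Or.inl h⟩,
    fun a b x h h1 h2 => hc a b ⟨h, Or.inr ⟨x, h1, h2⟩⟩⟩

/-- The numerical condition of the union bound holds for large `n`. -/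
lemma numerics (q d k : ℕ) (hq : 1 < q) :
    ∃ L N : ℕ, 1 ≤ L ∧ ∀ n ≥ N,
      (q : ℝ) * (2 ^ (k * (5 * n)) * (((d + 1) * (k * (5 * n)) ^ d : ℕ) : ℝ) ^ L) *
        ((1 - 1 / (q : ℝ) ^ d) ^ L) ^ n < 1 := by
  have hq1 : (1 : ℝ) ≤ q := by exact_mod_cast hq.le
  have hqd : (1 : ℝ) ≤ (q : ℝ) ^ d := one_le_pow₀ hq1
  have hrho : (0 : ℝ) ≤ 1 - 1 / (q : ℝ) ^ d := by
    rw [sub_nonneg, div_le_one (by linarith)]; exact hqd
  have hrho1 : 1 - 1 / (q : ℝ) ^ d < 1 := by
    have : (0 : ℝ) < 1 / (q : ℝ) ^ d := by positivity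
    linarith
  obtain ⟨L0, hL0⟩ := exists_pow_lt_of_lt_one (show (0 : ℝ) < (1 / 2) ^ (5 * k + 1) by positivity)
    hrho1
  have hL : (1 - 1 / (q : ℝ) ^ d) ^ (L0 + 1) ≤ (1 / 2) ^ (5 * k + 1) :=
    (pow_le_pow_of_le_one hrho hrho1.le (Nat.le_succ _)).trans hL0.le
  set L := L0 + 1 with hLdef
  set C : ℝ := q * (((d + 1) * (5 * k) ^ d : ℕ) : ℝ) ^ L + 1 with hC
  have hC0 : 0 < C := by positivity
  have ht := tendsto_pow_const_div_const_pow_of_one_lt (d * L) (show (1 : ℝ) < 2 by norm_num)
  have hev := ht.eventually (gt_mem_nhds (show (0 : ℝ) < 1 / C by positivity))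
  obtain ⟨N, hN⟩ := Filter.eventually_atTop.1 hev
  refine ⟨L, N, by omega, fun n hn => ?_⟩
  have h1 := hN n hn
  have h2 : ((1 - 1 / (q : ℝ) ^ d) ^ L) ^ n ≤ ((1 / 2) ^ (5 * k + 1)) ^ n :=
    pow_le_pow_left₀ (pow_nonneg hrho _) hL _
  have h3 : (q : ℝ) * (2 ^ (k * (5 * n)) * (((d + 1) * (k * (5 * n)) ^ d : ℕ) : ℝ) ^ L) *
      ((1 / 2) ^ (5 * k + 1)) ^ n = (C - 1) * ((n : ℝ) ^ (d * L) / 2 ^ n) := by
    have e1 : ((1 / 2 : ℝ) ^ (5 * k + 1)) ^ n = 1 / (2 ^ (k * (5 * n)) * 2 ^ n) := by
      rw [← pow_mul, ← pow_add, one_div_pow]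
      congr 2
      ring
    have e2 : (((d + 1) * (k * (5 * n)) ^ d : ℕ) : ℝ) ^ L
        = (((d + 1) * (5 * k) ^ d : ℕ) : ℝ) ^ L * (n : ℝ) ^ (d * L) := by
      rw [pow_mul, ← mul_pow]
      congr 1
      push_cast
      rw [mul_assoc, ← mul_pow]
      congr 2
      ring
    rw [e1, e2, hC]
    field_simp
    ring
  calc _ ≤ (q : ℝ) * (2 ^ (k * (5 * n)) * (((d + 1) * (k * (5 * n)) ^ d : ℕ) : ℝ) ^ L) *
      ((1 / 2) ^ (5 * k + 1)) ^ n := mul_le_mul_of_nonneg_left h2 (by positivity)
    _ = (C - 1) * ((n : ℝ) ^ (d * L) / 2 ^ n) := h3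
    _ ≤ C * ((n : ℝ) ^ (d * L) / 2 ^ n) :=
        mul_le_mul_of_nonneg_right (by linarith) (by positivity)
    _ < C * (1 / C) := mul_lt_mul_of_pos_left h1 hC0
    _ = 1 := by field_simp

end Pool.Agent.Lib.helper33.Tol
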