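import Mathlib

/-!
A 4-colourable triangulation of the torus on ten vertices, drawn with straight segments on the
grid `(1/5) ℤ² / ℤ²`, with a frozen 5-colouring.
-/

namespace Pool.Agent.Lib.helper33.TorusKempe

def nb : Fin 10 → ℕ := ![1022, 725, 363, 405, 683, 853, 167, 347, 685, 307]

def adjB (u v : Fin 10) : Bool := (nb u).testBit v.1

theorem adjB_symm : ∀ u v, adjB u v = true → adjB v u = true := by decide +kernel

theorem adjB_irrefl : ∀ u, ¬ adjB u u = true := by decide +kernel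

def G : SimpleGraph (Fin 10) where
  Adj u v := adjB u v = true
  symm := ⟨adjB_symm⟩
  loopless := ⟨adjB_irrefl⟩

instance : DecidableRel G.Adj := fun u v => inferInstanceAs (Decidable (adjB u v = true))

def px : Fin 10 → ℤ := ![0, 1, 2, 2, 1, -1, -2, -2, -1, 0]

def py : Fin 10 → ℤ := ![0, -2, -1, 0, 1, 2, 2, 1, -1, -2]

def cen (a : ℤ) : ℤ := (a + 2) % 5 - 2

def dx (u v : Fin 10) : ℤ := cen (px v - px u)

def dy (u v : Fin 10) : ℤ := cen (py v - py u)

/-- `w` is not of the form `s α - t β` with `s, t` strictly between 0 and 1 -/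
def sep (α β w : ℤ) : Bool :=
  if α = 0 ∧ β = 0 then decide (w ≠ 0) else
    decide (w ≤ min 0 α + min 0 (-β)) || decide (max 0 α + max 0 (-β) ≤ w)

theorem sep_sound {α β w : ℤ} (h : sep α β w = true) {s t : ℝ} (hs0 : 0 < s) (hs1 : s < 1)
    (ht0 : 0 < t) (ht1 : t < 1) : s * α - t * β ≠ w := by
  intro e
  have lo : ∀ (a : ℤ) (r : ℝ), 0 < r → r < 1 → ((min 0 a : ℤ) : ℝ) ≤ r * a ∧
      r * a ≤ ((max 0 a : ℤ) : ℝ) ∧ (a ≠ 0 → ((min 0 a : ℤ) : ℝ) < r * a ∧
        r * a < ((max 0 a : ℤ) : ℝ)) := by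
    intro a r h0 h1
    rcases lt_trichotomy a 0 with ha | ha | ha
    · have ha' : (a : ℝ) < 0 := by exact_mod_cast ha
      rw [min_eq_right ha.le, max_eq_left ha.le]
      have h2 : (a : ℝ) < r * a := by nlinarith
      have h3 : r * a < 0 := by nlinarith
      push_cast
      exact ⟨h2.le, h3.le, fun _ => ⟨h2, h3⟩⟩
    · subst ha
      simp
    · have ha' : (0 : ℝ) < a := by exact_mod_cast ha
      rw [min_eq_left ha.le, max_eq_right ha.le]
      have h2 : r * a < a := by nlinarith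
      have h3 : 0 < r * a := by nlinarith
      push_cast
      exact ⟨h3.le, h2.le, fun _ => ⟨h3, h2⟩⟩
  obtain ⟨a1, a2, a3⟩ := lo α s hs0 hs1
  obtain ⟨b1, b2, b3⟩ := lo (-β) t ht0 ht1
  have eb : t * ((-β : ℤ) : ℝ) = -(t * β) := by push_cast; ring
  rw [eb] at b1 b2 b3
  unfold sep at h
  split_ifs at h with h0
  · obtain ⟨rfl, rfl⟩ := h0
    simp only [ne_eq, decide_eq_true_eq] at h
    apply h
    have : (w : ℝ) = 0 := by rw [← e]; simp
    exact_mod_cast this
  · simp only [Bool.or_eq_true, decide_eq_true_eq] at h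
    have hs : ((min 0 α : ℤ) : ℝ) + ((min 0 (-β) : ℤ) : ℝ) < w ∧
        (w : ℝ) < ((max 0 α : ℤ) : ℝ) + ((max 0 (-β) : ℤ) : ℝ) := by
      by_cases hα : α = 0
      · have hβ : -β ≠ 0 := fun h' => h0 ⟨hα, by omega⟩
        obtain ⟨c1, c2⟩ := b3 hβ
        constructor <;> linarith
      · obtain ⟨c1, c2⟩ := a3 hα
        constructor <;> linarith
    rcases h with h | h
    · have : (w : ℝ) ≤ ((min 0 α : ℤ) : ℝ) + ((min 0 (-β) : ℤ) : ℝ) := by exact_mod_cast h
      linarith [hs.1]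
    · have : ((max 0 α : ℤ) : ℝ) + ((max 0 (-β) : ℤ) : ℝ) ≤ w := by exact_mod_cast h
      linarith [hs.2]

/-- the open segments with directions `(a, b)` and `(c, d)` and offset `(x, y)` are disjoint -/
def sep2 (a b c d x y : ℤ) : Bool :=
  sep a c x || sep b d y || sep 0 (a * d - b * c) (a * y - b * x) ||
    sep (c * b - d * a) 0 (c * y - d * x)

theorem sep2_sound {a b c d x y : ℤ} (h : sep2 a b c d x y = true) {s t : ℝ} (hs0 : 0 < s)
    (hs1 : s < 1) (ht0 : 0 < t) (ht1 : t < 1) (e1 : s * a - t * c = x) (e2 : s * b - t * d = y) :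
    False := by
  simp only [sep2, Bool.or_eq_true] at h
  rcases h with ((h | h) | h) | h
  · exact sep_sound h hs0 hs1 ht0 ht1 e1
  · exact sep_sound h hs0 hs1 ht0 ht1 e2
  · refine sep_sound h hs0 hs1 ht0 ht1 ?_
    push_cast
    rw [← e1, ← e2]
    ring
  · refine sep_sound h hs0 hs1 ht0 ht1 ?_
    push_cast
    rw [← e1, ← e2]
    ring

def ks : List ℤ := [-1, 0, 1]

theorem chk_bound : ∀ u v, -2 ≤ px u ∧ px u ≤ 2 ∧ -2 ≤ py u ∧ py u ≤ 2 ∧ -2 ≤ dx u v ∧
    dx u v ≤ 2 ∧ -2 ≤ dy u v ∧ dy u v ≤ 2 := by decide +kernel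

theorem chk_inj : ∀ u v, px u = px v → py u = py v → u = v := by decide +kernel

theorem chk_end : ∀ u v, (px u + dx u v - px v) % 5 = 0 ∧ (py u + dy u v - py v) % 5 = 0 := by
  decide +kernel

theorem chk_ne : ∀ u v, adjB u v = true → dx u v ≠ 0 ∨ dy u v ≠ 0 := by decide +kernel

theorem chk_vert : ∀ u v, adjB u v = true → ∀ w, (ks.all fun k => ks.all fun l =>
    sep2 (dx u v) (dy u v) 0 0 (px w + 5 * k - px u) (py w + 5 * l - py u)) = true := by
  decide +kernel

theorem chk_cross : ∀ u v, adjB u v = true → ∀ u' v', adjB u' v' = true →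
    (((u == u' && v == v') || (u == v' && v == u')) || ks.all fun k => ks.all fun l =>
      sep2 (dx u v) (dy u v) (dx u' v') (dy u' v') (px u' + 5 * k - px u)
        (py u' + 5 * l - py u)) = true := by
  decide +kernel

theorem circ_eq {a b : ℝ} : ((a / 5 : ℝ) : AddCircle (1 : ℝ)) = ((b / 5 : ℝ) : AddCircle (1 : ℝ)) ↔
    ∃ k : ℤ, a = b + 5 * k := by
  rw [eq_comm, QuotientAddGroup.eq, AddSubgroup.mem_zmultiples_iff]
  constructor
  · rintro ⟨k, hk⟩
    refine ⟨k, ?_⟩
    rw [zsmul_eq_mul, mul_one] at hk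
    linarith
  · rintro ⟨k, hk⟩
    refine ⟨k, ?_⟩
    rw [zsmul_eq_mul, mul_one]
    linarith

noncomputable def p (u : Fin 10) : AddCircle (1 : ℝ) × AddCircle (1 : ℝ) :=
  ((((px u : ℝ) / 5 : ℝ) : AddCircle (1 : ℝ)), (((py u : ℝ) / 5 : ℝ) : AddCircle (1 : ℝ)))

noncomputable def γ (u v : Fin 10) : C(unitInterval, AddCircle (1 : ℝ) × AddCircle (1 : ℝ)) where
  toFun t := (((((px u : ℝ) + t * dx u v) / 5 : ℝ) : AddCircle (1 : ℝ)),
    ((((py u : ℝ) + t * dy u v) / 5 : ℝ) : AddCircle (1 : ℝ)))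
  continuous_toFun := Continuous.prodMk
    ((AddCircle.continuous_mk' (1 : ℝ)).comp (by fun_prop))
    ((AddCircle.continuous_mk' (1 : ℝ)).comp (by fun_prop))

theorem k_mem {k : ℤ} (h1 : (-10 : ℝ) < 5 * k) (h2 : (5 : ℝ) * k < 10) : k ∈ ks := by
  have a : -10 < 5 * k := by exact_mod_cast h1
  have b : 5 * k < 10 := by exact_mod_cast h2
  simp only [ks, List.mem_cons, List.not_mem_nil, or_false]
  omega

theorem small {a : ℤ} (h1 : -2 ≤ a) (h2 : a ≤ 2) {t : ℝ} (t0 : 0 ≤ t) (t1 : t ≤ 1) :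
    -2 ≤ t * a ∧ t * a ≤ 2 ∧ (-2 : ℝ) ≤ a ∧ (a : ℝ) ≤ 2 := by
  have a1 : (-2 : ℝ) ≤ a := by exact_mod_cast h1
  have a2 : (a : ℝ) ≤ 2 := by exact_mod_cast h2
  refine ⟨by nlinarith, by nlinarith, a1, a2⟩

theorem embeds : ∃ (p : Fin 10 → AddCircle (1:ℝ) × AddCircle (1:ℝ))
    (γ : Fin 10 → Fin 10 → C(unitInterval, AddCircle (1:ℝ) × AddCircle (1:ℝ))),
    Function.Injective p ∧
    (∀ u v, G.Adj u v → γ u v 0 = p u ∧ γ u v 1 = p v ∧ Function.Injective (γ u v)) ∧
    (∀ (u v w : Fin 10) (t : unitInterval), G.Adj u v → 0 < (t:ℝ) → (t:ℝ) < 1 →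
      γ u v t ≠ p w) ∧
    (∀ (u v u' v' : Fin 10) (s t : unitInterval), G.Adj u v → G.Adj u' v' →
      ¬ ((u = u' ∧ v = v') ∨ (u = v' ∧ v = u')) →
      0 < (s:ℝ) → (s:ℝ) < 1 → 0 < (t:ℝ) → (t:ℝ) < 1 → γ u v s ≠ γ u' v' t) := by
  refine ⟨p, γ, ?_, ?_, ?_, ?_⟩
  · intro u v h
    obtain ⟨k, hk⟩ := circ_eq.1 (congrArg Prod.fst h)
    obtain ⟨l, hl⟩ := circ_eq.1 (congrArg Prod.snd h)
    have hk' : px u = px v + 5 * k := by exact_mod_cast hk
    have hl' : py u = py v + 5 * l := by exact_mod_cast hl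
    have b1 := chk_bound u u
    have b2 := chk_bound v v
    exact chk_inj u v (by omega) (by omega)
  · intro u v huv
    refine ⟨?_, ?_, ?_⟩
    · simp [γ, p]
    · obtain ⟨h1, h2⟩ := chk_end u v
      obtain ⟨k, hk⟩ := Int.dvd_of_emod_eq_zero h1
      obtain ⟨l, hl⟩ := Int.dvd_of_emod_eq_zero h2
      have hk' : (px u : ℝ) + dx u v - px v = 5 * k := by exact_mod_cast hk
      have hl' : (py u : ℝ) + dy u v - py v = 5 * l := by exact_mod_cast hl
      refine Prod.ext (circ_eq.2 ⟨k, ?_⟩) (circ_eq.2 ⟨l, ?_⟩)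
      · rw [Set.Icc.coe_one]; linarith
      · rw [Set.Icc.coe_one]; linarith
    · intro s t h
      obtain ⟨k, hk⟩ := circ_eq.1 (congrArg Prod.fst h)
      obtain ⟨l, hl⟩ := circ_eq.1 (congrArg Prod.snd h)
      obtain ⟨-, -, -, -, b1, b2, b3, b4⟩ := chk_bound u v
      have s1 := small b1 b2 s.2.1 s.2.2
      have s2 := small b3 b4 s.2.1 s.2.2
      have t1 := small b1 b2 t.2.1 t.2.2
      have t2 := small b3 b4 t.2.1 t.2.2
      have k1 : -5 < 5 * k := by
        have : (-5 : ℝ) < 5 * k := by linarith [s1.1, t1.2.1]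
        exact_mod_cast this
      have k2 : 5 * k < 5 := by
        have : (5 : ℝ) * k < 5 := by linarith [s1.2.1, t1.1]
        exact_mod_cast this
      have l1 : -5 < 5 * l := by
        have : (-5 : ℝ) < 5 * l := by linarith [s2.1, t2.2.1]
        exact_mod_cast this
      have l2 : 5 * l < 5 := by
        have : (5 : ℝ) * l < 5 := by linarith [s2.2.1, t2.1]
        exact_mod_cast this
      have k0 : k = 0 := by omega
      have l0 : l = 0 := by omega
      subst k0 l0
      apply Subtype.ext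
      rcases chk_ne u v huv with h | h
      · have : (dx u v : ℝ) ≠ 0 := by exact_mod_cast h
        apply mul_right_cancel₀ this
        push_cast at hk
        linarith
      · have : (dy u v : ℝ) ≠ 0 := by exact_mod_cast h
        apply mul_right_cancel₀ this
        push_cast at hl
        linarith
  · intro u v w t huv t0 t1 h
    obtain ⟨k, hk⟩ := circ_eq.1 (congrArg Prod.fst h)
    obtain ⟨l, hl⟩ := circ_eq.1 (congrArg Prod.snd h)
    obtain ⟨a1, a2, a3, a4, b1, b2, b3, b4⟩ := chk_bound u v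
    obtain ⟨c1, c2, c3, c4, -⟩ := chk_bound w w
    have s1 := small b1 b2 t0.le t1.le
    have s2 := small b3 b4 t0.le t1.le
    have u1 := small a1 a2 t0.le t1.le
    have u2 := small a3 a4 t0.le t1.le
    have w1 := small c1 c2 t0.le t1.le
    have w2 := small c3 c4 t0.le t1.le
    have hk' := k_mem (k := k) (by linarith [s1.1, u1.2.2.1, w1.2.2.2])
      (by linarith [s1.2.1, u1.2.2.2, w1.2.2.1])
    have hl' := k_mem (k := l) (by linarith [s2.1, u2.2.2.1, w2.2.2.2])
      (by linarith [s2.2.1, u2.2.2.2, w2.2.2.1])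
    have := List.all_eq_true.1 (List.all_eq_true.1 (chk_vert u v huv w) k hk') l hl'
    refine sep2_sound this t0 t1 t0 t1 ?_ ?_
    · push_cast; linarith
    · push_cast; linarith
  · intro u v u' v' s t huv huv' hne s0 s1 t0 t1 h
    obtain ⟨k, hk⟩ := circ_eq.1 (congrArg Prod.fst h)
    obtain ⟨l, hl⟩ := circ_eq.1 (congrArg Prod.snd h)
    obtain ⟨a1, a2, a3, a4, b1, b2, b3, b4⟩ := chk_bound u v
    obtain ⟨c1, c2, c3, c4, d1, d2, d3, d4⟩ := chk_bound u' v'
    have x1 := small b1 b2 s0.le s1.le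
    have x2 := small b3 b4 s0.le s1.le
    have y1 := small d1 d2 t0.le t1.le
    have y2 := small d3 d4 t0.le t1.le
    have u1 := small a1 a2 t0.le t1.le
    have u2 := small a3 a4 t0.le t1.le
    have w1 := small c1 c2 t0.le t1.le
    have w2 := small c3 c4 t0.le t1.le
    have hk' := k_mem (k := k) (by linarith [x1.1, u1.2.2.1, w1.2.2.2, y1.2.1])
      (by linarith [x1.2.1, u1.2.2.2, w1.2.2.1, y1.1])
    have hl' := k_mem (k := l) (by linarith [x2.1, u2.2.2.1, w2.2.2.2, y2.2.1])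
      (by linarith [x2.2.1, u2.2.2.2, w2.2.2.1, y2.1])
    have hc := chk_cross u v huv u' v' huv'
    simp only [Bool.or_eq_true, Bool.and_eq_true, beq_iff_eq] at hc
    rcases hc with hc | hc
    · exact hne hc
    · have := List.all_eq_true.1 (List.all_eq_true.1 hc k hk') l hl'
      refine sep2_sound this s0 s1 t0 t1 ?_ ?_
      · push_cast; linarith
      · push_cast; linarith

def c0 : Fin 10 → Fin 5 := ![0, 1, 2, 3, 2, 4, 3, 4, 1, 3]

def c1 : Fin 10 → Fin 4 := ![0, 1, 2, 1, 3, 1, 3, 2, 3, 2]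

theorem c0_ok : ∀ u v, adjB u v = true → c0 u ≠ c0 v := by decide +kernel

theorem c1_ok : ∀ u v, adjB u v = true → c1 u ≠ c1 v := by decide +kernel

def col0 : G.Coloring (Fin 5) := SimpleGraph.Coloring.mk c0 (fun h => c0_ok _ _ h)

def col4 : G.Coloring (Fin 4) := SimpleGraph.Coloring.mk c1 (fun h => c1_ok _ _ h)

def col1 : G.Coloring (Fin 5) := SimpleGraph.Coloring.mk (fun v => (c1 v).castSucc)
  (fun h e => c1_ok _ _ h (Fin.castSucc_injective _ e))

def inP (i j : Fin 5) (u : Fin 10) : Bool := c0 u == i || c0 u == j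

def reach (i j : Fin 5) : ℕ → Fin 10 → Fin 10 → Bool
  | 0, u, v => u == v
  | k + 1, u, v => u == v ||
      (List.finRange 10).any fun w => adjB u w && inP i j w && reach i j k w v

theorem chk_reach : ∀ i j, i ≠ j → ∀ u, inP i j u = true → ∀ v, inP i j v = true →
    reach i j 4 u v = true := by decide +kernel

theorem reach_sound (F : SimpleGraph (Fin 10)) (i j : Fin 5)
    (hF : ∀ u w, adjB u w = true → inP i j u = true → inP i j w = true → F.Adj u w) :
    ∀ k u v, inP i j u = true → reach i j k u v = true → F.Reachable u v := by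
  intro k
  induction k with
  | zero =>
    intro u v _ h
    simp only [reach, beq_iff_eq] at h
    rw [h]
  | succ k ih =>
    intro u v hu h
    simp only [reach, Bool.or_eq_true, beq_iff_eq, List.any_eq_true, Bool.and_eq_true] at h
    rcases h with h | ⟨w, -, ⟨h1, h2⟩, h3⟩
    · rw [h]
    · exact (hF u w h1 hu h2).reachable.trans (ih w v h2 h3)

theorem step (c c' : Fin 10 → Fin 5) (π : Equiv.Perm (Fin 5)) (hc : ∀ v, c v = π (c0 v))
    (a b : Fin 5) (x : Fin 10)
    (h : ∀ v : Fin 10,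
      ((SimpleGraph.fromRel (fun y z => G.Adj y z ∧ (c y = a ∨ c y = b) ∧
          (c z = a ∨ c z = b))).Reachable x v → c' v = Equiv.swap a b (c v)) ∧
      (¬ (SimpleGraph.fromRel (fun y z => G.Adj y z ∧ (c y = a ∨ c y = b) ∧
          (c z = a ∨ c z = b))).Reachable x v → c' v = c v)) :
    ∃ π' : Equiv.Perm (Fin 5), ∀ v, c' v = π' (c0 v) := by
  set F := SimpleGraph.fromRel (fun y z => G.Adj y z ∧ (c y = a ∨ c y = b) ∧
    (c z = a ∨ c z = b)) with hF
  by_cases hab : a = b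
  · refine ⟨π, fun v => ?_⟩
    by_cases hr : F.Reachable x v
    · rw [(h v).1 hr, hab, Equiv.swap_self, ← hc]; rfl
    · rw [(h v).2 hr, hc]
  by_cases hx : c x = a ∨ c x = b
  · have hin : ∀ u, inP (π.symm a) (π.symm b) u = true ↔ (c u = a ∨ c u = b) := by
      intro u
      simp only [inP, Bool.or_eq_true, beq_iff_eq, Equiv.eq_symm_apply, hc]
    have hne : π.symm a ≠ π.symm b := fun e => hab (π.symm.injective e)
    refine ⟨π.trans (Equiv.swap a b), fun v => ?_⟩
    rw [Equiv.trans_apply, ← hc]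
    by_cases hr : F.Reachable x v
    · exact (h v).1 hr
    · rw [(h v).2 hr, Equiv.swap_apply_of_ne_of_ne]
      all_goals
        intro e
        apply hr
        refine reach_sound F (π.symm a) (π.symm b) ?_ 4 x v ((hin x).2 hx)
          (chk_reach _ _ hne x ((hin x).2 hx) v ((hin v).2 (by simp [e])))
        intro u w h1 h2 h3
        rw [hF, SimpleGraph.fromRel_adj]
        exact ⟨(show G.Adj u w from h1).ne, Or.inl ⟨h1, (hin u).1 h2, (hin w).1 h3⟩⟩
  · refine ⟨π, fun v => ?_⟩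
    by_cases hr : F.Reachable x v
    · have hv : x = v := by
        obtain ⟨w⟩ := hr
        cases w with
        | nil => rfl
        | cons h1 _ =>
          rw [hF, SimpleGraph.fromRel_adj] at h1
          rcases h1.2 with h2 | h2
          · exact absurd h2.2.1 hx
          · exact absurd h2.2.2 hx
      subst hv
      push Not at hx
      rw [(h x).1 hr, Equiv.swap_apply_of_ne_of_ne hx.1 hx.2, hc]
    · rw [(h v).2 hr, hc]

theorem not_equiv : ¬ Relation.ReflTransGen
    (fun c c' : Fin 10 → Fin 5 => ∃ (a b : Fin 5) (x : Fin 10), ∀ v : Fin 10,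
      ((SimpleGraph.fromRel (fun y z => G.Adj y z ∧ (c y = a ∨ c y = b) ∧
          (c z = a ∨ c z = b))).Reachable x v → c' v = Equiv.swap a b (c v)) ∧
      (¬ (SimpleGraph.fromRel (fun y z => G.Adj y z ∧ (c y = a ∨ c y = b) ∧
          (c z = a ∨ c z = b))).Reachable x v → c' v = c v))
    (⇑col0) (⇑col1) := by
  intro h
  have key : ∃ π : Equiv.Perm (Fin 5), ∀ v, col1 v = π (c0 v) := by
    generalize (⇑col1 : Fin 10 → Fin 5) = d at h
    induction h with
    | refl => exact ⟨Equiv.refl _, fun v => rfl⟩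
    | tail _ hstep ih =>
      obtain ⟨π, hπ⟩ := ih
      obtain ⟨a, b, x, hx⟩ := hstep
      exact step _ _ π hπ a b x hx
  obtain ⟨π, hπ⟩ := key
  have h1 : col1 1 = col1 3 := rfl
  rw [hπ, hπ] at h1
  exact absurd (π.injective h1) (by decide)

end Pool.Agent.Lib.helper33.TorusKempe
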